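import Pool.Agent.Y47.BU.Tree
import Pool.Agent.TH773.ST.Hyp

/-! Patterns and trees (generated data, checked by the kernel). -/

set_option autoImplicit false
set_option maxRecDepth 100000
set_option maxHeartbeats 4000000

namespace Pool.Agent.Y47.BU
open Pool.Agent.TH773.ST

/-- a pattern -/
def PA : Pt := ⟨6, [(0, 1, 2, 0), (0, 1, 3, 0), (0, 2, 3, 1), (0, 1, 4, 0), (0, 2, 4, 1), (0, 3, 4, 1), (0, 1, 5, 1), (0, 2, 5, 0), (0, 3, 5, 0), (0, 4, 5, 0)], [(1, 0, 0)]⟩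

/-- a tree -/
def tA0 : Tr :=
  (.n 1 (.f 181889) (.n 6 (.n 8 (.n 9 (.n 10 (.n 13 (.f 98321) (.n 19 (.f 65561) (.n 25 (.f 65569) (.n 12 (.n 2 (.n 18 (.n 3 (.n 4 (.f 50816) (.n 24 (.f 131084) (.k 8781888))) (.f 98315)) (.n 3 (.f 46720) (.k 6651968))) (.f 65546)) (.n 2 (.f 42112) (.k 4522048)))))) (.f 131081)) (.f 98313)) (.f 65545)) (.k 2392128)))

theorem oA0 : chk PA 77292 [] tA0 = true := by decide +kernel

/-- a tree -/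
def tA1 : Tr :=
  (.n 4 (.f 177220) (.n 10 (.f 65548) (.n 16 (.f 32788) (.n 22 (.f 32796) (.n 24 (.n 6 (.n 1 (.n 12 (.n 2 (.n 3 (.f 144448) (.n 18 (.f 131099) (.k 6651968))) (.f 131090)) (.n 2 (.f 140352) (.k 4522048))) (.f 131081)) (.f 168544)) (.k 8781888))))))

theorem oA1 : chk PA 97095 [] tA1 = true := by decide +kernel

/-- a tree -/
def tA2 : Tr :=
  (.n 4 (.f 177220) (.n 5 (.f 144453) (.k 10616896)))

theorem oA2 : chk PA 119623 [] tA2 = true := by decide +kernel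

/-- a tree -/
def tA3 : Tr :=
  (.n 5 (.f 144453) (.n 11 (.f 65549) (.n 17 (.f 32789) (.n 23 (.f 32797) (.n 29 (.f 4709) (.n 24 (.n 12 (.n 2 (.n 18 (.n 3 (.n 1 (.f 177216) (.n 6 (.f 163849) (.k 2392128))) (.f 163867)) (.f 177824)) (.f 163858)) (.f 173216)) (.k 10487904)))))))

theorem oA3 : chk PA 119639 [] tA3 = true := by decide +kernel

theorem okA : ∀ m ∈ famM 4, ∃ tr, chk PA m [] tr = true := by
  intro m hm
  simp only [famM, List.mem_cons, List.not_mem_nil, or_false] at hm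
  rcases hm with rfl | rfl | rfl | rfl
  exacts [⟨_, oA0⟩, ⟨_, oA1⟩, ⟨_, oA2⟩, ⟨_, oA3⟩]

/-- a pattern -/
def PB : Pt := ⟨5, [(0, 1, 2, 1), (0, 1, 3, 1), (0, 2, 3, 1), (0, 1, 4, 1), (0, 2, 4, 0), (0, 3, 4, 0)], [(1, 0, 0), (2, 0, 0), (4, 0, 0)]⟩

/-- a tree -/
def tB0 : Tr :=
  (.n 8 (.n 9 (.n 13 (.n 6 (.n 12 (.n 24 (.f 6928) (.n 26 (.n 20 (.f 12554) (.n 15 (.n 27 (.f 8459) (.k 6293600)) (.k 6653008))) (.k 4196448))) (.n 2 (.n 16 (.f 10306) (.k 8389712)) (.k 4522048))) (.n 1 (.f 5761) (.k 2392128))) (.n 12 (.n 15 (.n 3 (.f 10251) (.n 4 (.n 5 (.n 16 (.n 2 (.f 10250) (.n 24 (.f 2832) (.n 26 (.f 8458) (.k 4196448)))) (.k 8422480)) (.k 10584128)) (.k 8486976))) (.k 6325328)) (.k 2098256))) (.n 6 (.n 19 (.n 1 (.f 5145) (.n 2 (.n 13 (.f 4249) (.n 12 (.n 16 (.f 10250) (.k 8422480)) (.k 2098256))) (.k 4227136))) (.k 6652488)) (.k 6292040))) (.n 6 (.n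 9 (.n 13 (.n 1 (.f 5649) (.n 3 (.n 19 (.f 4305) (.n 18 (.n 22 (.f 14347) (.k 8423000)) (.k 2098776))) (.k 6324288))) (.k 4522568)) (.k 6357576)) (.k 4194888)))

theorem oB0 : chk PB 96747 [] tB0 = true := by decide +kernel

/-- a tree -/
def tB1 : Tr :=
  (.n 4 (.n 24 (.n 5 (.n 1 (.n 25 (.n 13 (.f 1697) (.n 16 (.n 17 (.n 29 (.f 17029) (.n 34 (.f 21124) (.k 10913888))) (.k 10519632)) (.k 8422480))) (.n 10 (.n 26 (.f 17420) (.k 4229216)) (.k 8782408))) (.n 6 (.f 2824) (.k 2392128))) (.n 1 (.n 30 (.f 808) (.k 10911808)) (.k 10518592))) (.n 25 (.n 26 (.n 10 (.f 17476) (.n 8 (.n 9 (.n 13 (.f 5793) (.n 16 (.f 17028) (.k 8422480))) (.k 8487496)) (.k 8454728))) (.k 4196448)) (.k 2099296))) (.n 1 (.n 5 (.n 24 (.n 6 (.f 2656) (.n 11 (.n 30 (.f 864) (.n 31 (.n 32 (.f 21573) (.k 4196968)) (.k 2099816))) (.k 10486344))) (.k 8781888)) (.k 10616896)) (.k 8421440)))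

theorem oB1 : chk PB 97788 [] tB1 = true := by decide +kernel

theorem okB : ∀ m ∈ famM 1, ∃ tr, chk PB m [] tr = true := by
  intro m hm
  simp only [famM, List.mem_cons, List.not_mem_nil, or_false] at hm
  rcases hm with rfl | rfl
  exacts [⟨_, oB0⟩, ⟨_, oB1⟩]

/-- a pattern -/
def PC : Pt := ⟨5, [(0, 1, 2, 1), (0, 1, 3, 1), (0, 2, 3, 1), (0, 1, 4, 0), (0, 2, 4, 0), (0, 3, 4, 0)], [(1, 0, 0), (4, 0, 0)]⟩

/-- a tree -/
def tC0 : Tr :=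
  (.n 29 (.n 11 (.f 18061) (.n 6 (.n 8 (.n 9 (.n 17 (.f 16981) (.n 13 (.n 1 (.n 19 (.n 12 (.n 2 (.n 3 (.f 1672) (.n 18 (.f 12299) (.k 6651968))) (.f 8202)) (.n 2 (.f 1160) (.k 4522048))) (.f 5825)) (.f 4113)) (.k 10519632))) (.k 10584648)) (.k 10551880)) (.k 10486344))) (.n 24 (.n 34 (.n 10 (.f 22156) (.n 6 (.n 8 (.n 16 (.f 21076) (.n 13 (.n 1 (.n 25 (.n 4 (.f 16964) (.n 5 (.n 30 (.f 22789) (.f 2888)) (.k 10616896))) (.k 8782408)) (.f 4113)) (.k 8422480))) (.k 8454728)) (.k 8389192))) (.k 10913888)) (.k 10487904)))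

theorem oC0 : chk PC 120663 [] tC0 = true := by decide +kernel

/-- a tree -/
def tC1 : Tr :=
  (.n 4 (.n 24 (.n 2 (.n 1 (.f 1120) (.n 3 (.n 12 (.n 18 (.n 26 (.n 27 (.f 18052) (.n 22 (.f 14595) (.k 8783448))) (.n 16 (.f 10498) (.k 8782928))) (.f 1760)) (.f 1184)) (.k 6324288))) (.n 1 (.n 3 (.f 1632) (.n 12 (.n 18 (.n 26 (.n 16 (.f 8226) (.f 17540)) (.n 27 (.n 22 (.f 12323) (.f 18116)) (.k 6359136))) (.k 6651968)) (.k 4522048))) (.k 4227136))) (.n 25 (.n 26 (.n 27 (.n 29 (.n 16 (.n 22 (.n 13 (.n 19 (.n 15 (.n 20 (.n 8 (.n 9 (.n 6 (.f 5649) (.n 10 (.n 11 (.f 6865) (.n 31 (.n 34 (.f 21093) (.f 11084)) (.k 10912328))) (.k 8389192))) (.f 12883)) (.f 8794)) (.f 9954)) (.n 20 (.f 13475) (.k 6653008))) (.f 18129)) (.n 12 (.n 2 (.f 2320) (.f 8226)) (.k 2098256))) (.f 18132)) (.n 12 (.n 2 (.f 2320) (.n 1 (.n 6 (.f 2312) (.n 8 (.n 13 (.f 8202) (.n 17 (.n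 32 (.f 8234) (.f 19274)) (.k 10519632))) (.k 4194888))) (.k 4227136))) (.k 8389712))) (.k 10487904)) (.k 6293600)) (.k 4196448)) (.k 2099296))) (.n 1 (.n 2 (.n 3 (.n 24 (.n 12 (.n 6 (.n 18 (.n 8 (.n 9 (.f 5761) (.n 19 (.f 12867) (.k 6652488))) (.n 13 (.f 8770) (.k 4522568))) (.f 1736)) (.f 592)) (.n 6 (.f 1160) (.n 16 (.n 18 (.f 600) (.n 22 (.n 26 (.f 16404) (.n 27 (.f 16412) (.k 6359136))) (.k 8390232))) (.k 8389712)))) (.k 8781888)) (.k 8486976)) (.k 8454208)) (.k 8421440)))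

theorem oC1 : chk PC 228027 [] tC1 = true := by decide +kernel

theorem okC : ∀ m ∈ famM 2, ∃ tr, chk PC m [] tr = true := by
  intro m hm
  simp only [famM, List.mem_cons, List.not_mem_nil, or_false] at hm
  rcases hm with rfl | rfl
  exacts [⟨_, oC0⟩, ⟨_, oC1⟩]

/-- a pattern -/
def PD : Pt := ⟨5, [(0, 1, 2, 1), (0, 1, 3, 0), (0, 2, 3, 1), (0, 1, 4, 1), (0, 2, 4, 0), (0, 3, 4, 0)], [(1, 0, 0), (2, 0, 0), (3, 0, 0)]⟩

/-- a tree -/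
def tD0 : Tr :=
  (.n 4 (.n 24 (.n 5 (.n 29 (.n 17 (.f 6165) (.n 12 (.n 13 (.n 23 (.f 6173) (.n 18 (.n 19 (.n 32 (.n 30 (.n 34 (.n 16 (.f 6676) (.n 22 (.f 6684) (.n 26 (.n 27 (.n 15 (.n 8 (.f 13578) (.n 9 (.n 20 (.f 9995) (.f 1675)) (.k 6357576))) (.n 20 (.f 1698) (.k 6653008))) (.k 8783448)) (.k 8782928)))) (.f 11013)) (.n 34 (.n 16 (.f 6676) (.n 22 (.f 6684) (.n 26 (.n 27 (.n 15 (.n 8 (.f 13578) (.n 9 (.n 20 (.f 9995) (.f 1675)) (.k 6357576))) (.n 20 (.f 1698) (.k 6653008))) (.k 8783448)) (.k 8782928)))) (.k 8391272))) (.k 10912848)) (.k 10520152)) (.k 10487384))) (.k 10519632)) (.k 10486864))) (.n 34 (.n 16 (.f 6676) (.n 26 (.f 10564) (.k 8782928))) (.k 10913888))) (.n 2 (.n 30 (.n 1 (.n 12 (.f 4432) (.n 13 (.n 16 (.n 10 (.f 21124) (.n 8 (.n 15 (.f 13322) (.n 20 (.f 18050) (.k 6653008))) (.k 8454728))) (.k 8389712)) (.k 2098256))) (.f 6464))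 (.k 10911808)) (.k 10551360))) (.n 26 (.n 27 (.n 29 (.n 25 (.n 16 (.f 6164) (.n 12 (.n 13 (.n 22 (.f 6172) (.n 18 (.n 19 (.n 15 (.n 8 (.f 13578) (.n 9 (.n 20 (.f 9995) (.f 1675)) (.k 6357576))) (.n 20 (.f 1698) (.k 6653008))) (.k 8423000)) (.k 8390232))) (.k 8422480)) (.k 8389712))) (.n 10 (.f 21252) (.k 8782408))) (.k 10487904)) (.k 6293600)) (.k 4196448))) (.n 2 (.n 5 (.n 24 (.n 1 (.n 12 (.f 4368) (.n 13 (.n 16 (.n 17 (.n 11 (.f 17029) (.n 8 (.n 15 (.f 13322) (.n 20 (.f 18050) (.k 6653008))) (.k 10551880))) (.k 10486864)) (.k 8389712)) (.k 2098256))) (.n 6 (.f 21024) (.k 2392128))) (.k 8781888)) (.k 10616896)) (.k 8454208)))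

theorem oD0 : chk PD 96747 [] tD0 = true := by decide +kernel

/-- a tree -/
def tD1 : Tr :=
  (.n 15 (.n 20 (.n 26 (.n 2 (.f 22274) (.n 1 (.n 8 (.f 22730) (.n 6 (.n 9 (.n 13 (.n 10 (.f 17025) (.n 25 (.f 13057) (.k 8782408))) (.k 4522568)) (.k 6357576)) (.k 4194888))) (.k 4227136))) (.n 16 (.n 27 (.n 3 (.f 21763) (.n 1 (.n 9 (.f 22667) (.n 6 (.n 8 (.n 13 (.n 19 (.n 10 (.f 17089) (.f 17609)) (.k 6652488)) (.f 17498)) (.k 6357576)) (.k 6292040))) (.k 6324288))) (.k 6359136)) (.k 8782928))) (.n 19 (.n 22 (.n 23 (.n 9 (.f 22155) (.n 6 (.n 8 (.n 10 (.n 1 (.f 17089) (.n 3 (.n 4 (.n 27 (.f 21763) (.n 24 (.n 25 (.f 6340) (.n 26 (.f 10308) (.k 6359136))) (.k 6293600))) (.k 8421440)) (.k 6324288))) (.n 25 (.f 10329) (.k 8782408))) (.k 6357576)) (.k 6292040))) (.n 33 (.f 19155) (.k 10913368))) (.k 8455768)) (.k 4228696))) (.n 13 (.n 16 (.n 20 (.n 17 (.n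 8 (.f 21706) (.n 6 (.n 9 (.n 10 (.n 1 (.f 17025) (.n 2 (.n 4 (.n 26 (.f 22274) (.n 24 (.n 25 (.f 6276) (.n 27 (.f 14404) (.k 6359136))) (.k 4196448))) (.k 8421440)) (.k 4227136))) (.n 25 (.f 14417) (.k 8782408))) (.k 6357576)) (.k 4194888))) (.n 32 (.f 19098) (.k 10912848))) (.k 6653008)) (.k 8488016)) (.k 6325328)))

theorem oD1 : chk PD 228027 [] tD1 = true := by decide +kernel

theorem okD : ∀ m ∈ famM 0, ∃ tr, chk PD m [] tr = true := by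
  intro m hm
  simp only [famM, List.mem_cons, List.not_mem_nil, or_false] at hm
  rcases hm with rfl | rfl
  exacts [⟨_, oD0⟩, ⟨_, oD1⟩]

/-- a pattern -/
def PZ : Pt := ⟨4, [(0, 1, 2, 1), (0, 1, 3, 1), (0, 2, 3, 1), (1, 2, 3, 0)], [(1, 0, 0), (1, 2, 0), (1, 3, 0)]⟩

/-- a tree -/
def tZ0 : Tr :=
  (.n 13 (.n 8 (.n 9 (.n 15 (.n 12 (.f 1553) (.n 16 (.f 2257) (.k 8389712))) (.f 1163)) (.n 6 (.n 10 (.f 2058) (.k 8487496)) (.k 6292040))) (.n 6 (.n 9 (.n 10 (.f 2059) (.k 8454728)) (.k 6357576)) (.k 4194888))) (.n 12 (.n 16 (.n 17 (.f 2832) (.k 10519632)) (.k 8422480)) (.k 2098256)))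

theorem oZ0 : chk PZ 96747 [] tZ0 = true := by decide +kernel

/-- a tree -/
def tZ1 : Tr :=
  (.n 4 (.n 1 (.n 5 (.f 2628) (.n 2 (.n 3 (.f 1665) (.k 10584128)) (.k 10551360))) (.n 2 (.n 3 (.f 1668) (.k 6324288)) (.k 4227136))) (.n 1 (.n 2 (.n 3 (.f 1665) (.k 8486976)) (.k 8454208)) (.k 8421440)))

theorem oZ1 : chk PZ 228027 [] tZ1 = true := by decide +kernel

theorem okZ : ∀ m ∈ famM 0, ∃ tr, chk PZ m [] tr = true := by
  intro m hm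
  simp only [famM, List.mem_cons, List.not_mem_nil, or_false] at hm
  rcases hm with rfl | rfl
  exacts [⟨_, oZ0⟩, ⟨_, oZ1⟩]

end Pool.Agent.Y47.BU
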