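import Pool.Agent.Y47.BU.Ord
import Pool.Agent.TH773.ST.Hyp

/-! Trees for five families of order-size pairs (generated data, checked by the kernel). -/

set_option autoImplicit false
set_option maxRecDepth 100000
set_option maxHeartbeats 4000000

namespace Pool.Agent.Y47.BU
open Pool.Agent.TH773.ST

/-- a tree -/
def tOA0 : Tr :=
  (.n 1 (.n 13 (.n 15 (.n 12 (.f 6324243) (.n 2 (.n 4 (.f 8454659) (.n 5 (.f 10551811) (.k
  10616896))) (.k 4522048))) (.n 12 (.n 16 (.f 8421395) (.k 8488016)) (.k 6362112))) (.n 12 (.n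
  2 (.f 4522499) (.n 3 (.n 4 (.f 8487427) (.n 5 (.f 10584579) (.k 10616896))) (.k 6357056))) (.k
  4522496))) (.n 4 (.n 6 (.n 24 (.n 25 (.f 2101283) (.n 10 (.n 11 (.f 10616843) (.n 8 (.n 9 (.f
  8487947) (.k 10584648)) (.k 10551880))) (.k 8782408))) (.n 25 (.n 10 (.f 8781835) (.n 8 (.n 9
  (.f 6357003) (.k 8487496)) (.k 8454728))) (.k 8782336))) (.k 2392128)) (.k 8421440)))

theorem oOA0 : ckS 2 5 120663 4 [] tOA0 = true := by decide +kernel

/-- a tree -/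
def tOA1 : Tr :=
  (.n 24 (.n 30 (.n 31 (.n 34 (.f 8421419) (.n 29 (.n 26 (.f 10551331) (.n 27 (.f 10584099) (.k
  8783376))) (.k 10913888))) (.n 32 (.n 34 (.f 8454187) (.k 10913800)) (.k 10912776))) (.n 5 (.n
  34 (.n 29 (.f 10911779) (.n 4 (.f 10622979) (.n 1 (.n 2 (.f 10551811) (.k 8454208)) (.k
  8421440)))) (.k 10913792)) (.k 10911808))) (.n 25 (.n 26 (.n 27 (.n 29 (.f 677446180) (.k
  10622976)) (.k 8783360)) (.k 8782848)) (.k 8782336)))

theorem oOA1 : ckS 2 5 228027 4 [] tOA1 = true := by decide +kernel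

theorem okOA : ∀ m ∈ famM 2, ∃ tr, ckS 2 5 m 4 [] tr = true := by
  intro m hm
  simp only [famM, List.mem_cons, List.not_mem_nil, or_false] at hm
  rcases hm with rfl | rfl
  exacts [⟨_, oOA0⟩, ⟨_, oOA1⟩]

/-- a tree -/
def tOB0 : Tr :=
  (.n 8 (.n 9 (.n 1 (.n 11 (.n 10 (.f 10618379) (.n 6 (.n 2 (.f 4231683) (.n 3 (.f 6328835) (.k
  6357056))) (.k 8425984))) (.n 6 (.n 2 (.f 4231683) (.n 3 (.f 6328835) (.k 6357056))) (.k
  10523136))) (.n 2 (.n 3 (.n 4 (.n 5 (.f 679576580) (.k 10518592)) (.k 8421440)) (.k 6324288))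
  (.k 4227136))) (.n 10 (.n 11 (.f 10617867) (.k 10584648)) (.k 8487496))) (.n 6 (.n 10 (.n 11
  (.n 31 (.n 30 (.f 10911755) (.n 5 (.n 1 (.f 10523139) (.n 2 (.n 3 (.n 4 (.f 679576580) (.k
  8421440)) (.k 6324288)) (.k 4227136))) (.k 10911808))) (.n 30 (.n 32 (.n 33 (.n 34 (.f
  543227948) (.n 29 (.n 25 (.n 24 (.f 8781835) (.n 4 (.n 1 (.f 8425987) (.n 2 (.n 3 (.n 5 (.f
  679576580) (.k 10518592)) (.k 6324288)) (.k 4227136))) (.k 8781888))) (.f 698488844)) (.k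
  10913888))) (.k 10913288)) (.k 10912776)) (.k 10912256))) (.k 10551880)) (.k 8454728)) (.k
  4231680)))

theorem oOB0 : ckS 2 6 120663 4 [] tOB0 = true := by decide +kernel

/-- a tree -/
def tOB1 : Tr :=
  (.n 4 (.n 24 (.n 30 (.n 5 (.n 29 (.f 10622979) (.n 34 (.f 10913795) (.k 10913888))) (.n 2 (.n 3
  (.n 26 (.f 8782851) (.n 27 (.f 8783363) (.k 8783376))) (.k 10584128)) (.k 10551360))) (.n 5
  (.n 29 (.f 10622979) (.n 25 (.n 1 (.f 8782339) (.n 2 (.n 3 (.f 10585091) (.k 6324288)) (.k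
  4227136))) (.k 10622984))) (.k 10911808))) (.n 25 (.n 26 (.n 27 (.n 29 (.n 22 (.n 20 (.f
  8782875) (.n 15 (.n 16 (.f 8783379) (.n 12 (.n 19 (.n 23 (.n 17 (.n 13 (.f 675611172) (.n 8
  (.n 10 (.n 11 (.f 10622987) (.n 18 (.f 677740564) (.n 3 (.n 2 (.n 5 (.f 10585091) (.n 30 (.n
  31 (.n 32 (.f 10911763) (.n 33 (.f 10912283) (.f 698455572))) (.k 10912328)) (.k 10911808)))
  (.f 425725972)) (.k 6651968)))) (.f 289444388)) (.k 4522568))) (.n 13 (.n 32 (.n 34 (.n 31 (.f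
  10912291) (.n 11 (.n 9 (.f 10589707) (.n 6 (.n 8 (.f 4521995) (.k 6357576)) (.k 6328832))) (.k
  10912328))) (.f 698422308)) (.k 10912848)) (.k 10556424))) (.f 677741604)) (.k 6652936)) (.k
  8459264))) (.k 6653008))) (.n 18 (.n 23 (.n 19 (.f 677741092) (.n 9 (.n 10 (.n 11 (.f
  10622987) (.n 31 (.n 34 (.f 10912291) (.n 30 (.n 33 (.f 10911771) (.f 698455588)) (.k
  10913792))) (.k 10912328))) (.f 425759268)) (.k 6652488))) (.n 19 (.n 33 (.n 34 (.n 31 (.f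
  10912291) (.n 11 (.n 10 (.f 10622987) (.n 6 (.n 9 (.f 6651915) (.f 425759268)) (.k 8425984)))
  (.k 10912328))) (.f 698455588)) (.k 10913368)) (.k 10589704))) (.k 8492544))) (.k 10622976))
  (.k 8783360)) (.k 8782848)) (.k 8782336))) (.n 2 (.n 3 (.n 5 (.f 10585091) (.k 10616896)) (.k
  8486976)) (.k 8454208)))

theorem oOB1 : ckS 2 6 228027 4 [] tOB1 = true := by decide +kernel

theorem okOB : ∀ m ∈ famM 2, ∃ tr, ckS 2 6 m 4 [] tr = true := by
  intro m hm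
  simp only [famM, List.mem_cons, List.not_mem_nil, or_false] at hm
  rcases hm with rfl | rfl
  exacts [⟨_, oOB0⟩, ⟨_, oOB1⟩]

/-- a tree -/
def tOC0 : Tr :=
  (.n 1 (.n 6 (.n 25 (.n 10 (.n 4 (.f 539529732) (.n 24 (.f 579207180) (.k 8781888))) (.n 8 (.n 2
  (.f 271094276) (.n 3 (.n 9 (.f 405312004) (.k 8487496)) (.k 6357056))) (.k 8454728))) (.n 10
  (.n 4 (.f 539529732) (.n 5 (.n 11 (.f 673747460) (.n 8 (.n 2 (.f 271094276) (.n 3 (.n 9 (.f
  405312004) (.k 10584648)) (.k 6357056))) (.k 10551880))) (.k 10616896))) (.k 8782408))) (.n 8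
  (.n 9 (.n 10 (.n 11 (.n 31 (.n 32 (.f 715555852) (.n 33 (.f 715556364) (.k 10913296))) (.n 34
  (.f 715556876) (.n 29 (.n 25 (.n 26 (.f 679871500) (.n 27 (.f 679872012) (.k 8783376))) (.f
  680138764)) (.k 10913888)))) (.k 10523136)) (.k 8425984)) (.k 6328832)) (.k 4231680))) (.n 2
  (.n 3 (.n 4 (.n 5 (.n 24 (.n 29 (.f 680138756) (.n 26 (.f 43528881157) (.n 27 (.f 43528881669)
  (.k 8783376)))) (.n 26 (.f 579208196) (.n 27 (.f 579208708) (.k 8783376)))) (.k 10518592)) (.k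
  8421440)) (.k 6324288)) (.k 4227136)))

theorem oOC0 : ckS 3 12 120663 5 [] tOC0 = true := by decide +kernel

/-- a tree -/
def tOC1 : Tr :=
  (.n 4 (.n 24 (.n 12 (.n 2 (.n 16 (.f 541660164) (.n 26 (.f 579208196) (.k 8782928))) (.n 1 (.n 5
  (.n 25 (.f 579207684) (.n 29 (.f 680138756) (.k 10622984))) (.k 10551360)) (.k 4227136))) (.n
  2 (.n 13 (.n 16 (.n 17 (.n 26 (.f 579208196) (.n 25 (.f 579207700) (.n 29 (.f 680138772) (.k
  10622984)))) (.k 10556416)) (.k 8459264)) (.k 4522496)) (.k 4522048))) (.n 25 (.n 26 (.n 27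
  (.n 29 (.n 22 (.n 20 (.f 579208220) (.n 15 (.n 16 (.f 579208724) (.n 13 (.f 306512420) (.n 17
  (.f 677450788) (.k 10556424)))) (.k 6653008))) (.n 19 (.f 442860068) (.n 23 (.f 678008356) (.k
  10589704)))) (.k 10622976)) (.k 8783360)) (.k 8782848)) (.k 8782336))) (.n 1 (.n 2 (.n 3 (.n 5
  (.n 18 (.n 19 (.f 442860036) (.n 23 (.f 678008324) (.k 10589704))) (.n 20 (.f 442860548) (.n
  15 (.n 12 (.n 13 (.f 306512388) (.n 17 (.f 677450756) (.k 10556424))) (.f 407442436)) (.k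
  6653008)))) (.k 10616896)) (.k 8486976)) (.k 8454208)) (.k 8421440)))

theorem oOC1 : ckS 3 12 228027 5 [] tOC1 = true := by decide +kernel

theorem okOC : ∀ m ∈ famM 2, ∃ tr, ckS 3 12 m 5 [] tr = true := by
  intro m hm
  simp only [famM, List.mem_cons, List.not_mem_nil, or_false] at hm
  rcases hm with rfl | rfl
  exacts [⟨_, oOC0⟩, ⟨_, oOC1⟩]

/-- a tree -/
def tOD0 : Tr :=
  (.n 1 (.n 6 (.n 13 (.n 8 (.n 2 (.n 12 (.n 15 (.n 3 (.f 404754452) (.f 25820663829)) (.n 9 (.f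
  26076315661) (.n 10 (.n 4 (.f 541102596) (.f 34410598413)) (.k 8487496)))) (.f 20707606541))
  (.f 17230729229)) (.n 2 (.f 17367077381) (.n 3 (.n 9 (.n 10 (.n 4 (.f 543199748) (.f
  34410598413)) (.k 8454728)) (.f 25957011973)) (.k 6357056)))) (.n 8 (.n 2 (.n 12 (.f
  20707607045) (.k 4522496)) (.f 17230729229)) (.k 4522568))) (.n 8 (.n 9 (.n 10 (.n 11 (.f
  679576588) (.k 10523136)) (.k 8425984)) (.k 6328832)) (.k 4231680))) (.n 2 (.n 3 (.n 4 (.n 5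
  (.n 6 (.n 18 (.n 19 (.f 8640794653) (.n 9 (.n 20 (.n 8 (.f 425787404) (.n 13 (.n 12 (.f
  8640794645) (.n 15 (.f 20707606557) (.k 6362112))) (.k 4522568))) (.f 29433889797)) (.k
  6652488))) (.n 19 (.n 9 (.f 29433888781) (.n 10 (.n 11 (.n 20 (.n 8 (.n 22 (.f 541102620) (.n
  23 (.f 675320348) (.f 43493463557))) (.n 13 (.n 12 (.f 8640794645) (.n 15 (.n 16 (.n 17 (.f
  679576084) (.n 32 (.n 30 (.n 31 (.f 17367077421) (.n 34 (.f 698482700) (.f 46886455301))) (.f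
  44699292677)) (.k 10912848))) (.n 26 (.n 24 (.n 25 (.f 17367077413) (.n 29 (.f 679870476) (.f
  43545925637))) (.f 35975140357)) (.k 8782928))) (.k 6362112))) (.k 4522568))) (.k 6652928))
  (.k 10584648)) (.k 8487496))) (.k 6652416))) (.k 2392128)) (.k 10518592)) (.k 8421440)) (.k
  6324288)) (.k 4227136)))

theorem oOD0 : ckS 4 14 120663 5 [] tOD0 = true := by decide +kernel

/-- a tree -/
def tOD1 : Tr :=
  (.n 24 (.n 4 (.n 30 (.n 5 (.n 29 (.n 34 (.n 31 (.n 25 (.f 562069548) (.f 38160171565)) (.n 1 (.f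
  45795639813) (.n 2 (.n 26 (.f 675287076) (.f 38160172037)) (.k 4227136)))) (.f 46886455301))
  (.f 43545925637)) (.n 2 (.n 3 (.n 26 (.n 27 (.f 562136068) (.f 38160172549)) (.f 38160172037))
  (.k 10584128)) (.k 10551360))) (.n 5 (.n 29 (.n 34 (.f 46886453285) (.k 10913792)) (.f
  43545925637)) (.k 10911808))) (.n 1 (.n 2 (.n 3 (.n 5 (.n 30 (.n 32 (.n 31 (.n 33 (.n 34 (.f
  34494484525) (.n 29 (.n 26 (.f 698417188) (.n 27 (.f 698449956) (.k 8783376))) (.k 10913888)))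
  (.f 46886454789)) (.f 45795574277)) (.f 46886454277)) (.n 32 (.n 31 (.f 698417668) (.n 11 (.n
  6 (.n 8 (.n 9 (.f 406884868) (.f 43354984965)) (.f 43220767237)) (.f 45795545605)) (.k
  10912328))) (.k 10912768))) (.k 10616896)) (.k 8486976)) (.k 8454208)) (.k 8421440))) (.n 4
  (.n 25 (.n 26 (.n 27 (.n 29 (.n 10 (.n 6 (.f 38160171021) (.n 1 (.n 11 (.n 5 (.f 679514628)
  (.n 30 (.n 34 (.f 38160171053) (.n 31 (.f 46886455309) (.k 10913800))) (.k 10911808))) (.f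
  43136881189)) (.k 2392128))) (.n 11 (.n 8 (.n 9 (.f 43356557861) (.f 26040898085)) (.n 9 (.f
  26040898085) (.k 6357576))) (.k 10617416))) (.k 10622976)) (.k 8783360)) (.k 8782848)) (.k
  8782336)) (.k 8781888)))

theorem oOD1 : ckS 4 14 228027 5 [] tOD1 = true := by decide +kernel

theorem okOD : ∀ m ∈ famM 2, ∃ tr, ckS 4 14 m 5 [] tr = true := by
  intro m hm
  simp only [famM, List.mem_cons, List.not_mem_nil, or_false] at hm
  rcases hm with rfl | rfl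
  exacts [⟨_, oOD0⟩, ⟨_, oOD1⟩]

/-- a tree -/
def tOF0 : Tr :=
  (.n 6 (.n 1 (.n 13 (.n 25 (.n 8 (.n 9 (.n 10 (.f 543227916) (.n 24 (.n 26 (.f 270827556) (.n 16
  (.f 562074132) (.k 8782928))) (.n 4 (.f 562074116) (.k 8781888)))) (.n 10 (.n 19 (.n 27 (.n 22
  (.n 18 (.f 539263004) (.n 3 (.f 425759236) (.k 6651968))) (.f 425759268)) (.n 22 (.n 18 (.f
  539263004) (.n 3 (.f 425759236) (.k 6651968))) (.k 8783448))) (.k 6652488)) (.k 8487496))) (.n
  10 (.n 26 (.n 16 (.n 12 (.f 539262996) (.n 2 (.f 289444356) (.k 4522048))) (.f 289444388)) (.n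
  16 (.n 12 (.f 539262996) (.n 2 (.f 289444356) (.k 4522048))) (.k 8782928))) (.k 8454728))) (.n
  10 (.n 24 (.n 4 (.n 26 (.n 27 (.n 8 (.n 9 (.f 562136076) (.n 11 (.n 16 (.n 19 (.n 22 (.f
  562074140) (.n 20 (.n 15 (.n 12 (.n 18 (.n 23 (.f 673480732) (.n 33 (.n 31 (.f 425759276) (.n
  30 (.n 5 (.n 32 (.n 3 (.n 2 (.f 44700860933) (.f 404754452)) (.n 2 (.f 270536732) (.k
  6357056))) (.k 10912776)) (.f 698355724)) (.k 10912256))) (.k 10913368))) (.n 3 (.f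
  35977003525) (.k 6651968))) (.n 2 (.n 3 (.f 35976708613) (.n 18 (.f 289411100) (.k 6651968)))
  (.k 4522048))) (.f 425792548)) (.k 8492560))) (.k 6652488)) (.f 562107404)) (.k 10584648)))
  (.n 11 (.n 16 (.f 562074132) (.n 15 (.n 9 (.n 12 (.n 17 (.f 673480724) (.n 32 (.n 31 (.f
  289444396) (.n 30 (.n 5 (.n 33 (.n 2 (.n 3 (.f 44700860933) (.n 18 (.n 19 (.n 20 (.f
  270536732) (.f 425725972)) (.f 425725964)) (.k 6651968))) (.n 3 (.f 404754452) (.k 6357056)))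
  (.k 10913288)) (.f 698355724)) (.k 10912256))) (.k 10912848))) (.n 2 (.f 35974873605) (.k
  4522048))) (.n 19 (.n 22 (.f 562074140) (.n 20 (.n 12 (.n 17 (.f 673480724) (.n 18 (.n 32 (.n
  31 (.f 289444396) (.n 30 (.n 5 (.n 33 (.n 3 (.n 2 (.f 44700860933) (.f 404754452)) (.n 2 (.f
  270536732) (.k 6357056))) (.k 10913288)) (.f 698355724)) (.k 10912256))) (.k 10912848)) (.f
  27248590869))) (.n 2 (.f 35974873605) (.k 4522048))) (.k 8492560))) (.k 6652488))) (.k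
  8488016))) (.k 10551880))) (.k 8783368)) (.k 8782856)) (.f 562040844)) (.k 8782336)) (.k
  8782408))) (.n 8 (.n 12 (.n 2 (.n 16 (.n 10 (.n 9 (.f 543227916) (.n 19 (.n 20 (.n 18 (.n 3
  (.n 22 (.f 539263004) (.n 27 (.n 25 (.f 425759268) (.n 24 (.n 4 (.n 26 (.f 35976708613) (.k
  8782856)) (.f 562040844)) (.k 8782336))) (.k 8783448))) (.f 270536732)) (.n 3 (.f 425759236)
  (.k 6651968))) (.n 18 (.n 22 (.f 539263004) (.k 8492560)) (.k 6652928))) (.k 6652488))) (.n 9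
  (.n 25 (.n 26 (.f 289444388) (.n 27 (.n 24 (.f 405045284) (.n 4 (.f 35974873605) (.k
  8781888))) (.k 8783376))) (.k 8782408)) (.k 8487496))) (.k 8459272)) (.f 289411084)) (.k
  4522496)) (.k 4522568))) (.n 2 (.n 3 (.n 4 (.n 5 (.n 8 (.n 9 (.f 406851596) (.n 10 (.n 11 (.f
  679481356) (.k 10584648)) (.k 8487496))) (.n 10 (.n 11 (.f 679481356) (.k 10551880)) (.k
  8454728))) (.k 10518592)) (.k 8421440)) (.k 6324288)) (.k 4227136))) (.n 1 (.n 8 (.n 9 (.n 10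
  (.n 11 (.n 25 (.n 24 (.n 4 (.n 2 (.f 541102596) (.n 3 (.f 543199748) (.k 6357056))) (.f
  153096228)) (.n 4 (.n 2 (.f 541102596) (.n 3 (.f 543199748) (.k 6357056))) (.k 8781888))) (.n
  24 (.n 4 (.f 562074116) (.n 5 (.n 2 (.f 675320324) (.n 3 (.f 677417476) (.k 6357056))) (.k
  10616896))) (.k 8782336))) (.k 10523136)) (.k 8425984)) (.k 6328832)) (.k 4231680)) (.k
  2392128)))

theorem oOF0 : ckS 5 18 120663 5 [] tOF0 = true := by decide +kernel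

/-- a tree -/
def tOF1 : Tr :=
  (.n 4 (.n 24 (.n 6 (.n 1 (.n 5 (.n 2 (.f 679543300) (.n 12 (.n 8 (.n 13 (.n 16 (.f 538972180)
  (.n 26 (.f 289411108) (.k 8782928))) (.f 289411084)) (.n 9 (.n 13 (.n 15 (.f 405045268) (.n 16
  (.f 538972180) (.k 8488016))) (.k 4522568)) (.k 6357576))) (.k 4522048))) (.n 2 (.n 3 (.f
  543228420) (.k 10584128)) (.k 10551360))) (.n 2 (.n 3 (.n 12 (.n 8 (.n 10 (.f 541069324) (.n
  25 (.f 153096228) (.k 8782408))) (.n 13 (.f 153096212) (.k 4522568))) (.n 13 (.n 8 (.f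
  289411084) (.n 9 (.n 10 (.f 543166476) (.n 25 (.f 153096228) (.k 8782408))) (.k 6357576))) (.k
  4522496))) (.k 6324288)) (.k 4227136))) (.n 1 (.n 8 (.n 10 (.n 25 (.n 3 (.n 2 (.f 543228420)
  (.n 5 (.f 679576068) (.k 10551360))) (.n 5 (.n 2 (.f 679543300) (.n 12 (.n 13 (.f 153096212)
  (.n 17 (.n 16 (.f 679481364) (.n 26 (.f 18524438565) (.k 8782928))) (.k 10556424))) (.k
  4522048))) (.k 10584128))) (.f 562074116)) (.k 8425984)) (.k 4231680)) (.k 2392128))) (.n 25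
  (.n 26 (.n 27 (.n 29 (.n 1 (.n 5 (.f 679870980) (.n 2 (.n 3 (.f 562136068) (.k 10584128)) (.k
  10551360))) (.n 2 (.n 3 (.f 562136068) (.k 6324288)) (.k 4227136))) (.k 10622976)) (.k
  8783360)) (.k 8782848)) (.k 8782336))) (.n 1 (.n 2 (.n 3 (.n 5 (.n 24 (.n 6 (.n 12 (.n 18 (.n
  8 (.n 13 (.n 9 (.n 11 (.f 677445644) (.n 10 (.n 25 (.n 26 (.f 270536740) (.n 16 (.f 562040852)
  (.k 8782928))) (.f 562040844)) (.k 10617416))) (.n 19 (.n 20 (.f 270827548) (.n 15 (.f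
  425759252) (.k 6653008))) (.k 6652488))) (.n 15 (.n 17 (.n 11 (.f 675610636) (.n 10 (.n 16 (.f
  43492839445) (.n 25 (.n 26 (.f 270536740) (.k 8782928)) (.f 562040844))) (.k 10617416))) (.k
  10556424)) (.k 6362120))) (.n 9 (.n 11 (.n 13 (.n 15 (.f 405045268) (.n 20 (.n 19 (.f
  289444380) (.n 23 (.f 677740556) (.k 10589704))) (.k 6653008))) (.k 4522568)) (.k 10551880))
  (.k 6357576))) (.n 19 (.n 23 (.f 677741060) (.k 10589696)) (.k 6652416))) (.n 13 (.n 17 (.f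
  675611140) (.k 10556416)) (.k 4522496))) (.n 8 (.n 9 (.f 406884868) (.k 6328832)) (.k
  4231680))) (.k 8781888)) (.k 10616896)) (.k 8486976)) (.k 8454208)) (.k 8421440)))

theorem oOF1 : ckS 5 18 228027 5 [] tOF1 = true := by decide +kernel

theorem okOF : ∀ m ∈ famM 2, ∃ tr, ckS 5 18 m 5 [] tr = true := by
  intro m hm
  simp only [famM, List.mem_cons, List.not_mem_nil, or_false] at hm
  rcases hm with rfl | rfl
  exacts [⟨_, oOF0⟩, ⟨_, oOF1⟩]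

end Pool.Agent.Y47.BU
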