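import Pool.Agent.Y47.BU.OLin

/-! Eighteen order-size pairs which do not occur in Turán's construction. -/

set_option autoImplicit false
set_option maxRecDepth 100000
set_option maxHeartbeats 4000000

namespace Pool.Agent.Y47.BU

/-- eighteen pairs -/
def more : List (ℕ × ℕ) := [(8, 20), (8, 26), (8, 27), (8, 28), (9, 24), (9, 25), (9, 34),
  (9, 36), (9, 37), (9, 39), (10, 30), (10, 33), (10, 35), (10, 40), (10, 41),
  (10, 45), (10, 48), (10, 53)]

/-- the number of edges, twice, in natural numbers -/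
def F2N (x y z : ℕ) : ℕ := x * (x - 1) * y + y * (y - 1) * z + z * (z - 1) * x + 2 * (x * y * z)

theorem F2_cast (x y z : ℕ) : F2 (x : ℤ) y z = (F2N x y z : ℤ) := by
  have e : ∀ a : ℕ, ((a * (a - 1) : ℕ) : ℤ) = (a : ℤ) * (a - 1) := by
    intro a
    rcases a with _ | a
    · simp
    · push_cast
      simp
  unfold F2 F2N
  push_cast [← e]
  ring

theorem more_tab : ∀ p ∈ more, ∀ x ∈ List.range 11, ∀ y ∈ List.range 11,
    x + y ≤ p.1 → F2N x y (p.1 - x - y) ≠ 2 * p.2 := by decide +kernel

theorem more_le : ∀ p ∈ more, p.1 ≤ 10 := by decide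

theorem more_F2 {p : ℕ × ℕ} (hp : p ∈ more) (x y z : ℕ) (hk : x + y + z = p.1) :
    F2 (x : ℤ) y z ≠ 2 * p.2 := by
  have h10 := more_le p hp
  have h := more_tab p hp x (List.mem_range.mpr (by omega)) y (List.mem_range.mpr (by omega))
    (by omega)
  have e : p.1 - x - y = z := by omega
  rw [e] at h
  rw [F2_cast]
  intro h2
  exact h (by exact_mod_cast h2)

end Pool.Agent.Y47.BU
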