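import Pool.Agent.Y47.BU.Tree
import Pool.Agent.TH773.ST.Hyp

/-! A pattern with twelve triples and its trees (generated data, checked by the kernel). -/

set_option autoImplicit false
set_option maxRecDepth 100000
set_option maxHeartbeats 4000000

namespace Pool.Agent.Y47.BU
open Pool.Agent.TH773.ST

/-- a pattern -/
def PT : Pt := ⟨6, [(0, 1, 2, 0), (0, 1, 3, 0), (0, 2, 3, 0), (1, 2, 3, 0), (0, 1, 4, 0), (0, 2, 4, 1), (1, 2, 4, 1), (0, 3, 4, 1), (1, 3, 4, 1), (2, 3, 4, 1), (0, 1, 5, 0), (0, 2, 5, 1), (1, 2, 5, 1), (0, 3, 5, 1), (1, 3, 5, 1), (2, 3, 5, 1), (0, 4, 5, 1), (1, 4, 5, 1), (2, 4, 5, 0), (3, 4, 5, 0)], []⟩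

/-- a tree -/
def tT0 : Tr :=
  (.n 8 (.n 9 (.n 6 (.n 10 (.f 108553) (.n 11 (.f 109065) (.f 38572))) (.n 1 (.n 13 (.n 19 (.n 2 (.n 3 (.f 38528) (.n 18 (.f 603) (.k 6651968))) (.n 12 (.f 594) (.k 4522048))) (.n 18 (.n 3 (.f 38592) (.n 4 (.n 5 (.n 22 (.n 23 (.f 2843) (.k 10520152)) (.k 8423000)) (.k 10584128)) (.k 8486976))) (.k 2098776))) (.n 12 (.n 2 (.f 38016) (.n 4 (.n 5 (.n 16 (.n 17 (.f 2834) (.k 10519632)) (.k 8422480)) (.k 10551360)) (.k 8454208))) (.k 2098256))) (.k 2392128))) (.n 6 (.n 10 (.n 19 (.n 13 (.n 18 (.n 20 (.f 37915) (.n 15 (.f 111186) (.k 6653008))) (.n 22 (.n 20 (.f 39067) (.n 15 (.f 111186) (.k 6653008))) (.k 8390232))) (.n 12 (.n 16 (.f 75785) (.k 8422480)) (.k 2098256))) (.k 6652488)) (.k 8487496)) (.k 6292040))) (.n 6 (.n 9 (.n 10 (.n 13 (.n 19 (.n 12 (.n 15 (.f 38418) (.n 20 (.f 74331) (.k 6653008))) (.n 16 (.n 15 (.f 39122) (.n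 20 (.f 74331) (.k 6653008))) (.k 8389712))) (.n 18 (.n 22 (.f 112649) (.k 8423000)) (.k 2098776))) (.k 4522568)) (.k 8454728)) (.k 6357576)) (.k 4194888)))

theorem oT0 : chk PT 96747 [] tT0 = true := by decide +kernel

/-- a tree -/
def tT1 : Tr :=
  (.n 4 (.n 5 (.n 2 (.n 1 (.f 181312) (.n 6 (.n 24 (.n 30 (.n 10 (.n 11 (.f 2825) (.n 31 (.f 36909) (.k 10912328))) (.n 25 (.f 36900) (.k 8782408))) (.n 31 (.n 11 (.f 2889) (.n 8 (.n 9 (.n 32 (.n 33 (.f 38573) (.k 6294120)) (.k 4196968)) (.k 10584648)) (.k 10551880))) (.k 2099816))) (.n 25 (.n 10 (.f 2313) (.n 8 (.n 9 (.n 26 (.n 27 (.f 38564) (.k 6293600)) (.k 4196448)) (.k 8487496)) (.k 8454728))) (.k 2099296))) (.k 2392128))) (.n 3 (.n 1 (.f 181824) (.n 6 (.n 24 (.n 30 (.n 10 (.n 11 (.f 2825) (.n 31 (.f 36909) (.k 10912328))) (.n 25 (.f 36900) (.k 8782408))) (.n 31 (.n 11 (.f 2889) (.n 8 (.n 9 (.n 32 (.n 33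 (.f 38573) (.k 6294120)) (.k 4196968)) (.k 10584648)) (.k 10551880))) (.k 2099816))) (.n 25 (.n 10 (.f 2313) (.n 8 (.n 9 (.n 26 (.n 27 (.f 38564) (.k 6293600)) (.k 4196448)) (.k 8487496)) (.k 8454728))) (.k 2099296))) (.k 2392128))) (.k 6357056))) (.n 1 (.n 2 (.n 3 (.n 30 (.n 24 (.n 31 (.n 34 (.f 2157) (.n 29 (.f 184356) (.k 10913888))) (.n 32 (.n 33 (.f 1709) (.k 6326888)) (.k 4229736))) (.n 25 (.n 26 (.f 148544) (.k 4196448)) (.k 2099296))) (.k 10911808)) (.k 10584128)) (.k 10551360)) (.k 10518592))) (.n 1 (.n 2 (.n 3 (.n 5 (.n 24 (.n 30 (.n 25 (.n 29 (.f 2660) (.n 34 (.f 147501) (.k 10913888))) (.n 26 (.n 27 (.f 1700) (.k 6326368)) (.k 4229216))) (.n 31 (.n 32 (.f 185408) (.k 4196968)) (.k 2099816))) (.k 8781888)) (.k 10616896)) (.k 8486976)) (.k 8454208)) (.k 8421440)))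

theorem oT1 : chk PT 97788 [] tT1 = true := by decide +kernel

theorem okT : ∀ m ∈ famM 1, ∃ tr, chk PT m [] tr = true := by
  intro m hm
  simp only [famM, List.mem_cons, List.not_mem_nil, or_false] at hm
  rcases hm with rfl | rfl
  exacts [⟨_, oT0⟩, ⟨_, oT1⟩]

end Pool.Agent.Y47.BU
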