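import Pool.Agent.Y47.BU.UOrd
import Pool.Agent.TH773.ST.Hyp

/-! Trees for three types of homogeneous structures (generated data, checked by the kernel). -/

set_option autoImplicit false
set_option maxRecDepth 100000
set_option maxHeartbeats 4000000

namespace Pool.Agent.Y47.BU
open Pool.Agent.TH773.ST

/-- a tree -/
def tU0 : Tr :=
  (.n 8 (.n 13 (.n 2 (.n 24 (.n 12 (.n 1 (.n 6 (.f 1088) (.f 1033)) (.n 6 (.f 1089) (.k 2392128)))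
  (.n 16 (.n 4 (.n 26 (.f 2065) (.f 162)) (.n 26 (.f 2066) (.n 25 (.n 10 (.f 673) (.f 1290)) (.k
  8782856)))) (.k 8459264))) (.n 4 (.n 26 (.n 12 (.n 16 (.f 1057) (.f 274)) (.n 16 (.n 10 (.n 25
  (.f 2184) (.f 1121)) (.n 25 (.f 1289) (.k 8782408))) (.k 8459264))) (.k 8782848)) (.k
  8781888))) (.n 1 (.n 12 (.n 6 (.f 641) (.f 1034)) (.k 4522048)) (.k 4227136))) (.n 12 (.n 16
  (.n 17 (.n 4 (.n 24 (.n 30 (.n 5 (.n 29 (.n 34 (.f 2816) (.f 297)) (.n 34 (.f 353) (.k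
  10913888))) (.n 2 (.n 26 (.f 2176) (.f 161)) (.k 10551360))) (.n 5 (.n 32 (.n 2 (.f 1065) (.f
  1066)) (.k 10912768)) (.k 10911808))) (.n 26 (.n 2 (.f 1057) (.f 1058)) (.k 8782848))) (.n 2
  (.n 24 (.n 26 (.f 1281) (.f 1282)) (.k 8781888)) (.k 8454208))) (.k 10556424)) (.k 8459272))
  (.k 4522496))) (.n 6 (.n 9 (.n 13 (.n 19 (.n 3 (.n 18 (.n 1 (.f 1600) (.f 1601)) (.n 1 (.f
  537) (.f 538))) (.n 1 (.n 18 (.f 705) (.k 6651968)) (.k 6324288))) (.n 18 (.n 22 (.n 3 (.n 1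
  (.f 89) (.n 2 (.n 12 (.f 1090) (.n 16 (.n 24 (.n 4 (.n 26 (.f 2065) (.f 162)) (.n 27 (.f 1793)
  (.f 1794))) (.n 4 (.n 27 (.f 1569) (.k 8783360)) (.k 8781888))) (.k 8459264))) (.k 4227136)))
  (.n 1 (.f 706) (.k 6324288))) (.k 8492552)) (.k 6652416))) (.k 4522568)) (.k 6357576)) (.k
  4231680)))

theorem oU0 : ckU 96747 [] tU0 = true := by decide +kernel

/-- a tree -/
def tU1 : Tr :=
  (.n 4 (.n 24 (.n 12 (.n 2 (.n 10 (.n 25 (.n 1 (.n 6 (.f 2112) (.f 2057)) (.n 6 (.f 2113) (.k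
  2392128))) (.n 26 (.n 16 (.f 2176) (.f 273)) (.k 8782856))) (.n 6 (.n 25 (.n 1 (.f 265) (.f
  2114)) (.k 8782408)) (.k 8425984))) (.n 10 (.n 25 (.n 1 (.n 6 (.f 2112) (.f 2057)) (.n 6 (.f
  2113) (.k 2392128))) (.n 26 (.n 16 (.f 2177) (.f 2178)) (.k 8782856))) (.n 6 (.n 25 (.n 1 (.f
  265) (.f 2114)) (.k 8782408)) (.k 8425984)))) (.n 2 (.n 16 (.n 26 (.f 2065) (.f 162)) (.k
  8459264)) (.k 4522048))) (.n 25 (.n 26 (.n 27 (.n 8 (.n 13 (.n 19 (.n 9 (.n 10 (.n 16 (.f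
  2184) (.f 785)) (.n 16 (.f 1289) (.n 12 (.n 2 (.f 274) (.n 3 (.n 22 (.f 1801) (.n 18 (.f 282)
  (.k 8492544))) (.k 6357056))) (.k 8459264)))) (.n 10 (.n 16 (.f 2184) (.f 785)) (.k 8487496)))
  (.n 9 (.n 20 (.n 15 (.f 1113) (.f 722)) (.k 6652936)) (.k 6652488))) (.n 16 (.n 10 (.f 2129)
  (.f 2130)) (.k 8459272))) (.n 10 (.n 13 (.n 16 (.f 2185) (.f 2186)) (.k 4522568)) (.k
  8454728))) (.k 8783360)) (.k 8782848)) (.k 8782336))) (.n 1 (.n 5 (.n 24 (.n 30 (.n 11 (.n 31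
  (.n 6 (.f 2624) (.f 2569)) (.n 6 (.f 105) (.f 106))) (.n 6 (.n 31 (.f 329) (.k 10912328)) (.k
  10523136))) (.n 31 (.n 32 (.n 11 (.n 6 (.f 553) (.n 10 (.n 25 (.f 2058) (.n 26 (.n 13 (.n 8
  (.n 16 (.f 1121) (.f 786)) (.n 17 (.f 2697) (.f 2698))) (.n 8 (.n 17 (.f 2641) (.k 10556424))
  (.k 4522568))) (.k 8782856))) (.k 8425984))) (.n 6 (.f 330) (.k 10523136))) (.k 10912768)) (.k
  10912256))) (.k 8781888)) (.k 10616896)) (.k 8421440)))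

theorem oU1 : ckU 97788 [] tU1 = true := by decide +kernel

theorem okU : ∀ m ∈ famM 1, ∃ tr, ckU m [] tr = true := by
  intro m hm
  simp only [famM, List.mem_cons, List.not_mem_nil, or_false] at hm
  rcases hm with rfl | rfl
  exacts [⟨_, oU0⟩, ⟨_, oU1⟩]

end Pool.Agent.Y47.BU
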