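import Pool.Agent.Y47.BU.UOrd

/-! Tables for two patterns with one excluded 3-graph. -/

set_option autoImplicit false
set_option maxRecDepth 100000
open Finset

namespace Pool.Agent.Y47.BU

/-- the edges of the pattern of the cone over a book -/
def bookA : Finset (Finset (Fin 4)) := {{0, 1, 2}, {0, 1, 3}, {0, 2, 3}}

theorem bookA_iff : ∀ a b c : Fin 4, ({a, b, c} : Finset (Fin 4)) ∈ bookA ↔
    ((a = 0 ∨ b = 0 ∨ c = 0) ∧ ((a = 2 ∨ b = 2 ∨ c = 2) ∨ (a = 3 ∨ b = 3 ∨ c = 3)) ∧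
      a ≠ b ∧ a ≠ c ∧ b ≠ c) := by decide +kernel

/-- a 3-graph with twelve edges -/
def twelve : Finset (Finset (Fin 6)) :=
  {{0, 2, 4}, {1, 2, 4}, {0, 3, 4}, {1, 3, 4}, {2, 3, 4}, {0, 2, 5}, {1, 2, 5}, {0, 3, 5},
    {1, 3, 5}, {2, 3, 5}, {0, 4, 5}, {1, 4, 5}}

/-- the classes of the vertices of the second pattern -/
def clT (x : Fin 3 × Fin 2) : Fin 6 :=
  if x.1 = 0 then (if x.2 = 0 then 2 else 3) else if x.1 = 1 then (if x.2 = 0 then 4 else 5)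
  else if x.2 = 0 then 0 else 1

theorem clT_inj : ∀ u v : Fin 3 × Fin 2, u ≠ v → clT u ≠ clT v := by
  decide +kernel

theorem clT_fits0 : ∀ a b c : Fin 3, ∀ x y z : Fin 2, (a, x) ≠ (b, y) → (a, x) ≠ (c, z) →
    (b, y) ≠ (c, z) → (patN 2 a.val b.val c.val = 1 ↔
      ({clT (a, x), clT (b, y), clT (c, z)} : Finset (Fin 6)) ∈ twelve) := by
  decide +kernel

theorem clT_fits (u v w : Fin 3 × Fin 2) (h1 : u ≠ v) (h2 : u ≠ w) (h3 : v ≠ w) :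
    (patN 2 u.1 v.1 w.1 = 1 ↔ ({clT u, clT v, clT w} : Finset (Fin 6)) ∈ twelve) :=
  clT_fits0 u.1 v.1 w.1 u.2 v.2 w.2 h1 h2 h3

theorem f2 (a : Fin 2) : a = 0 ∨ a = 1 := by
  fin_cases a <;> simp

end Pool.Agent.Y47.BU
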