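import Mathlib

/-! A set of `k`-tuples of positive density has many blow-ups. -/

set_option autoImplicit false
open Finset
open scoped Classical

namespace Pool.Agent.Y47.BU

variable {V : Type} [Fintype V]

/-- the families all of whose selections lie in `S` -/
noncomputable def Bl (k T : ℕ) (S : Finset (Fin k → V)) : Finset (Fin k → Fin T → V) :=
  univ.filter fun y => ∀ f : Fin k → Fin T, (fun i => y i (f i)) ∈ S

/-- `T` copies of the first coordinate -/
noncomputable def Sl (k T : ℕ) (S : Finset (Fin (k + 1) → V)) (v : Fin T → V) :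
    Finset (Fin k → V) :=
  univ.filter fun z => ∀ a, (Fin.cons (v a) z : Fin (k + 1) → V) ∈ S

theorem bl_succ (k T : ℕ) (S : Finset (Fin (k + 1) → V)) :
    ∑ v : Fin T → V, (Bl k T (Sl k T S v)).card ≤ (Bl (k + 1) T S).card := by
  rw [← card_sigma]
  refine card_le_card_of_injOn (fun q : (_ : Fin T → V) × (Fin k → Fin T → V) =>
    (Fin.cons q.1 q.2 : Fin (k + 1) → Fin T → V)) ?_ ?_
  · rintro ⟨v, y⟩ hq
    have h1 := (mem_sigma.mp (mem_coe.mp hq)).2
    have h2 := (mem_filter.mp h1).2
    refine mem_coe.mpr (mem_filter.mpr ⟨mem_univ _, fun f => ?_⟩)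
    have h3 := (mem_filter.mp (h2 fun i => f i.succ)).2 (f 0)
    convert h3 using 1
    funext i
    refine Fin.cases ?_ (fun j => ?_) i
    · simp
    · simp
  · rintro ⟨v, y⟩ - ⟨v', y'⟩ - h
    have h' : (Fin.cons v y : Fin (k + 1) → Fin T → V) = Fin.cons v' y' := h
    obtain ⟨h1, h2⟩ := Fin.cons_injective2 h'
    rw [h1, h2]

theorem sl_sum (k T : ℕ) (S : Finset (Fin (k + 1) → V)) :
    ∑ v : Fin T → V, (Sl k T S v).card = ∑ z : Fin k → V,
      (univ.filter fun x : V => (Fin.cons x z : Fin (k + 1) → V) ∈ S).card ^ T := by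
  unfold Sl
  simp only [card_filter]
  rw [sum_comm]
  refine sum_congr rfl fun z _ => ?_
  rw [← card_filter, ← card_filter]
  have h1 : (univ.filter fun v : Fin T → V => ∀ a, (Fin.cons (v a) z : Fin (k + 1) → V) ∈ S) =
      Fintype.piFinset fun _ : Fin T => univ.filter fun x : V =>
        (Fin.cons x z : Fin (k + 1) → V) ∈ S := by
    ext v
    simp [Fintype.mem_piFinset]
  rw [h1, Fintype.card_piFinset, prod_const, card_univ, Fintype.card_fin]

theorem fib_sum (k : ℕ) (S : Finset (Fin (k + 1) → V)) :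
    S.card ≤ ∑ z : Fin k → V,
      (univ.filter fun x : V => (Fin.cons x z : Fin (k + 1) → V) ∈ S).card := by
  rw [← card_sigma]
  refine card_le_card_of_injOn (fun x : Fin (k + 1) → V =>
    (⟨fun i => x i.succ, x 0⟩ : (_ : Fin k → V) × V)) ?_ ?_
  · intro x hx
    refine mem_coe.mpr (mem_sigma.mpr ⟨mem_univ _, mem_filter.mpr ⟨mem_univ _, ?_⟩⟩)
    have h1 : (Fin.cons (x 0) (fun i => x i.succ) : Fin (k + 1) → V) = x := Fin.cons_self_tail x
    change (Fin.cons (x 0) (fun i => x i.succ) : Fin (k + 1) → V) ∈ S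
    rw [h1]
    exact hx
  · intro x _ x' _ h
    have h1 : (fun i : Fin k => x i.succ) = fun i => x' i.succ := congrArg Sigma.fst h
    have h2 : x 0 = x' 0 := congrArg Sigma.snd h
    funext i
    refine Fin.cases h2 (fun j => congrFun h1 j) i

/-- the power mean inequality -/
theorem pm {ι : Type} (s : Finset ι) (f : ι → ℝ) (hf : ∀ i ∈ s, 0 ≤ f i) {N : ℝ} (hN : 0 < N)
    (hs : (s.card : ℝ) = N) {p : ℕ} (hp : 0 < p) :
    N * ((∑ i ∈ s, f i) / N) ^ p ≤ ∑ i ∈ s, f i ^ p := by
  obtain ⟨q, rfl⟩ := Nat.exists_eq_succ_of_ne_zero hp.ne'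
  have h := pow_sum_div_card_le_sum_pow (s := s) (f := f) hf q
  rw [hs] at h
  refine le_trans (le_of_eq ?_) h
  rw [div_pow, Nat.succ_eq_add_one, pow_succ N q]
  field_simp

/-- the number of blow-ups -/
theorem bl_card {n : ℝ} (hn : (Fintype.card V : ℝ) = n) (hn0 : 0 < n) {T : ℕ} (hT : 0 < T) :
    ∀ (k : ℕ) (S : Finset (Fin k → V)),
      n ^ (k * T) * ((S.card : ℝ) / n ^ k) ^ (T ^ k) ≤ (Bl k T S).card := by
  intro k
  induction k with
  | zero =>
    intro S
    rw [Nat.zero_mul, pow_zero, pow_zero, div_one, pow_one, one_mul]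
    have h1 : S.card ≤ (Bl 0 T S).card := by
      refine card_le_card_of_injOn (fun x i _ => x i) ?_ ?_
      · intro x hx
        exact mem_coe.mpr (mem_filter.mpr ⟨mem_univ _, fun f => by
          have : (fun i => x i) = x := rfl
          rw [this]; exact hx⟩)
      · intro x _ x' _ _
        exact Subsingleton.elim _ _
    exact_mod_cast h1
  | succ k ih =>
    intro S
    set NT : ℝ := n ^ T with hNT
    have hNT0 : 0 < NT := by positivity
    have hp : 0 < T ^ k := by positivity
    -- the density of the slices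
    have c1 : ((univ : Finset (Fin T → V)).card : ℝ) = NT := by
      rw [card_univ, Fintype.card_fun, Fintype.card_fin]
      push_cast
      rw [hn]
    have c2 : ((univ : Finset (Fin k → V)).card : ℝ) = n ^ k := by
      rw [card_univ, Fintype.card_fun, Fintype.card_fin]
      push_cast
      rw [hn]
    have a1 : n ^ k * ((S.card : ℝ) / n ^ k) ^ T ≤ ∑ v : Fin T → V, ((Sl k T S v).card : ℝ) := by
      have e1 : ∑ v : Fin T → V, ((Sl k T S v).card : ℝ) = ∑ z : Fin k → V,
          ((univ.filter fun x : V => (Fin.cons x z : Fin (k + 1) → V) ∈ S).card : ℝ) ^ T := by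
        exact_mod_cast sl_sum k T S
      rw [e1]
      refine le_trans ?_ (pm univ (fun z : Fin k → V =>
        ((univ.filter fun x : V => (Fin.cons x z : Fin (k + 1) → V) ∈ S).card : ℝ))
        (fun _ _ => Nat.cast_nonneg _) (by positivity) c2 hT)
      refine mul_le_mul_of_nonneg_left ?_ (by positivity)
      refine pow_le_pow_left₀ (by positivity) ?_ _
      refine div_le_div_of_nonneg_right ?_ (by positivity)
      exact_mod_cast fib_sum k S
    have a2 : (((S.card : ℝ) / n ^ (k + 1)) ^ T) ≤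
        (∑ v : Fin T → V, ((Sl k T S v).card : ℝ) / n ^ k) / NT := by
      rw [← sum_div, le_div_iff₀ hNT0, le_div_iff₀ (by positivity)]
      refine le_trans (le_of_eq ?_) a1
      rw [hNT, pow_succ, ← div_div, div_pow]
      field_simp
    have a3 : NT * (((S.card : ℝ) / n ^ (k + 1)) ^ T) ^ (T ^ k) ≤
        ∑ v : Fin T → V, (((Sl k T S v).card : ℝ) / n ^ k) ^ (T ^ k) := by
      refine le_trans ?_ (pm univ (fun v : Fin T → V => ((Sl k T S v).card : ℝ) / n ^ k)
        (fun _ _ => by positivity) hNT0 c1 hp)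
      refine mul_le_mul_of_nonneg_left ?_ hNT0.le
      exact pow_le_pow_left₀ (by positivity) a2 _
    have a4 : n ^ (k * T) * ∑ v : Fin T → V, (((Sl k T S v).card : ℝ) / n ^ k) ^ (T ^ k) ≤
        ((Bl (k + 1) T S).card : ℝ) := by
      rw [mul_sum]
      refine le_trans (sum_le_sum fun v _ => ih (Sl k T S v)) ?_
      exact_mod_cast bl_succ k T S
    calc n ^ ((k + 1) * T) * ((S.card : ℝ) / n ^ (k + 1)) ^ (T ^ (k + 1)) =
          n ^ (k * T) * (NT * (((S.card : ℝ) / n ^ (k + 1)) ^ T) ^ (T ^ k)) := by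
          rw [← pow_mul, hNT, show (k + 1) * T = k * T + T by ring, pow_add,
            show T ^ (k + 1) = T * T ^ k by rw [pow_succ]; ring]
          ring
      _ ≤ n ^ (k * T) * ∑ v : Fin T → V, (((Sl k T S v).card : ℝ) / n ^ k) ^ (T ^ k) :=
          mul_le_mul_of_nonneg_left a3 (by positivity)
      _ ≤ _ := a4

end Pool.Agent.Y47.BU
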