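import Pool.Agent.Y47.BU.Neg2
import Pool.Agent.TH773.CL.Fin

/-! Turán's bound and stability from trees for the members of a family of six-vertex 3-graphs. -/

set_option autoImplicit false
set_option maxRecDepth 100000
set_option maxHeartbeats 4000000
open Finset
open scoped Classical

namespace Pool.Agent.Y47.BU
open Pool.Agent.H122R2.N6 Pool.Agent.H37R3.Pen Pool.Agent.H37R3.Cop Pool.Agent.H37R3.CopL
open Pool.Agent.TH773 Pool.Agent.TH773.ST
open Pool.Agent.TH773.CL (tx stab_copies choose3)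
open Pool.Agent.TH773.CM (CpK cpS mem_cpS)

/-- the bound and the stability for a class -/
theorem conclude4 (i : Fin 5) {n k : ℕ} {ε : ℝ} (hε : 0 < ε) (hk : 10 ^ 13 ≤ ε * k)
    (hn : 10 ≤ ε * n) (hn6 : 6 ≤ n)
    {H : Finset (Finset (Fin n))} (h3 : ∀ e ∈ H, e.card = 3) (hK : Turan34.K43Free H)
    (hc : k * Turan34.copies (Turan34.fam i) H ≤ 4 * n ^ 6) :
    (H.card : ℝ) ≤ (5 / 9 + ε) * (n.choose 3 : ℝ) ∧ ∃ g : Fin n → Fin 3,
      ((symmDiff H (Turan34.turan g)).card : ℝ) ≤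
        1161216000 * (5 / 54 * (n : ℝ) ^ 3 - H.card) + ε * (n : ℝ) ^ 3 := by
  obtain ⟨g, hg⟩ := stab_copies i n H h3 hK
  set N := Turan34.copies (Turan34.fam i) H with hN
  set D := (symmDiff H (Turan34.turan g)).card with hD
  have hn0 : (0 : ℝ) < n := by
    have : (6 : ℝ) ≤ n := by exact_mod_cast hn6
    linarith
  have hk0 : (0 : ℝ) < k := by
    by_contra hneg
    have h0 : (k : ℝ) ≤ 0 := not_lt.mp hneg
    have h1 : ε * k ≤ 0 := mul_nonpos_of_nonneg_of_nonpos hε.le h0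
    linarith
  have g1 : (n : ℝ) ^ 3 * D + 1161216000 * ((n : ℝ) ^ 3 * H.card) ≤
      107520000 * (n : ℝ) ^ 6 + 83684966400 * N := by exact_mod_cast hg
  have g2 : (k : ℝ) * N ≤ 4 * (n : ℝ) ^ 6 := by exact_mod_cast hc
  have g3 : 83684966400 * (N : ℝ) ≤ ε / 24 * (n : ℝ) ^ 6 := by
    have a1 : (k : ℝ) * (83684966400 * N) ≤ k * (ε / 24 * (n : ℝ) ^ 6) := by
      have a2 : (83684966400 * 4) * (n : ℝ) ^ 6 ≤ (ε * k) / 24 * (n : ℝ) ^ 6 := by
        apply mul_le_mul_of_nonneg_right _ (by positivity)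
        linarith
      nlinarith
    exact le_of_mul_le_mul_left a1 hk0
  have g4 : (D : ℝ) + 1161216000 * H.card ≤ 107520000 * (n : ℝ) ^ 3 + ε / 24 * (n : ℝ) ^ 3 := by
    have h2 : (0 : ℝ) < (n : ℝ) ^ 3 := by positivity
    refine le_of_mul_le_mul_left ?_ h2
    nlinarith
  have hD0 : (0 : ℝ) ≤ D := by positivity
  have hn3 : (0 : ℝ) ≤ ε * (n : ℝ) ^ 3 := by positivity
  refine ⟨?_, g, by linarith⟩
  obtain ⟨c1, c2⟩ := choose3 hn6
  have g5 : (10 : ℝ) * (n : ℝ) ^ 2 ≤ ε * (n : ℝ) ^ 3 := by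
    have : (10 : ℝ) * (n : ℝ) ^ 2 ≤ (ε * n) * (n : ℝ) ^ 2 :=
      mul_le_mul_of_nonneg_right hn (by positivity)
    linarith [this, show (ε * n) * (n : ℝ) ^ 2 = ε * (n : ℝ) ^ 3 by ring]
  have g6 : ε * (n : ℝ) ^ 3 ≤ ε * (12 * (n.choose 3 : ℝ)) := mul_le_mul_of_nonneg_left c1 hε.le
  nlinarith

theorem copies_le_fam {n : ℕ} (i : Fin 5) (H : Finset (Finset (Fin n))) {k N : ℕ}
    (h : ∀ m ∈ famM i, k * (cpS (tri H) 6 m).card ≤ N) :
    k * Turan34.copies (Turan34.fam i) H ≤ 4 * N := by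
  have h1 : ((univ : Finset (Finset (Fin n))).filter fun S => ∃ F ∈ Turan34.fam i,
      Turan34.Induces F H S) ⊆ (famM i).toFinset.biUnion fun m =>
        (cpS (tri H) 6 m).image fun x => univ.image x := by
    intro S hS
    obtain ⟨-, F, hF, f, hf, hS2, h2⟩ := mem_filter.mp hS
    obtain ⟨m, hm, hM⟩ := fam_mask i F hF
    refine mem_biUnion.mpr ⟨m, List.mem_toFinset.mpr hm, mem_image.mpr ⟨f, mem_cpS.mpr ⟨hf, ?_⟩,
      hS2⟩⟩
    intro a b c hab hbc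
    rw [← Pool.Agent.TH773.CL.ti_tx a b c hab hbc]
    exact copy_of_ind hM h2 a b c hab hbc
  have h4 : (famM i).toFinset.card ≤ 4 := by
    refine (List.toFinset_card_le _).trans ?_
    fin_cases i <;> simp [famM]
  unfold Turan34.copies
  calc k * _ ≤ k * ∑ m ∈ (famM i).toFinset, (cpS (tri H) 6 m).card := by
        refine Nat.mul_le_mul_left _ ((card_le_card h1).trans (card_biUnion_le.trans ?_))
        exact sum_le_sum fun m _ => card_image_le
    _ = ∑ m ∈ (famM i).toFinset, k * (cpS (tri H) 6 m).card := mul_sum _ _ _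
    _ ≤ (famM i).toFinset.card • N := sum_le_card_nsmul _ _ _ fun m hm =>
        h m (List.mem_toFinset.mp hm)
    _ ≤ 4 * N := by rw [smul_eq_mul]; exact Nat.mul_le_mul_right _ h4

theorem neg_list (P : Pt) (t0 : ℕ) (κ : ℕ) : ∀ (L : List ℕ), (∀ m ∈ L, ∃ tr, chk P m [] tr = true) →
    ∃ K n0 : ℕ, ∀ (V : Type) [Fintype V] (E : V → V → V → ℕ), Sy E → NoK4 E →
      K * (occS E P t0).card ≤ Fintype.card V ^ (P.k * t0) → n0 ≤ Fintype.card V →
      ∀ m ∈ L, κ * (cpS E 6 m).card ≤ Fintype.card V ^ 6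
  | [], _ => ⟨0, 0, fun _ _ _ _ _ _ _ m hm => absurd hm List.not_mem_nil⟩
  | m :: L, h => by
    obtain ⟨tr, htr⟩ := h m (List.mem_cons_self ..)
    obtain ⟨K1, n1, h1⟩ := neg P t0 m tr htr κ
    obtain ⟨K2, n2, h2⟩ := neg_list P t0 κ L fun m' hm' => h m' (List.mem_cons_of_mem _ hm')
    refine ⟨max K1 K2, max n1 n2, fun V _ E hE hK hO hn m' hm' => ?_⟩
    rcases List.mem_cons.mp hm' with rfl | hm'
    · exact h1 V E hE hK ((Nat.mul_le_mul_right _ (le_max_left _ _)).trans hO)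
        ((le_max_left _ _).trans hn)
    · exact h2 V E hE hK ((Nat.mul_le_mul_right _ (le_max_right _ _)).trans hO)
        ((le_max_right _ _).trans hn) m' hm'

/-- the general conclusion -/
theorem main (i : Fin 5) (P : Pt) (t0 : ℕ) (h : ∀ m ∈ famM i, ∃ tr, chk P m [] tr = true) {ε : ℝ}
    (hε : 0 < ε) : ∃ K n0 : ℕ, ∀ n, n0 ≤ n → ∀ H : Finset (Finset (Fin n)),
      (∀ e ∈ H, e.card = 3) → Turan34.K43Free H → K * (occS (tri H) P t0).card ≤ n ^ (P.k * t0) →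
      (H.card : ℝ) ≤ (5 / 9 + ε) * (n.choose 3 : ℝ) ∧ ∃ g : Fin n → Fin 3,
      ((symmDiff H (Turan34.turan g)).card : ℝ) ≤
        1161216000 * (5 / 54 * (n : ℝ) ^ 3 - H.card) + ε * (n : ℝ) ^ 3 := by
  obtain ⟨k, hk⟩ := exists_nat_ge ((10 : ℝ) ^ 13 / ε)
  obtain ⟨n1, hn1⟩ := exists_nat_ge ((10 : ℝ) / ε)
  obtain ⟨K, n0, h1⟩ := neg_list P t0 k (famM i) h
  refine ⟨K, max n0 (max n1 6), fun n hn H h3 hK hO => ?_⟩
  have a0 : n0 ≤ n := (le_max_left _ _).trans hn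
  have a1 : n1 ≤ n := (le_max_left _ _).trans ((le_max_right _ _).trans hn)
  have a2 : 6 ≤ n := (le_max_right _ _).trans ((le_max_right _ _).trans hn)
  have h2 := h1 (Fin n) (tri H) (tri_sy H) (tri_noK4 h3 hK)
  rw [Fintype.card_fin] at h2
  refine conclude4 i hε ?_ ?_ a2 h3 hK (copies_le_fam i H (h2 hO a0))
  · rw [div_le_iff₀ hε] at hk
    linarith [mul_comm (k : ℝ) ε]
  · rw [div_le_iff₀ hε] at hn1
    have a3 : (n1 : ℝ) ≤ n := by exact_mod_cast a1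
    have a4 : (n1 : ℝ) * ε ≤ n * ε := mul_le_mul_of_nonneg_right a3 hε.le
    linarith [mul_comm (n : ℝ) ε]

end Pool.Agent.Y47.BU
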