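import Pool.Agent.Y47.BU.Neg2
import Pool.Agent.Y47.BU.Fin

/-! Turán's bound and stability when homogeneous blow-ups contain structures of a general kind. -/

set_option autoImplicit false
set_option maxRecDepth 100000
set_option maxHeartbeats 4000000
open Finset
open scoped Classical

namespace Pool.Agent.Y47.BU
open Pool.Agent.H122R2.N6 Pool.Agent.H37R3.Pen Pool.Agent.H37R3.Cop Pool.Agent.H37R3.CopL
open Pool.Agent.TH773 Pool.Agent.TH773.ST
open Pool.Agent.TH773.CL (tx stab_copies choose3)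
open Pool.Agent.TH773.CM (CpK cpS mem_cpS)

/-- the injective placements with a property -/
noncomputable def sS {A V : Type} [Fintype A] [Fintype V] (S : (A → V) → Prop) :
    Finset (A → V) := univ.filter fun w => Function.Injective w ∧ S w

theorem mem_sS {A V : Type} [Fintype A] [Fintype V] {S : (A → V) → Prop} {w : A → V} :
    w ∈ sS S ↔ Function.Injective w ∧ S w := by
  unfold sS
  simp

section
variable {A : Type} [Fintype A] {S : ∀ V : Type, (V → V → V → ℕ) → (A → V) → Prop}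

/-- every large blow-up of the pattern `m` contains a structure with the property -/
def RamG {A : Type} [Fintype A] (S : ∀ V : Type, (V → V → V → ℕ) → (A → V) → Prop)
    (m : ℕ) : Prop := ∃ T : ℕ, 0 < T ∧ Fintype.card A ≤ 6 * T ∧
    ∀ (V : Type) (E : V → V → V → ℕ), Sy E → NoK4 E → ∀ y : Fin 6 → Fin T → V,
      (∀ i a j b, y i a = y j b → i = j ∧ a = b) →
      (∀ f : Fin 6 → Fin T, CpK E 6 m fun i => y i (f i)) →
      ∃ e : A → Fin 6 × Fin T, Function.Injective e ∧ S V E fun i => y (e i).1 (e i).2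

theorem ramG {m : ℕ} (t : ℕ) (ht2 : 8 ≤ t) (ht3 : Fintype.card A ≤ 6 * t)
    (hS : ∀ (V : Type) (E : V → V → V → ℕ) (c : ℕ → ℕ → ℕ)
    (y : Fin 6 → Fin t → V), Sy E → NoK4 E → Hom E m c t y →
      (∀ i j, c i j = 0 ∨ c i j = 1) → ∃ e : A → Fin 6 × Fin t,
        Function.Injective e ∧ S V E fun i => y (e i).1 (e i).2) :
    RamG S m := by
  obtain ⟨N, hNt, hN⟩ := prod_ram ((univ.filter fun p : Fin 6 × Fin 6 => p.1 ≠ p.2).toList)
    (fun p hp => (mem_filter.mp (mem_toList.mp hp)).2) t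
  obtain ⟨T, hTN, hT⟩ := ind3 N
  refine ⟨T, by omega, by omega, fun V E hE hK y hy hm => ?_⟩
  have h1 : ∀ i : Fin 6, ∃ A : Finset (Fin T), A ⊆ univ ∧ A.card = N ∧
      ∀ a ∈ A, ∀ b ∈ A, ∀ d ∈ A, a < b → b < d → decide (E (y i a) (y i b) (y i d) = 1) = false := by
    intro i
    refine hT (Fin T) univ (by rw [card_univ, Fintype.card_fin])
      (fun a b d => decide (E (y i a) (y i b) (y i d) = 1)) ?_
    intro a _ b _ c _ d _ _ _ _ e1 e2 e3 e4
    have h5 := hK (y i a) (y i b) (y i c) (y i d)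
    rw [of_decide_eq_true e1, of_decide_eq_true e2, of_decide_eq_true e3,
      of_decide_eq_true e4] at h5
    exact absurd h5 (by decide)
  choose A _ hAN hA using h1
  obtain ⟨B, hB, hBc⟩ := hN (Fin T) A (fun i => (hAN i).ge)
    (fun i j a b d => decide (E (y i a) (y i b) (y j d) = 1))
  have h2 : ∀ i j : Fin 6, ∃ c : Bool, i ≠ j → ∀ a ∈ B i, ∀ b ∈ B i, a < b → ∀ d ∈ B j,
      decide (E (y i a) (y i b) (y j d) = 1) = c := by
    intro i j
    by_cases hij : i = j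
    · exact ⟨true, fun h => absurd hij h⟩
    · obtain ⟨c, hc⟩ := hBc (i, j) (mem_toList.mpr (mem_filter.mpr ⟨mem_univ _, hij⟩))
      exact ⟨c, fun _ => hc⟩
  choose c hcc using h2
  have hbit : ∀ x y z : V, E x y z = 0 ∨ E x y z = 1 := fun x y z => hE.b x y z
  let c' : ℕ → ℕ → ℕ := fun i j => if h : i < 6 ∧ j < 6 then
    (if c ⟨i, h.1⟩ ⟨j, h.2⟩ = true then 1 else 0) else 0
  have hc01 : ∀ i j, c' i j = 0 ∨ c' i j = 1 := by
    intro i j
    change (if h : i < 6 ∧ j < 6 then (if c ⟨i, h.1⟩ ⟨j, h.2⟩ = true then 1 else 0) else 0) = 0 ∨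
      (if h : i < 6 ∧ j < 6 then (if c ⟨i, h.1⟩ ⟨j, h.2⟩ = true then 1 else 0) else 0) = 1
    split_ifs <;> simp
  let ι : (i : Fin 6) → Fin t ↪o Fin T := fun i => (B i).orderEmbOfFin (hB i).2
  have hι : ∀ i a, ι i a ∈ B i := fun i a => orderEmbOfFin_mem (B i) (hB i).2 a
  have par1 : ∀ i j : Fin 6, i ≠ j → ∀ a b, a < b → ∀ d,
      E (y i (ι i a)) (y i (ι i b)) (y j (ι j d)) = c' i j := by
    intro i j hij a b hab d
    have e1 := hcc i j hij (ι i a) (hι i a) (ι i b) (hι i b) ((ι i).lt_iff_lt.mpr hab) (ι j d)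
      (hι j d)
    have e2 : c' i j = if c i j = true then 1 else 0 := by
      change (if h : i.val < 6 ∧ j.val < 6 then
        (if c ⟨i.val, h.1⟩ ⟨j.val, h.2⟩ = true then 1 else 0) else 0) = _
      rw [dif_pos ⟨i.isLt, j.isLt⟩]
    rw [e2, ← e1]
    rcases hbit (y i (ι i a)) (y i (ι i b)) (y j (ι j d)) with h | h <;> simp [h]
  have hH : Hom E m c' t fun i a => y i (ι i a) := by
    refine ⟨?_, ?_, ?_, ?_⟩
    · intro i a j b h
      obtain ⟨e1, e2⟩ := hy _ _ _ _ h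
      subst e1
      exact ⟨rfl, (ι i).injective e2⟩
    · intro i j l hij hjl a b d
      have e1 := hm (fun s => if s = i then ι i a else if s = j then ι j b else ι l d) i j l hij hjl
      simp only [if_true, if_neg hij.ne', if_neg (hij.trans hjl).ne', if_neg hjl.ne'] at e1
      exact e1
    · intro i j hij a b hab d
      rcases lt_or_gt_of_ne hab with h | h
      · exact par1 i j hij a b h d
      · rw [← hE.h213]; exact par1 i j hij b a h d
    · intro i a b d hab had hbd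
      refine sy_all hE (z := fun a => y i (ι i a)) ?_ a b d hab had hbd
      intro a b d hab hbd
      have e1 := hA i (ι i a) ((hB i).1 (hι i a)) (ι i b) ((hB i).1 (hι i b)) (ι i d)
        ((hB i).1 (hι i d)) ((ι i).lt_iff_lt.mpr hab) ((ι i).lt_iff_lt.mpr hbd)
      rcases hbit (y i (ι i a)) (y i (ι i b)) (y i (ι i d)) with h | h
      · exact h
      · rw [h] at e1
        simp at e1
  obtain ⟨e, he, hO⟩ := hS V E c' (fun i a => y i (ι i a)) hE hK hH hc01
  refine ⟨fun q => ((e q).1, ι (e q).1 (e q).2), ?_, hO⟩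
  intro q q' h
  have h3 := (Prod.mk.inj h).1
  have h4 := (Prod.mk.inj h).2
  have h5 : ι (e q).1 (e q).2 = ι (e q).1 (e q').2 := by
    rw [h4]
    simp only [h3]
  exact he (Prod.ext h3 ((ι (e q).1).injective h5))

/-- covering of the blow-ups -/
theorem coverG {m T : ℕ} (hT : ∀ (V : Type) (E : V → V → V → ℕ), Sy E → NoK4 E →
    ∀ y : Fin 6 → Fin T → V, (∀ i a j b, y i a = y j b → i = j ∧ a = b) →
      (∀ f : Fin 6 → Fin T, CpK E 6 m fun i => y i (f i)) →
      ∃ e : A → Fin 6 × Fin T, Function.Injective e ∧ S V E fun i => y (e i).1 (e i).2)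
    {V : Type} [Fintype V] {E : V → V → V → ℕ} (hE : Sy E) (hK : NoK4 E) :
    (Bl 6 T (cpS E 6 m)).card ≤ (6 * T) ^ 2 * Fintype.card V ^ (6 * T - 1) +
      (6 * T) ^ (Fintype.card A) * ((sS (S V E)).card *
        Fintype.card V ^ (6 * T - Fintype.card A)) := by
  have cB : Fintype.card (Fin 6 × Fin T) = 6 * T := by
    rw [Fintype.card_prod, Fintype.card_fin, Fintype.card_fin]
  let C : (Fin 6 × Fin T) × (Fin 6 × Fin T) → Finset (Fin 6 × Fin T → V) := fun p =>
    univ.filter fun w => w p.1 = w p.2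
  let O : (A → Fin 6 × Fin T) → Finset (Fin 6 × Fin T → V) := fun e =>
    univ.filter fun w => w ∘ e ∈ sS (S V E)
  have h1 : ((Bl 6 T (cpS E 6 m)).image fun (y : Fin 6 → Fin T → V) (q : Fin 6 × Fin T) =>
      y q.1 q.2) ⊆ ((univ : Finset ((Fin 6 × Fin T) × (Fin 6 × Fin T))).filter
        fun p => p.1 ≠ p.2).biUnion C ∪
      ((univ : Finset (A → Fin 6 × Fin T)).filter
        fun e => Function.Injective e).biUnion O := by
    intro w hw
    obtain ⟨y, hy, rfl⟩ := mem_image.mp hw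
    have hy2 := (mem_filter.mp hy).2
    by_cases hinj : Function.Injective fun q : Fin 6 × Fin T => y q.1 q.2
    · refine mem_union_right _ ?_
      obtain ⟨e, he, hO⟩ := hT V E hE hK y (fun i a j b h => by
        have h2 := @hinj (i, a) (j, b) h
        exact ⟨(Prod.mk.inj h2).1, (Prod.mk.inj h2).2⟩) (fun f => (mem_cpS.mp (hy2 f)).2)
      exact mem_biUnion.mpr ⟨e, mem_filter.mpr ⟨mem_univ _, he⟩,
        mem_filter.mpr ⟨mem_univ _, mem_sS.mpr ⟨hinj.comp he, hO⟩⟩⟩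
    · refine mem_union_left _ ?_
      rw [Function.not_injective_iff] at hinj
      obtain ⟨a, b, hab, hne⟩ := hinj
      exact mem_biUnion.mpr ⟨(a, b), mem_filter.mpr ⟨mem_univ _, hne⟩,
        mem_filter.mpr ⟨mem_univ _, hab⟩⟩
  have h2 : ((Bl 6 T (cpS E 6 m)).image fun (y : Fin 6 → Fin T → V) (q : Fin 6 × Fin T) =>
      y q.1 q.2).card = (Bl 6 T (cpS E 6 m)).card := by
    refine card_image_of_injective _ ?_
    intro y y' h
    funext i a
    exact congrFun h (i, a)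
  rw [← h2]
  refine (card_le_card h1).trans ((card_union_le _ _).trans (Nat.add_le_add ?_ ?_))
  · refine (card_biUnion_le).trans ((sum_le_card_nsmul _ _ (Fintype.card V ^ (6 * T - 1)) ?_).trans ?_)
    · intro p hp
      have h3 := coll (V := V) p.1 p.2 (mem_filter.mp hp).2
      rw [cB] at h3
      refine le_trans (le_of_eq (congrArg card ?_)) h3
      ext w
      simp only [C, mem_filter, mem_univ, true_and]
    · rw [smul_eq_mul]
      refine Nat.mul_le_mul_right _ ((card_filter_le _ _).trans (le_of_eq ?_))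
      rw [card_univ, Fintype.card_prod, cB]
      ring
  · refine (card_biUnion_le).trans ((sum_le_card_nsmul _ _
      ((sS (S V E)).card * Fintype.card V ^ (6 * T - Fintype.card A)) ?_).trans ?_)
    · intro e he
      have h3 := pull (V := V) e (mem_filter.mp he).2 (O e) (sS (S V E))
        (fun w hw => (mem_filter.mp hw).2)
      rw [cB] at h3
      exact h3
    · rw [smul_eq_mul]
      refine Nat.mul_le_mul_right _ ((card_filter_le _ _).trans (le_of_eq ?_))
      rw [card_univ, Fintype.card_fun, cB]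

/-- a pattern with a valid tree is negligible -/
theorem negG {m : ℕ} (hR : RamG S m) : ∀ κ : ℕ, ∃ K n0 : ℕ,
    ∀ (V : Type) [Fintype V] (E : V → V → V → ℕ), Sy E → NoK4 E →
      K * (sS (S V E)).card ≤ Fintype.card V ^ (Fintype.card A) → n0 ≤ Fintype.card V →
      κ * (cpS E 6 m).card ≤ Fintype.card V ^ 6 := by
  intro κ
  obtain ⟨T, hT0, hkT, hT⟩ := hR
  set D := T ^ 6 with hD
  set k := Fintype.card A with hk
  set M := (6 * T) ^ k with hM
  refine ⟨2 * M * κ ^ D + 1, 2 * (6 * T) ^ 2 * κ ^ D + 1, fun V _ E hE hK hO hn => ?_⟩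
  by_contra hneg
  rw [not_le] at hneg
  set P := cpS E 6 m with hP
  set nn := Fintype.card V with hnn
  have hn0 : 0 < nn := by omega
  have hκ : 0 < κ := by
    rcases Nat.eq_zero_or_pos κ with e | e
    · rw [e, Nat.zero_mul] at hneg
      exact absurd hneg (Nat.not_lt_zero _)
    · exact e
  have hnr : (0 : ℝ) < (nn : ℝ) := by exact_mod_cast hn0
  have hκr : (0 : ℝ) < (κ : ℝ) := by exact_mod_cast hκ
  have b1 := bl_card (V := V) (n := (nn : ℝ)) (by rw [hnn]) hnr hT0 6 P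
  have hδ : (1 : ℝ) / κ ≤ (P.card : ℝ) / (nn : ℝ) ^ 6 := by
    rw [div_le_div_iff₀ hκr (by positivity), one_mul]
    have h1 : ((nn ^ 6 : ℕ) : ℝ) ≤ ((κ * P.card : ℕ) : ℝ) := by exact_mod_cast hneg.le
    push_cast at h1
    linarith [mul_comm (κ : ℝ) P.card]
  have b2 : (nn : ℝ) ^ (6 * T) * (1 / κ) ^ D ≤ ((Bl 6 T P).card : ℝ) := by
    refine le_trans ?_ b1
    refine mul_le_mul_of_nonneg_left ?_ (by positivity)
    exact pow_le_pow_left₀ (by positivity) hδ _
  have b3 : ((Bl 6 T P).card : ℝ) ≤ (6 * T) ^ 2 * (nn : ℝ) ^ (6 * T - 1) +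
      M * ((sS (S V E)).card * (nn : ℝ) ^ (6 * T - k)) := by
    have h1 := coverG hT (E := E) hE hK
    have h2 : (((Bl 6 T P).card : ℕ) : ℝ) ≤ (((6 * T) ^ 2 * nn ^ (6 * T - 1) +
      M * ((sS (S V E)).card * nn ^ (6 * T - k)) : ℕ) : ℝ) := by exact_mod_cast h1
    push_cast at h2
    exact h2
  -- the two terms
  have e1 : (nn : ℝ) ^ (6 * T - 1) = (nn : ℝ) ^ (6 * T) / nn := by
    rw [eq_div_iff hnr.ne', ← pow_succ]
    congr 1
    omega
  have hκD : (0 : ℝ) < (κ : ℝ) ^ D := by positivity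
  have t1 : (6 * T : ℝ) ^ 2 * (nn : ℝ) ^ (6 * T - 1) <
      (nn : ℝ) ^ (6 * T) * ((1 / κ) ^ D / 2) := by
    rw [e1, one_div, inv_pow]
    have h1 : ((2 * (6 * T) ^ 2 * κ ^ D + 1 : ℕ) : ℝ) ≤ (nn : ℝ) := by exact_mod_cast hn
    push_cast at h1
    have h2 : (2 : ℝ) * (6 * T) ^ 2 * κ ^ D < nn := by linarith
    have h3 : (6 * T : ℝ) ^ 2 / nn < ((κ : ℝ) ^ D)⁻¹ / 2 := by
      rw [div_lt_iff₀ hnr]
      have h4 : ((κ : ℝ) ^ D)⁻¹ / 2 * (2 * (6 * T) ^ 2 * κ ^ D) = (6 * T) ^ 2 := by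
        field_simp
      calc (6 * T : ℝ) ^ 2 = ((κ : ℝ) ^ D)⁻¹ / 2 * (2 * (6 * T) ^ 2 * κ ^ D) := h4.symm
        _ < ((κ : ℝ) ^ D)⁻¹ / 2 * nn := mul_lt_mul_of_pos_left h2 (by positivity)
    calc (6 * T : ℝ) ^ 2 * ((nn : ℝ) ^ (6 * T) / nn) = (nn : ℝ) ^ (6 * T) *
          ((6 * T : ℝ) ^ 2 / nn) := by ring
      _ < _ := mul_lt_mul_of_pos_left h3 (by positivity)
  have t2 : (M : ℝ) * ((sS (S V E)).card * (nn : ℝ) ^ (6 * T - k)) ≤
      (nn : ℝ) ^ (6 * T) * ((1 / κ) ^ D / 2) := by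
    rw [one_div, inv_pow]
    rcases Nat.eq_zero_or_pos (sS (S V E)).card with e0 | e0
    · rw [e0]
      simp only [Nat.cast_zero, zero_mul, mul_zero]
      positivity
    · have h1 : (((2 * M * κ ^ D + 1) * (sS (S V E)).card : ℕ) : ℝ) ≤
          ((nn ^ (k) : ℕ) : ℝ) := by exact_mod_cast hO
      push_cast at h1
      have h2 : (2 : ℝ) * M * κ ^ D * (sS (S V E)).card ≤ (nn : ℝ) ^ (k) := by
        have h3 : (0 : ℝ) ≤ ((sS (S V E)).card : ℝ) := Nat.cast_nonneg _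
        nlinarith
      have h3 : (nn : ℝ) ^ (6 * T) = (nn : ℝ) ^ (k) * (nn : ℝ) ^ (6 * T - k) := by
        rw [← pow_add]
        congr 1
        omega
      rw [h3]
      have h4 : (M : ℝ) * (sS (S V E)).card ≤ (nn : ℝ) ^ (k) * (((κ : ℝ) ^ D)⁻¹ / 2) := by
        have h5 : (M : ℝ) * (sS (S V E)).card =
            (2 * M * κ ^ D * (sS (S V E)).card) * (((κ : ℝ) ^ D)⁻¹ / 2) := by
          field_simp
        rw [h5]
        exact mul_le_mul_of_nonneg_right h2 (by positivity)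
      calc (M : ℝ) * ((sS (S V E)).card * (nn : ℝ) ^ (6 * T - k)) =
            ((M : ℝ) * (sS (S V E)).card) * (nn : ℝ) ^ (6 * T - k) := by ring
        _ ≤ ((nn : ℝ) ^ (k) * (((κ : ℝ) ^ D)⁻¹ / 2)) * (nn : ℝ) ^ (6 * T - k) :=
            mul_le_mul_of_nonneg_right h4 (by positivity)
        _ = _ := by ring
  have b4 : (nn : ℝ) ^ (6 * T) * (1 / κ) ^ D < (nn : ℝ) ^ (6 * T) * (1 / κ) ^ D := by
    calc (nn : ℝ) ^ (6 * T) * (1 / κ) ^ D ≤ _ := b2
      _ ≤ _ := b3
      _ < (nn : ℝ) ^ (6 * T) * ((1 / κ) ^ D / 2) + (nn : ℝ) ^ (6 * T) * ((1 / κ) ^ D / 2) :=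
          add_lt_add_of_lt_of_le t1 t2
      _ = _ := by ring
  exact lt_irrefl _ b4

theorem neg_listG (κ : ℕ) : ∀ (L : List ℕ), (∀ m ∈ L, RamG S m) →
    ∃ K n0 : ℕ, ∀ (V : Type) [Fintype V] (E : V → V → V → ℕ), Sy E → NoK4 E →
      K * (sS (S V E)).card ≤ Fintype.card V ^ Fintype.card A → n0 ≤ Fintype.card V →
      ∀ m ∈ L, κ * (cpS E 6 m).card ≤ Fintype.card V ^ 6
  | [], _ => ⟨0, 0, fun _ _ _ _ _ _ _ m hm => absurd hm List.not_mem_nil⟩
  | m :: L, h => by
    obtain ⟨K1, n1, h1⟩ := negG (h m (List.mem_cons_self ..)) κ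
    obtain ⟨K2, n2, h2⟩ := neg_listG κ L fun m' hm' => h m' (List.mem_cons_of_mem _ hm')
    refine ⟨max K1 K2, max n1 n2, fun V _ E hE hK hO hn m' hm' => ?_⟩
    rcases List.mem_cons.mp hm' with rfl | hm'
    · exact h1 V E hE hK ((Nat.mul_le_mul_right _ (le_max_left _ _)).trans hO)
        ((le_max_left _ _).trans hn)
    · exact h2 V E hE hK ((Nat.mul_le_mul_right _ (le_max_right _ _)).trans hO)
        ((le_max_right _ _).trans hn) m' hm'

/-- the general conclusion -/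
theorem mainG (i : Fin 5) (h : ∀ m ∈ famM i, RamG S m) {ε : ℝ} (hε : 0 < ε) :
    ∃ K n0 : ℕ, ∀ n, n0 ≤ n → ∀ H : Finset (Finset (Fin n)),
      (∀ e ∈ H, e.card = 3) → Turan34.K43Free H →
      K * (sS (S (Fin n) (tri H))).card ≤ n ^ Fintype.card A →
      (H.card : ℝ) ≤ (5 / 9 + ε) * (n.choose 3 : ℝ) ∧ ∃ g : Fin n → Fin 3,
      ((symmDiff H (Turan34.turan g)).card : ℝ) ≤
        1161216000 * (5 / 54 * (n : ℝ) ^ 3 - H.card) + ε * (n : ℝ) ^ 3 := by
  obtain ⟨κ, hκ⟩ := exists_nat_ge ((10 : ℝ) ^ 13 / ε)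
  obtain ⟨n1, hn1⟩ := exists_nat_ge ((10 : ℝ) / ε)
  obtain ⟨K, n0, h1⟩ := neg_listG κ (famM i) h
  refine ⟨K, max n0 (max n1 6), fun n hn H h3 hK hO => ?_⟩
  have a0 : n0 ≤ n := (le_max_left _ _).trans hn
  have a1 : n1 ≤ n := (le_max_left _ _).trans ((le_max_right _ _).trans hn)
  have a2 : 6 ≤ n := (le_max_right _ _).trans ((le_max_right _ _).trans hn)
  have h2 := h1 (Fin n) (tri H) (tri_sy H) (tri_noK4 h3 hK)
  rw [Fintype.card_fin] at h2
  refine conclude4 i hε ?_ ?_ a2 h3 hK (copies_le_fam i H (h2 hO a0))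
  · rw [div_le_iff₀ hε] at hκ
    linarith [mul_comm (κ : ℝ) ε]
  · rw [div_le_iff₀ hε] at hn1
    have a3 : (n1 : ℝ) ≤ n := by exact_mod_cast a1
    have a4 : (n1 : ℝ) * ε ≤ n * ε := mul_le_mul_of_nonneg_right a3 hε.le
    linarith [mul_comm (n : ℝ) ε]

end

end Pool.Agent.Y47.BU
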