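import Pool.Agent.Y47.BU.Link

/-! From induced copies of a 3-graph to the blow-ups of a pattern. -/

set_option autoImplicit false
set_option maxRecDepth 100000
set_option maxHeartbeats 4000000
open Finset
open scoped Classical

namespace Pool.Agent.Y47.BU
open Pool.Agent.H122R2.N6 Pool.Agent.H37R3.Pen Pool.Agent.H37R3.Cop Pool.Agent.H37R3.CopL
open Pool.Agent.TH773 Pool.Agent.TH773.ST

/-- labelled induced copies of the 3-graph `F` in `H` -/
noncomputable def indSet {α : Type} [Fintype α] (F : Finset (Finset α)) {n : ℕ}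
    (H : Finset (Finset (Fin n))) : Finset (α → Fin n) :=
  univ.filter fun f => Function.Injective f ∧ ∀ u v w : α, u ≠ v → u ≠ w → v ≠ w →
    (({u, v, w} : Finset α) ∈ F ↔ ({f u, f v, f w} : Finset (Fin n)) ∈ H)

theorem sort3 {α : Type} (φ : α → ℕ) {Q : α → α → α → Prop} (h1 : ∀ u v w, Q u v w → Q v u w)
    (h2 : ∀ u v w, Q u v w → Q u w v) (h : ∀ u v w, φ u ≤ φ v → φ v ≤ φ w → Q u v w)
    (u v w : α) : Q u v w := by
  rcases le_total (φ u) (φ v) with a | a <;> rcases le_total (φ v) (φ w) with b | b <;>
    rcases le_total (φ u) (φ w) with c | c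
  · exact h u v w a b
  · exact h u v w a b
  · exact h2 _ _ _ (h u w v c b)
  · exact h2 _ _ _ (h1 _ _ _ (h w u v c a))
  · exact h1 _ _ _ (h v u w a c)
  · exact h1 _ _ _ (h2 _ _ _ (h v w u b c))
  · exact h1 _ _ _ (h v u w a c)
  · exact h2 _ _ _ (h1 _ _ _ (h2 _ _ _ (h w v u b a)))

theorem card3_lt {k : ℕ} {a b : Fin k} : ({a, a, b} : Finset (Fin k)).card < 3 := by
  rw [insert_eq_of_mem (by simp)]
  exact (card_le_two).trans_lt (by norm_num)

theorem occ_ind {α : Type} [Fintype α] {F : Finset (Finset α)} {P : Pt}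
    {A : Finset (Finset (Fin P.k))} {X : Finset (Fin P.k)} (hk : 0 < P.k)
    (hA : ∀ t ∈ A, t.card = 3)
    (hT : ∀ a b c : Fin P.k, a < b → b < c →
      (a.val, b.val, c.val, if ({a, b, c} : Finset (Fin P.k)) ∈ A then 1 else 0) ∈ P.T)
    (hR : ∀ a ∈ X, ∀ b : Fin P.k, b ≠ a → (a.val, b.val, 0) ∈ P.R)
    (φ : α → Fin P.k) (hX : ∀ u v, u ≠ v → φ u = φ v → φ u ∈ X)
    (hF : ∀ u v w : α, u ≠ v → u ≠ w → v ≠ w →
      (({u, v, w} : Finset α) ∈ F ↔ ({φ u, φ v, φ w} : Finset (Fin P.k)) ∈ A))
    {n : ℕ} (H : Finset (Finset (Fin n))) :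
    (occS (tri H) P (Fintype.card α + 1)).card ≤ (indSet F H).card *
      n ^ (P.k * (Fintype.card α + 1) - Fintype.card α) := by
  set s := Fintype.card α with hs
  let idx : α → Fin (s + 1) := fun u => (Fintype.equivFin α u).castSucc
  have hidx : ∀ u v, u ≠ v → idx u ≠ idx v := fun u v h h' =>
    h ((Fintype.equivFin α).injective (Fin.castSucc_injective _ h'))
  let e : α → Fin P.k × Fin (s + 1) := fun u => (φ u, idx u)
  have he : Function.Injective e := by
    intro x y hxy
    by_contra hne
    exact hidx x y hne (Prod.mk.inj hxy).2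
  have h1 := pull (V := Fin n) e he (occS (tri H) P (s + 1)) (indSet F H) ?_
  · have c1 : Fintype.card (Fin P.k × Fin (s + 1)) = P.k * (s + 1) := by
      rw [Fintype.card_prod, Fintype.card_fin, Fintype.card_fin]
    rw [c1, Fintype.card_fin] at h1
    exact h1
  · intro w hw
    have hO : Occ (tri H) P (s + 1) w := (mem_filter.mp hw).2
    refine mem_filter.mpr ⟨mem_univ _, ?_, ?_⟩
    · intro u v h
      have h' : w (e u) = w (e v) := h
      have h2 : e u = e v := hO.inj h'
      exact he h2
    · have key : ∀ u v x : α, u ≠ v → u ≠ x → v ≠ x → (({φ u, φ v, φ x} : Finset (Fin P.k)) ∈ A ↔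
          tri H (w (e u)) (w (e v)) (w (e x)) = 1) := by
        refine sort3 (fun u => (φ u).val) (Q := fun u v x => u ≠ v → u ≠ x → v ≠ x →
          (({φ u, φ v, φ x} : Finset (Fin P.k)) ∈ A ↔
          tri H (w (e u)) (w (e v)) (w (e x)) = 1)) ?_ ?_ ?_
        · intro u v x h h1 h2 h3
          rw [Finset.insert_comm, (tri_sy H).h213]
          exact h h1.symm h3 h2
        · intro u v x h h1 h2 h3
          rw [Finset.pair_comm, (tri_sy H).h132]
          exact h h2 h1 h3.symm
        · intro u v x huv hvx h1 h2 h3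
          rcases lt_or_eq_of_le huv with a | a <;> rcases lt_or_eq_of_le hvx with b | b
          · have h4 := hO.tri _ (hT _ _ _ a b) (φ u).isLt (φ v).isLt (φ x).isLt (idx u) (idx v)
              (idx x)
            change tri H (w (e u)) (w (e v)) (w (e x)) = _ at h4
            rw [h4]
            split_ifs with h5 <;> simp [h5]
          · have b' : φ v = φ x := Fin.ext b
            have hne : φ u ≠ φ v := fun h => a.ne (congrArg Fin.val h)
            have h4 := hO.par _ (hR _ (hX v x h3 b') (φ u) hne) (φ v).isLt (φ u).isLt (idx v)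
              (idx x) (idx u) (hidx _ _ h3)
            have h5 : w (φ v, idx x) = w (e x) := by rw [b']
            change tri H (w (e v)) (w (φ v, idx x)) (w (e u)) = 0 at h4
            rw [h5] at h4
            rw [← (tri_sy H).h231 (w (e u)) (w (e v)) (w (e x)), h4]
            constructor
            · intro h
              have h6 := hA _ h
              rw [b', Finset.insert_comm, Finset.pair_comm] at h6
              have h7 := card3_lt (a := φ x) (b := φ u)
              rw [h6] at h7
              omega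
            · intro h; exact absurd h (by norm_num)
          · have a' : φ u = φ v := Fin.ext a
            have hne : φ x ≠ φ u := fun h => by
              have := congrArg Fin.val h
              omega
            have h4 := hO.par _ (hR _ (hX u v h1 a') (φ x) hne) (φ u).isLt (φ x).isLt (idx u)
              (idx v) (idx x) (hidx _ _ h1)
            have h5 : w (φ u, idx v) = w (e v) := by rw [a']
            change tri H (w (e u)) (w (φ u, idx v)) (w (e x)) = 0 at h4
            rw [h5] at h4
            rw [h4]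
            constructor
            · intro h
              have h6 := hA _ h
              rw [a'] at h6
              have h7 := card3_lt (a := φ v) (b := φ x)
              rw [h6] at h7
              omega
            · intro h; exact absurd h (by norm_num)
          · have a' : φ u = φ v := Fin.ext a
            have b' : φ v = φ x := Fin.ext b
            have h4 := hO.ind (φ u) (idx u) (idx v) (idx x) (hidx _ _ h1) (hidx _ _ h2)
              (hidx _ _ h3)
            have h5 : w (φ u, idx v) = w (e v) := by rw [a']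
            have h6 : w (φ u, idx x) = w (e x) := by rw [a', b']
            rw [h5, h6] at h4
            change tri H (w (e u)) (w (e v)) (w (e x)) = 0 at h4
            rw [h4]
            constructor
            · intro h
              have h6 := hA _ h
              rw [a'] at h6
              have h7 := card3_lt (a := φ v) (b := φ x)
              rw [h6] at h7
              omega
            · intro h; exact absurd h (by norm_num)
      intro u v x h1 h2 h3
      rw [hF u v x h1 h2 h3, key u v x h1 h2 h3, tri_mem]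
      exact Iff.rfl

/-- Turán's bound and stability for a 3-graph `F` -/
theorem ind_main (i : Fin 5) (P : Pt) (hok : ∀ m ∈ famM i, ∃ tr, chk P m [] tr = true)
    {α : Type} [Fintype α] {F : Finset (Finset α)}
    {A : Finset (Finset (Fin P.k))} {X : Finset (Fin P.k)} (hk : 0 < P.k)
    (hA : ∀ t ∈ A, t.card = 3)
    (hT : ∀ a b c : Fin P.k, a < b → b < c →
      (a.val, b.val, c.val, if ({a, b, c} : Finset (Fin P.k)) ∈ A then 1 else 0) ∈ P.T)
    (hR : ∀ a ∈ X, ∀ b : Fin P.k, b ≠ a → (a.val, b.val, 0) ∈ P.R)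
    (φ : α → Fin P.k) (hX : ∀ u v, u ≠ v → φ u = φ v → φ u ∈ X)
    (hF : ∀ u v w : α, u ≠ v → u ≠ w → v ≠ w →
      (({u, v, w} : Finset α) ∈ F ↔ ({φ u, φ v, φ w} : Finset (Fin P.k)) ∈ A))
    {ε : ℝ} (hε : 0 < ε) : ∃ δ : ℝ, 0 < δ ∧ ∃ n0 : ℕ, ∀ n, n0 ≤ n →
      ∀ H : Finset (Finset (Fin n)), (∀ e ∈ H, e.card = 3) → Turan34.K43Free H →
      ((indSet F H).card : ℝ) ≤ δ * (n : ℝ) ^ Fintype.card α →
      (H.card : ℝ) ≤ (5 / 9 + ε) * (n.choose 3 : ℝ) ∧ ∃ g : Fin n → Fin 3,
      ((symmDiff H (Turan34.turan g)).card : ℝ) ≤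
        1161216000 * (5 / 54 * (n : ℝ) ^ 3 - H.card) + ε * (n : ℝ) ^ 3 := by
  obtain ⟨K, n0, h⟩ := main i P (Fintype.card α + 1) hok hε
  refine ⟨1 / ((K : ℝ) + 1), by positivity, n0, fun n hn H h3 hK hl => ?_⟩
  refine h n hn H h3 hK ?_
  have h1 := occ_ind hk hA hT hR φ hX hF H
  set s := Fintype.card α with hs
  have h2 : K * (indSet F H).card ≤ n ^ s := by
    have a1 : (K : ℝ) * (indSet F H).card ≤ (n : ℝ) ^ s := by
      rw [div_mul_eq_mul_div, one_mul, le_div_iff₀ (by positivity)] at hl
      have : (0 : ℝ) ≤ ((indSet F H).card : ℝ) := Nat.cast_nonneg _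
      nlinarith
    exact_mod_cast a1
  have h3 : s + 1 ≤ P.k * (s + 1) := Nat.le_mul_of_pos_left _ hk
  calc K * (occS (tri H) P (s + 1)).card ≤
        K * ((indSet F H).card * n ^ (P.k * (s + 1) - s)) := Nat.mul_le_mul_left _ h1
    _ = (K * (indSet F H).card) * n ^ (P.k * (s + 1) - s) := by ring
    _ ≤ n ^ s * n ^ (P.k * (s + 1) - s) := Nat.mul_le_mul_right _ h2
    _ = n ^ (P.k * (s + 1)) := by rw [← pow_add]; congr 1; omega

end Pool.Agent.Y47.BU
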