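import Pool.Agent.Y47.BU.Fin

/-! From link graphs to the blow-ups of a pattern. -/

set_option autoImplicit false
set_option maxRecDepth 100000
set_option maxHeartbeats 4000000
open Finset
open scoped Classical

namespace Pool.Agent.Y47.BU
open Pool.Agent.H122R2.N6 Pool.Agent.H37R3.Pen Pool.Agent.H37R3.Cop Pool.Agent.H37R3.CopL
open Pool.Agent.TH773 Pool.Agent.TH773.ST

/-- labelled induced copies of the graph `F` in the link graphs of `H` -/
noncomputable def linkSet {α : Type} [Fintype α] (F : SimpleGraph α) {n : ℕ}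
    (H : Finset (Finset (Fin n))) : Finset (Fin n × (α → Fin n)) :=
  univ.filter fun q => Function.Injective q.2 ∧ (∀ u, q.2 u ≠ q.1) ∧
    ∀ u v, u ≠ v → (F.Adj u v ↔ ({q.1, q.2 u, q.2 v} : Finset (Fin n)) ∈ H)

theorem tri_set {n : ℕ} (a b c : Fin n) : (@insert _ _ (@Finset.instInsert _
    fun x y => Classical.propDecidable (x = y)) a (@insert _ _ (@Finset.instInsert _
    fun x y => Classical.propDecidable (x = y)) b {c}) : Finset (Fin n)) = {a, b, c} := by
  ext x
  simp only [Finset.mem_insert, Finset.mem_singleton]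

theorem tri_mem {n : ℕ} {H : Finset (Finset (Fin n))} {a b c : Fin n} :
    tri H a b c = 1 ↔ ({a, b, c} : Finset (Fin n)) ∈ H := by
  rw [Pool.Agent.H37R3.Cop.tri_one, tri_set]

/-- a blow-up of the pattern contains a copy of `F` in a link graph -/
theorem occ_link {α : Type} [Fintype α] {F : SimpleGraph α} {P : Pt} (φ : α → ℕ) (hP : 0 < P.k)
    (hφ : ∀ u, φ u + 1 < P.k)
    (hT : ∀ u v, u ≠ v → φ u < φ v → (0, φ u + 1, φ v + 1, if F.Adj u v then 1 else 0) ∈ P.T)
    (hR : ∀ u v, u ≠ v → φ u = φ v → (φ u + 1, 0, 0) ∈ P.R ∧ ¬ F.Adj u v)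
    {n : ℕ} (H : Finset (Finset (Fin n))) :
    (occS (tri H) P (Fintype.card α + 1)).card ≤ (linkSet F H).card *
      n ^ (P.k * (Fintype.card α + 1) - (Fintype.card α + 1)) := by
  set s := Fintype.card α with hs
  let idx : α → Fin (s + 1) := fun u => (Fintype.equivFin α u).castSucc
  have hidx : ∀ u v, idx u = idx v → u = v := fun u v h =>
    (Fintype.equivFin α).injective (Fin.castSucc_injective _ h)
  let e : Option α → Fin P.k × Fin (s + 1) := fun o =>
    match o with
    | none => (⟨0, hP⟩, 0)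
    | some u => (⟨φ u + 1, hφ u⟩, idx u)
  have he : Function.Injective e := by
    intro x y hxy
    rcases x with _ | u <;> rcases y with _ | v
    · rfl
    · exact absurd (Fin.mk.inj_iff.mp (Prod.mk.inj hxy).1) (by omega)
    · exact absurd (Fin.mk.inj_iff.mp (Prod.mk.inj hxy).1) (by omega)
    · exact congrArg some (hidx u v (Prod.mk.inj hxy).2)
  let LS : Finset (Option α → Fin n) :=
    univ.filter fun x => (x none, fun u => x (some u)) ∈ linkSet F H
  have h1 := pull (V := Fin n) e he (occS (tri H) P (s + 1)) LS ?_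
  · have h2 : LS.card ≤ (linkSet F H).card := by
      refine card_le_card_of_injOn (fun x => (x none, fun u => x (some u))) ?_ ?_
      · intro x hx
        exact (mem_filter.mp (mem_coe.mp hx)).2
      · intro x _ y _ h
        funext o
        rcases o with _ | u
        · exact (Prod.mk.inj h).1
        · exact congrFun (Prod.mk.inj h).2 u
    have c1 : Fintype.card (Fin P.k × Fin (s + 1)) = P.k * (s + 1) := by
      rw [Fintype.card_prod, Fintype.card_fin, Fintype.card_fin]
    have c2 : Fintype.card (Option α) = s + 1 := Fintype.card_option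
    rw [c1, c2, Fintype.card_fin] at h1
    exact h1.trans (Nat.mul_le_mul_right _ h2)
  · intro w hw
    have hO : Occ (tri H) P (s + 1) w := (mem_filter.mp hw).2
    refine mem_filter.mpr ⟨mem_univ _, mem_filter.mpr ⟨mem_univ _, ?_, ?_, ?_⟩⟩
    · intro u v h
      have h' : w (e (some u)) = w (e (some v)) := h
      have h2 : e (some u) = e (some v) := hO.inj h'
      exact Option.some.inj (he h2)
    · intro u h
      have h' : w (e (some u)) = w (e none) := h
      have h2 : e (some u) = e none := hO.inj h'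
      exact Option.some_ne_none u (he h2)
    · intro u v huv
      have key : ∀ u v : α, u ≠ v → φ u < φ v → (F.Adj u v ↔
          ({w (e none), w (e (some u)), w (e (some v))} : Finset (Fin n)) ∈ H) := by
        intro u v huv hlt
        have h3 := hO.tri _ (hT u v huv hlt) hP (hφ u) (hφ v) 0 (idx u) (idx v)
        rw [← tri_mem]
        change tri H (w (e none)) (w (e (some u))) (w (e (some v))) = _ at h3
        rw [h3]
        split_ifs with h4 <;> simp [h4]
      rcases lt_trichotomy (φ u) (φ v) with hlt | heq | hlt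
      · exact key u v huv hlt
      · have h3 := hR u v huv heq
        have h4 := hO.par _ h3.1 (hφ u) hP (idx u) (idx v) 0 (fun h => huv (hidx u v h))
        have h5 : e (some v) = (⟨φ u + 1, hφ u⟩, idx v) := by
          change ((⟨φ v + 1, hφ v⟩ : Fin P.k), idx v) = _
          congr 1
          exact Fin.ext (congrArg (· + 1) heq.symm)
        constructor
        · intro h; exact absurd h h3.2
        · intro h
          exfalso
          change ({w (e none), w (e (some u)), w (e (some v))} : Finset (Fin n)) ∈ H at h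
          rw [← tri_mem, h5] at h
          change tri H (w (⟨φ u + 1, hφ u⟩, idx u)) (w (⟨φ u + 1, hφ u⟩, idx v)) (w (⟨0, hP⟩, 0)) = 0
            at h4
          have h6 : tri H (w (e none)) (w (e (some u))) (w (⟨φ u + 1, hφ u⟩, idx v)) =
              tri H (w (⟨φ u + 1, hφ u⟩, idx u)) (w (⟨φ u + 1, hφ u⟩, idx v)) (w (⟨0, hP⟩, 0)) :=
            ((tri_sy H).h231 _ _ _).symm
          rw [h6, h4] at h
          exact absurd h (by norm_num)
      · have h3 := key v u huv.symm hlt
        rw [SimpleGraph.adj_comm, h3]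
        change _ ↔ ({w (e none), w (e (some u)), w (e (some v))} : Finset (Fin n)) ∈ H
        rw [Finset.pair_comm (w (e (some v))) (w (e (some u)))]

/-- Turán's bound and stability for a graph `F` -/
theorem link_main (i : Fin 5) (P : Pt) (hok : ∀ m ∈ famM i, ∃ tr, chk P m [] tr = true)
    {α : Type} [Fintype α] (F : SimpleGraph α) (φ : α → ℕ) (hP : 0 < P.k)
    (hφ : ∀ u, φ u + 1 < P.k)
    (hT : ∀ u v, u ≠ v → φ u < φ v → (0, φ u + 1, φ v + 1, if F.Adj u v then 1 else 0) ∈ P.T)
    (hR : ∀ u v, u ≠ v → φ u = φ v → (φ u + 1, 0, 0) ∈ P.R ∧ ¬ F.Adj u v)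
    {ε : ℝ} (hε : 0 < ε) : ∃ δ : ℝ, 0 < δ ∧ ∃ n0 : ℕ, ∀ n, n0 ≤ n →
      ∀ H : Finset (Finset (Fin n)), (∀ e ∈ H, e.card = 3) → Turan34.K43Free H →
      ((linkSet F H).card : ℝ) ≤ δ * (n : ℝ) ^ (Fintype.card α + 1) →
      (H.card : ℝ) ≤ (5 / 9 + ε) * (n.choose 3 : ℝ) ∧ ∃ g : Fin n → Fin 3,
      ((symmDiff H (Turan34.turan g)).card : ℝ) ≤
        1161216000 * (5 / 54 * (n : ℝ) ^ 3 - H.card) + ε * (n : ℝ) ^ 3 := by
  obtain ⟨K, n0, h⟩ := main i P (Fintype.card α + 1) hok hε
  refine ⟨1 / ((K : ℝ) + 1), by positivity, n0, fun n hn H h3 hK hl => ?_⟩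
  refine h n hn H h3 hK ?_
  have h1 := occ_link φ hP hφ hT hR H
  set s := Fintype.card α with hs
  have h2 : K * (linkSet F H).card ≤ n ^ (s + 1) := by
    have a1 : (K : ℝ) * (linkSet F H).card ≤ (n : ℝ) ^ (s + 1) := by
      rw [div_mul_eq_mul_div, one_mul, le_div_iff₀ (by positivity)] at hl
      have : (0 : ℝ) ≤ ((linkSet F H).card : ℝ) := Nat.cast_nonneg _
      nlinarith
    exact_mod_cast a1
  have h3 : s + 1 ≤ P.k * (s + 1) := Nat.le_mul_of_pos_left _ hP
  calc K * (occS (tri H) P (s + 1)).card ≤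
        K * ((linkSet F H).card * n ^ (P.k * (s + 1) - (s + 1))) := Nat.mul_le_mul_left _ h1
    _ = (K * (linkSet F H).card) * n ^ (P.k * (s + 1) - (s + 1)) := by ring
    _ ≤ n ^ (s + 1) * n ^ (P.k * (s + 1) - (s + 1)) := Nat.mul_le_mul_right _ h2
    _ = n ^ (P.k * (s + 1)) := by rw [← pow_add]; congr 1; omega

end Pool.Agent.Y47.BU
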