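import Mathlib

/-! Ramsey statements for pairs, for products and for `K_4^3`-free triple systems. -/

set_option autoImplicit false
open Finset

namespace Pool.Agent.Y47.BU

/-- end-homogeneous sequences -/
theorem endhom (C : Type) [Fintype C] [DecidableEq C] (s : ℕ) : ∃ N : ℕ, ∀ (α : Type) [LinearOrder α]
    (A : Finset α), N ≤ A.card → ∀ col : α → α → C, ∃ (B : Finset α) (h : α → C), B ⊆ A ∧
      B.card = s ∧ ∀ a ∈ B, ∀ b ∈ B, a < b → col a b = h a := by
  classical
  induction s with
  | zero =>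
    exact ⟨0, fun α _ A _ col => ⟨∅, fun a => col a a, empty_subset _, card_empty,
      fun a ha => absurd ha (notMem_empty _)⟩⟩
  | succ s ih =>
    obtain ⟨N, hN⟩ := ih
    refine ⟨1 + Fintype.card C * N, fun α _ A hA col => ?_⟩
    have hne : A.Nonempty := card_pos.mp (by omega)
    set x0 := A.min' hne with hx0
    have h1 : (univ : Finset C).card * N ≤ (A.erase x0).card := by
      rw [card_erase_of_mem (min'_mem A hne), card_univ]
      omega
    obtain ⟨c, -, hc⟩ := exists_le_card_fiber_of_mul_le_card_of_maps_to (s := A.erase x0)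
      (t := (univ : Finset C)) (f := fun b => col x0 b) (fun _ _ => mem_univ _)
      ⟨col x0 x0, mem_univ _⟩ h1
    obtain ⟨B, h, hB, hs, hh⟩ := hN α _ hc col
    have hlt : ∀ b ∈ B, x0 < b := by
      intro b hb
      have h2 := mem_filter.mp (hB hb)
      exact lt_of_le_of_ne (min'_le A b (mem_of_mem_erase h2.1)) (ne_of_mem_erase h2.1).symm
    have hnot : x0 ∉ B := fun hb => lt_irrefl _ (hlt x0 hb)
    refine ⟨insert x0 B, fun a => if a = x0 then c else h a, ?_, ?_, ?_⟩
    · intro b hb
      rcases mem_insert.mp hb with rfl | hb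
      · exact min'_mem A hne
      · exact mem_of_mem_erase (mem_filter.mp (hB hb)).1
    · rw [card_insert_of_notMem hnot, hs]
    · intro a ha b hb hab
      rcases mem_insert.mp ha with ha | ha
      · subst ha
        simp only [if_true]
        rcases mem_insert.mp hb with hb | hb
        · exact absurd hab (by rw [hb]; exact lt_irrefl _)
        · exact (mem_filter.mp (hB hb)).2
      · have hax : a ≠ x0 := fun e => hnot (by rw [← e]; exact ha)
        simp only [if_neg hax]
        rcases mem_insert.mp hb with hb | hb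
        · exact absurd (hlt a ha) (by rw [hb] at hab; exact not_lt.mpr hab.le)
        · exact hh a ha b hb hab

/-- Ramsey's theorem for pairs -/
theorem ramsey (C : Type) [Fintype C] [DecidableEq C] [Nonempty C] (t : ℕ) : ∃ N : ℕ, t ≤ N ∧
    ∀ (α : Type) [LinearOrder α] (A : Finset α), N ≤ A.card → ∀ col : α → α → C,
    ∃ (B : Finset α) (c : C), B ⊆ A ∧ B.card = t ∧ ∀ a ∈ B, ∀ b ∈ B, a < b → col a b = c := by
  classical
  obtain ⟨N, hN⟩ := endhom C (Fintype.card C * t)
  refine ⟨max N t, le_max_right _ _, fun α _ A hA col => ?_⟩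
  obtain ⟨B, h, hB, hs, hh⟩ := hN α A ((le_max_left _ _).trans hA) col
  obtain ⟨c, -, hc⟩ := exists_le_card_fiber_of_mul_le_card_of_maps_to (s := B)
    (t := (univ : Finset C)) (f := h) (fun _ _ => mem_univ _) univ_nonempty
    (by rw [card_univ, hs])
  obtain ⟨D, hD, hDt⟩ := exists_subset_card_eq hc
  refine ⟨D, c, ?_, hDt, ?_⟩
  · intro b hb
    exact hB (mem_filter.mp (hD hb)).1
  · intro a ha b hb hab
    have h1 := mem_filter.mp (hD ha)
    have h2 := mem_filter.mp (hD hb)
    rw [hh a h1.1 b h2.1 hab, h1.2]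

/-- pairs of one set and elements of another set -/
theorem bip (t : ℕ) : ∃ N : ℕ, t ≤ N ∧ ∀ (α : Type) [LinearOrder α] (A A' : Finset α),
    N ≤ A.card → N ≤ A'.card → ∀ g : α → α → α → Bool, ∃ (B B' : Finset α) (c : Bool),
    B ⊆ A ∧ B' ⊆ A' ∧ B.card = t ∧ B'.card = t ∧
    ∀ a ∈ B, ∀ b ∈ B, a < b → ∀ d ∈ B', g a b d = c := by
  classical
  obtain ⟨N, hNt, hN⟩ := ramsey (Fin (2 * t) → Bool) t
  refine ⟨max N (2 * t), hNt.trans (le_max_left _ _), fun α _ A A' hA hA' g => ?_⟩
  obtain ⟨D, hD, hDt⟩ := exists_subset_card_eq ((le_max_right N (2 * t)).trans hA')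
  obtain ⟨B, c, hB, hs, hh⟩ := hN α A ((le_max_left _ _).trans hA)
    (fun a b i => g a b (D.orderEmbOfFin hDt i))
  obtain ⟨v, -, hv⟩ := exists_le_card_fiber_of_mul_le_card_of_maps_to
    (s := (univ : Finset (Fin (2 * t)))) (t := (univ : Finset Bool)) (f := c) (n := t)
    (fun _ _ => mem_univ _) univ_nonempty (by simp)
  obtain ⟨I, hI, hIt⟩ := exists_subset_card_eq hv
  refine ⟨B, I.map (D.orderEmbOfFin hDt).toEmbedding, v, hB, ?_, hs, by rw [card_map, hIt], ?_⟩
  · intro b hb
    obtain ⟨i, -, rfl⟩ := mem_map.mp hb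
    exact hD (orderEmbOfFin_mem D hDt i)
  · intro a ha b hb hab d hd
    obtain ⟨i, hi, rfl⟩ := mem_map.mp hd
    have h1 := congrFun (hh a ha b hb hab) i
    have h2 := (mem_filter.mp (hI hi)).2
    rw [h2] at h1
    exact h1

/-- independent sets in triple systems without complete 4-sets -/
theorem ind3 (t : ℕ) : ∃ N : ℕ, t ≤ N ∧ ∀ (α : Type) [LinearOrder α] (A : Finset α), N ≤ A.card →
    ∀ g : α → α → α → Bool, (∀ a ∈ A, ∀ b ∈ A, ∀ c ∈ A, ∀ d ∈ A, a < b → b < c → c < d →
      g a b c = true → g a b d = true → g a c d = true → g b c d = true → False) →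
    ∃ B : Finset α, B ⊆ A ∧ B.card = t ∧
      ∀ a ∈ B, ∀ b ∈ B, ∀ c ∈ B, a < b → b < c → g a b c = false := by
  classical
  induction t with
  | zero =>
    exact ⟨0, le_refl _, fun α _ A _ g _ => ⟨∅, empty_subset _, card_empty,
      fun a ha => absurd ha (notMem_empty _)⟩⟩
  | succ t ih =>
    obtain ⟨N, -, hN⟩ := ih
    obtain ⟨M, hM, hR⟩ := ramsey Bool (max N (t + 1))
    refine ⟨1 + M, by have := (le_max_right N (t + 1)).trans hM; omega, fun α _ A hA g hg => ?_⟩
    have hne : A.Nonempty := card_pos.mp (by omega)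
    set x0 := A.min' hne with hx0
    have hx0A : x0 ∈ A := min'_mem A hne
    have h1 : M ≤ (A.erase x0).card := by
      rw [card_erase_of_mem hx0A]
      omega
    obtain ⟨B, c, hB, hs, hh⟩ := hR α _ h1 (fun a b => g x0 a b)
    have hBA : ∀ b ∈ B, b ∈ A := fun b hb => mem_of_mem_erase (hB hb)
    have hlt : ∀ b ∈ B, x0 < b := fun b hb =>
      lt_of_le_of_ne (min'_le A b (hBA b hb)) (ne_of_mem_erase (hB hb)).symm
    cases c with
    | true =>
      obtain ⟨D, hD, hDt⟩ := exists_subset_card_eq (s := B) (n := t + 1)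
        (by rw [hs]; exact le_max_right _ _)
      refine ⟨D, fun b hb => hBA b (hD hb), hDt, fun a ha b hb c hc hab hbc => ?_⟩
      by_contra hne2
      have ha' := hD ha
      have hb' := hD hb
      have hc' := hD hc
      exact hg x0 hx0A a (hBA a ha') b (hBA b hb') c (hBA c hc') (hlt a ha') hab hbc
        (hh a ha' b hb' hab) (hh a ha' c hc' (hab.trans hbc)) (hh b hb' c hc' hbc)
        (by simpa using hne2)
    | false =>
      obtain ⟨D, hD, hDt, hDh⟩ := hN α B (by rw [hs]; exact le_max_left _ _) g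
        (fun a ha b hb c hc d hd => hg a (hBA a ha) b (hBA b hb) c (hBA c hc) d (hBA d hd))
      have hnot : x0 ∉ D := fun hb => lt_irrefl _ (hlt x0 (hD hb))
      refine ⟨insert x0 D, ?_, by rw [card_insert_of_notMem hnot, hDt], ?_⟩
      · intro b hb
        rcases mem_insert.mp hb with rfl | hb
        · exact hx0A
        · exact hBA b (hD hb)
      · intro a ha b hb c hc hab hbc
        have key : ∀ b ∈ insert x0 D, a < b → b ∈ D := by
          intro b hb hab
          rcases mem_insert.mp hb with hb | hb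
          · rcases mem_insert.mp ha with ha | ha
            · rw [ha, hb] at hab
              exact absurd hab (lt_irrefl _)
            · rw [hb] at hab
              exact absurd (hlt a (hD ha)) (not_lt.mpr hab.le)
          · exact hb
        have hbD := key b hb hab
        have hcD := key c hc (hab.trans hbc)
        rcases mem_insert.mp ha with ha | ha
        · rw [ha]
          exact hh b (hD hbD) c (hD hcD) hbc
        · exact hDh a ha b hbD c hcD hab hbc

/-- all ordered pairs of a list -/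
theorem prod_ram {ι : Type} [DecidableEq ι] (L : List (ι × ι)) (hL : ∀ p ∈ L, p.1 ≠ p.2) (t : ℕ) :
    ∃ N : ℕ, t ≤ N ∧ ∀ (α : Type) [LinearOrder α] (A : ι → Finset α), (∀ i, N ≤ (A i).card) →
      ∀ g : ι → ι → α → α → α → Bool, ∃ B : ι → Finset α, (∀ i, B i ⊆ A i ∧ (B i).card = t) ∧
        ∀ p ∈ L, ∃ c, ∀ a ∈ B p.1, ∀ b ∈ B p.1, a < b → ∀ d ∈ B p.2, g p.1 p.2 a b d = c := by
  classical
  induction L generalizing t with
  | nil =>
    refine ⟨t, le_refl _, fun α _ A hA g => ?_⟩
    have h1 : ∀ i, ∃ B ⊆ A i, B.card = t := fun i => exists_subset_card_eq (hA i)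
    choose B hB hBt using h1
    exact ⟨B, fun i => ⟨hB i, hBt i⟩, fun p hp => absurd hp List.not_mem_nil⟩
  | cons p L ih =>
    obtain ⟨M, hM, hR⟩ := bip t
    obtain ⟨N, hN, hI⟩ := ih (fun q hq => hL q (List.mem_cons_of_mem _ hq)) M
    refine ⟨N, hM.trans hN, fun α _ A hA g => ?_⟩
    obtain ⟨B, hB, hh⟩ := hI α A hA g
    obtain ⟨D, D', c, hD, hD', hDt, hDt', hc⟩ := hR α (B p.1) (B p.2) (hB p.1).2.ge (hB p.2).2.ge
      (g p.1 p.2)
    have h1 : ∀ i, ∃ B' ⊆ B i, B'.card = t := fun i => exists_subset_card_eq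
      (hM.trans (hB i).2.ge)
    choose B' hB' hBt' using h1
    have hp := hL p List.mem_cons_self
    set F : ι → Finset α := fun i => if i = p.1 then D else if i = p.2 then D' else B' i with hF
    have F1 : F p.1 = D := by simp [hF]
    have F2 : F p.2 = D' := by simp [hF, hp.symm]
    have hFB : ∀ i, F i ⊆ B i ∧ (F i).card = t := by
      intro i
      by_cases e1 : i = p.1
      · rw [e1, F1]; exact ⟨hD, hDt⟩
      · by_cases e2 : i = p.2
        · rw [e2, F2]; exact ⟨hD', hDt'⟩
        · have e3 : F i = B' i := by simp [hF, e1, e2]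
          rw [e3]; exact ⟨hB' i, hBt' i⟩
    refine ⟨F, fun i => ⟨(hFB i).1.trans (hB i).1, (hFB i).2⟩, fun q hq => ?_⟩
    rcases List.mem_cons.mp hq with rfl | hq
    · refine ⟨c, ?_⟩
      rw [F1, F2]
      exact hc
    · obtain ⟨c', hc'⟩ := hh q hq
      exact ⟨c', fun a ha b hb hab d hd => hc' a ((hFB _).1 ha) b ((hFB _).1 hb) hab d
        ((hFB _).1 hd)⟩

end Pool.Agent.Y47.BU
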