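import Pool.Agent.Y47.BU.Snd
import Pool.Agent.Y47.BU.Ram
import Pool.Agent.Y47.BU.Cnt
import Pool.Agent.TH773.CM.Cnt

/-! A six-vertex pattern with a valid tree has few copies if the pattern `P` has few blow-ups. -/

set_option autoImplicit false
set_option maxRecDepth 100000
open Finset
open scoped Classical

namespace Pool.Agent.Y47.BU
open Pool.Agent.H122R2.N6 Pool.Agent.H37R3.Pen Pool.Agent.H37R3.Cop
open Pool.Agent.TH773.CL (tx)
open Pool.Agent.TH773.CM (s3 s3_213 s3_132 s3_sorted u3 CpK cpS mem_cpS)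

theorem sy_all {V : Type} {E : V → V → V → ℕ} (hE : Sy E) {t : ℕ} {z : Fin t → V}
    (h : ∀ a b d : Fin t, a < b → b < d → E (z a) (z b) (z d) = 0) (a b d : Fin t) (hab : a ≠ b)
    (had : a ≠ d) (hbd : b ≠ d) : E (z a) (z b) (z d) = 0 := by
  rcases lt_or_gt_of_ne hab with h1 | h1 <;> rcases lt_or_gt_of_ne had with h2 | h2 <;>
    rcases lt_or_gt_of_ne hbd with h3 | h3
  · exact h a b d h1 h3
  · rw [← hE.h132]; exact h a d b h2 h3
  · exact absurd (h1.trans h3) (not_lt.mpr h2.le)
  · rw [← hE.h312]; exact h d a b h2 h1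
  · rw [← hE.h213]; exact h b a d h1 h2
  · exact absurd (h1.trans h2) (not_lt.mpr h3.le)
  · rw [← hE.h231]; exact h b d a h3 h2
  · rw [hE.h213 (z b) (z a) (z d), hE.h132 (z b) (z d) (z a), hE.h213 (z d) (z b) (z a)]
    exact h d b a h3 h1

/-- every large blow-up of the pattern `m` contains a blow-up of `P` -/
theorem ram_occ (P : Pt) (t0 m : ℕ) (tr : Tr) (hc : chk P m [] tr = true) : ∃ T : ℕ, 0 < T ∧
    P.k * t0 ≤ 6 * T ∧ ∀ (V : Type) (E : V → V → V → ℕ), Sy E → NoK4 E → ∀ y : Fin 6 → Fin T → V,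
      (∀ i a j b, y i a = y j b → i = j ∧ a = b) →
      (∀ f : Fin 6 → Fin T, CpK E 6 m fun i => y i (f i)) →
      ∃ e : Fin P.k × Fin t0 → Fin 6 × Fin T, Function.Injective e ∧
        Occ E P t0 fun q => y (e q).1 (e q).2 := by
  set t := max (P.k * t0) 2 with ht
  obtain ⟨N, hNt, hN⟩ := prod_ram ((univ.filter fun p : Fin 6 × Fin 6 => p.1 ≠ p.2).toList)
    (fun p hp => (mem_filter.mp (mem_toList.mp hp)).2) t
  obtain ⟨T, hTN, hT⟩ := ind3 N
  have ht2 : 2 ≤ t := le_max_right _ _
  have ht3 : P.k * t0 ≤ t := le_max_left _ _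
  refine ⟨T, by omega, by omega, fun V E hE hK y hy hm => ?_⟩
  have h1 : ∀ i : Fin 6, ∃ A : Finset (Fin T), A ⊆ univ ∧ A.card = N ∧
      ∀ a ∈ A, ∀ b ∈ A, ∀ d ∈ A, a < b → b < d → decide (E (y i a) (y i b) (y i d) = 1) = false := by
    intro i
    refine hT (Fin T) univ (by rw [card_univ, Fintype.card_fin])
      (fun a b d => decide (E (y i a) (y i b) (y i d) = 1)) ?_
    intro a _ b _ c _ d _ _ _ _ e1 e2 e3 e4
    have h5 := hK (y i a) (y i b) (y i c) (y i d)
    rw [of_decide_eq_true e1, of_decide_eq_true e2, of_decide_eq_true e3,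
      of_decide_eq_true e4] at h5
    exact absurd h5 (by decide)
  choose A _ hAN hA using h1
  obtain ⟨B, hB, hBc⟩ := hN (Fin T) A (fun i => (hAN i).ge)
    (fun i j a b d => decide (E (y i a) (y i b) (y j d) = 1))
  have h2 : ∀ i j : Fin 6, ∃ c : Bool, i ≠ j → ∀ a ∈ B i, ∀ b ∈ B i, a < b → ∀ d ∈ B j,
      decide (E (y i a) (y i b) (y j d) = 1) = c := by
    intro i j
    by_cases hij : i = j
    · exact ⟨true, fun h => absurd hij h⟩
    · obtain ⟨c, hc⟩ := hBc (i, j) (mem_toList.mpr (mem_filter.mpr ⟨mem_univ _, hij⟩))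
      exact ⟨c, fun _ => hc⟩
  choose c hcc using h2
  have hbit : ∀ x y z : V, E x y z = 0 ∨ E x y z = 1 := fun x y z => hE.b x y z
  let c' : ℕ → ℕ → ℕ := fun i j => if h : i < 6 ∧ j < 6 then
    (if c ⟨i, h.1⟩ ⟨j, h.2⟩ = true then 1 else 0) else 0
  have hc01 : ∀ i j, c' i j = 0 ∨ c' i j = 1 := by
    intro i j
    change (if h : i < 6 ∧ j < 6 then (if c ⟨i, h.1⟩ ⟨j, h.2⟩ = true then 1 else 0) else 0) = 0 ∨
      (if h : i < 6 ∧ j < 6 then (if c ⟨i, h.1⟩ ⟨j, h.2⟩ = true then 1 else 0) else 0) = 1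
    split_ifs <;> simp
  let ι : (i : Fin 6) → Fin t ↪o Fin T := fun i => (B i).orderEmbOfFin (hB i).2
  have hι : ∀ i a, ι i a ∈ B i := fun i a => orderEmbOfFin_mem (B i) (hB i).2 a
  have par1 : ∀ i j : Fin 6, i ≠ j → ∀ a b, a < b → ∀ d,
      E (y i (ι i a)) (y i (ι i b)) (y j (ι j d)) = c' i j := by
    intro i j hij a b hab d
    have e1 := hcc i j hij (ι i a) (hι i a) (ι i b) (hι i b) ((ι i).lt_iff_lt.mpr hab) (ι j d)
      (hι j d)
    have e2 : c' i j = if c i j = true then 1 else 0 := by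
      change (if h : i.val < 6 ∧ j.val < 6 then
        (if c ⟨i.val, h.1⟩ ⟨j.val, h.2⟩ = true then 1 else 0) else 0) = _
      rw [dif_pos ⟨i.isLt, j.isLt⟩]
    rw [e2, ← e1]
    rcases hbit (y i (ι i a)) (y i (ι i b)) (y j (ι j d)) with h | h <;> simp [h]
  have hH : Hom E m c' t fun i a => y i (ι i a) := by
    refine ⟨?_, ?_, ?_, ?_⟩
    · intro i a j b h
      obtain ⟨e1, e2⟩ := hy _ _ _ _ h
      subst e1
      exact ⟨rfl, (ι i).injective e2⟩
    · intro i j l hij hjl a b d
      have e1 := hm (fun s => if s = i then ι i a else if s = j then ι j b else ι l d) i j l hij hjl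
      simp only [if_true, if_neg hij.ne', if_neg (hij.trans hjl).ne', if_neg hjl.ne'] at e1
      exact e1
    · intro i j hij a b hab d
      rcases lt_or_gt_of_ne hab with h | h
      · exact par1 i j hij a b h d
      · rw [← hE.h213]; exact par1 i j hij b a h d
    · intro i a b d hab had hbd
      refine sy_all hE (z := fun a => y i (ι i a)) ?_ a b d hab had hbd
      intro a b d hab hbd
      have e1 := hA i (ι i a) ((hB i).1 (hι i a)) (ι i b) ((hB i).1 (hι i b)) (ι i d)
        ((hB i).1 (hι i d)) ((ι i).lt_iff_lt.mpr hab) ((ι i).lt_iff_lt.mpr hbd)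
      rcases hbit (y i (ι i a)) (y i (ι i b)) (y i (ι i d)) with h | h
      · exact h
      · rw [h] at e1
        simp at e1
  obtain ⟨e, he, hO⟩ := chk_sound hE hK hH hc01 ht2 (le_max_left _ _) tr []
    (fun i j _ _ => Or.inl rfl) hc (t0 := t0)
  refine ⟨fun q => ((e q).1, ι (e q).1 (e q).2), ?_, hO⟩
  intro q q' h
  have h3 := (Prod.mk.inj h).1
  have h4 := (Prod.mk.inj h).2
  have h5 : ι (e q).1 (e q).2 = ι (e q).1 (e q').2 := by
    rw [h4]
    simp only [h3]
  exact he (Prod.ext h3 ((ι (e q).1).injective h5))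

section
variable {V : Type} [Fintype V]

theorem pull {A B : Type} [Fintype A] [Fintype B] (e : A → B) (he : Function.Injective e)
    (s : Finset (B → V)) (t : Finset (A → V)) (h : ∀ w ∈ s, w ∘ e ∈ t) :
    s.card ≤ t.card * Fintype.card V ^ (Fintype.card B - Fintype.card A) := by
  have h1 : s.card ≤ (t ×ˢ (univ : Finset ({j : B // j ∉ Set.range e} → V))).card := by
    refine card_le_card_of_injOn (fun w => (w ∘ e, fun j => w j.1)) ?_ ?_
    · intro w hw
      exact mem_coe.mpr (mem_product.mpr ⟨h w hw, mem_univ _⟩)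
    · intro w _ w' _ h
      have ha := (Prod.mk.inj h).1
      have hb := (Prod.mk.inj h).2
      funext j
      by_cases hj : j ∈ Set.range e
      · obtain ⟨i, rfl⟩ := hj
        exact congrFun ha i
      · exact congrFun hb ⟨j, hj⟩
  refine h1.trans (le_of_eq ?_)
  rw [card_product, card_univ (α := {j : B // j ∉ Set.range e} → V), Fintype.card_fun]
  have h2 : Fintype.card {j : B // j ∉ Set.range e} = Fintype.card B - Fintype.card A := by
    rw [Fintype.card_subtype_compl]
    have h3 : Fintype.card {j : B // j ∈ Set.range e} = Fintype.card A :=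
      (Fintype.card_congr (Equiv.ofInjective e he)).symm
    rw [h3]
  rw [h2]

theorem coll {B : Type} [Fintype B] (a b : B) (hab : a ≠ b) :
    ((univ : Finset (B → V)).filter fun w => w a = w b).card ≤
      Fintype.card V ^ (Fintype.card B - 1) := by
  have h1 : ((univ : Finset (B → V)).filter fun w => w a = w b).card ≤
      (univ : Finset ({j : B // j ≠ b} → V)).card := by
    refine card_le_card_of_injOn (fun w j => w j.1) (fun _ _ => mem_coe.mpr (mem_univ _)) ?_
    intro w hw w' hw' h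
    have a1 := (mem_filter.mp (mem_coe.mp hw)).2
    have a2 := (mem_filter.mp (mem_coe.mp hw')).2
    funext j
    by_cases hj : j = b
    · subst hj
      rw [← a1, ← a2]
      exact congrFun h ⟨a, hab⟩
    · exact congrFun h ⟨j, hj⟩
  refine h1.trans (le_of_eq ?_)
  rw [card_univ, Fintype.card_fun]
  congr 1
  rw [Fintype.card_subtype_compl, Fintype.card_subtype_eq]

/-- the blow-ups of the pattern `P` -/
noncomputable def occS (E : V → V → V → ℕ) (P : Pt) (t : ℕ) : Finset (Fin P.k × Fin t → V) :=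
  univ.filter fun w => Occ E P t w

end
end Pool.Agent.Y47.BU
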