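import Pool.Agent.Y47.BU.Neg

/-! The counting step. -/

set_option autoImplicit false
set_option maxRecDepth 100000
open Finset
open scoped Classical

namespace Pool.Agent.Y47.BU
open Pool.Agent.H122R2.N6 Pool.Agent.H37R3.Pen Pool.Agent.H37R3.Cop
open Pool.Agent.TH773.CL (tx)
open Pool.Agent.TH773.CM (CpK cpS mem_cpS)

/-- covering of the blow-ups -/
theorem cover {P : Pt} {t0 m T : ℕ} (hT : ∀ (V : Type) (E : V → V → V → ℕ), Sy E → NoK4 E →
    ∀ y : Fin 6 → Fin T → V, (∀ i a j b, y i a = y j b → i = j ∧ a = b) →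
      (∀ f : Fin 6 → Fin T, CpK E 6 m fun i => y i (f i)) →
      ∃ e : Fin P.k × Fin t0 → Fin 6 × Fin T, Function.Injective e ∧
        Occ E P t0 fun q => y (e q).1 (e q).2)
    {V : Type} [Fintype V] {E : V → V → V → ℕ} (hE : Sy E) (hK : NoK4 E) :
    (Bl 6 T (cpS E 6 m)).card ≤ (6 * T) ^ 2 * Fintype.card V ^ (6 * T - 1) +
      (6 * T) ^ (P.k * t0) * ((occS E P t0).card * Fintype.card V ^ (6 * T - P.k * t0)) := by
  have cB : Fintype.card (Fin 6 × Fin T) = 6 * T := by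
    rw [Fintype.card_prod, Fintype.card_fin, Fintype.card_fin]
  have cA : Fintype.card (Fin P.k × Fin t0) = P.k * t0 := by
    rw [Fintype.card_prod, Fintype.card_fin, Fintype.card_fin]
  let C : (Fin 6 × Fin T) × (Fin 6 × Fin T) → Finset (Fin 6 × Fin T → V) := fun p =>
    univ.filter fun w => w p.1 = w p.2
  let O : (Fin P.k × Fin t0 → Fin 6 × Fin T) → Finset (Fin 6 × Fin T → V) := fun e =>
    univ.filter fun w => w ∘ e ∈ occS E P t0
  have h1 : ((Bl 6 T (cpS E 6 m)).image fun (y : Fin 6 → Fin T → V) (q : Fin 6 × Fin T) =>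
      y q.1 q.2) ⊆ ((univ : Finset ((Fin 6 × Fin T) × (Fin 6 × Fin T))).filter
        fun p => p.1 ≠ p.2).biUnion C ∪
      ((univ : Finset (Fin P.k × Fin t0 → Fin 6 × Fin T)).filter
        fun e => Function.Injective e).biUnion O := by
    intro w hw
    obtain ⟨y, hy, rfl⟩ := mem_image.mp hw
    have hy2 := (mem_filter.mp hy).2
    by_cases hinj : Function.Injective fun q : Fin 6 × Fin T => y q.1 q.2
    · refine mem_union_right _ ?_
      obtain ⟨e, he, hO⟩ := hT V E hE hK y (fun i a j b h => by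
        have h2 := @hinj (i, a) (j, b) h
        exact ⟨(Prod.mk.inj h2).1, (Prod.mk.inj h2).2⟩) (fun f => (mem_cpS.mp (hy2 f)).2)
      exact mem_biUnion.mpr ⟨e, mem_filter.mpr ⟨mem_univ _, he⟩,
        mem_filter.mpr ⟨mem_univ _, mem_filter.mpr ⟨mem_univ _, hO⟩⟩⟩
    · refine mem_union_left _ ?_
      rw [Function.not_injective_iff] at hinj
      obtain ⟨a, b, hab, hne⟩ := hinj
      exact mem_biUnion.mpr ⟨(a, b), mem_filter.mpr ⟨mem_univ _, hne⟩,
        mem_filter.mpr ⟨mem_univ _, hab⟩⟩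
  have h2 : ((Bl 6 T (cpS E 6 m)).image fun (y : Fin 6 → Fin T → V) (q : Fin 6 × Fin T) =>
      y q.1 q.2).card = (Bl 6 T (cpS E 6 m)).card := by
    refine card_image_of_injective _ ?_
    intro y y' h
    funext i a
    exact congrFun h (i, a)
  rw [← h2]
  refine (card_le_card h1).trans ((card_union_le _ _).trans (Nat.add_le_add ?_ ?_))
  · refine (card_biUnion_le).trans ((sum_le_card_nsmul _ _ (Fintype.card V ^ (6 * T - 1)) ?_).trans ?_)
    · intro p hp
      have h3 := coll (V := V) p.1 p.2 (mem_filter.mp hp).2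
      rw [cB] at h3
      refine le_trans (le_of_eq (congrArg card ?_)) h3
      ext w
      simp only [C, mem_filter, mem_univ, true_and]
    · rw [smul_eq_mul]
      refine Nat.mul_le_mul_right _ ((card_filter_le _ _).trans (le_of_eq ?_))
      rw [card_univ, Fintype.card_prod, cB]
      ring
  · refine (card_biUnion_le).trans ((sum_le_card_nsmul _ _
      ((occS E P t0).card * Fintype.card V ^ (6 * T - P.k * t0)) ?_).trans ?_)
    · intro e he
      have h3 := pull (V := V) e (mem_filter.mp he).2 (O e) (occS E P t0)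
        (fun w hw => (mem_filter.mp hw).2)
      rw [cB, cA] at h3
      exact h3
    · rw [smul_eq_mul]
      refine Nat.mul_le_mul_right _ ((card_filter_le _ _).trans (le_of_eq ?_))
      rw [card_univ, Fintype.card_fun, cB, cA]

/-- a pattern with a valid tree is negligible -/
theorem neg (P : Pt) (t0 m : ℕ) (tr : Tr) (hc : chk P m [] tr = true) : ∀ κ : ℕ, ∃ K n0 : ℕ,
    ∀ (V : Type) [Fintype V] (E : V → V → V → ℕ), Sy E → NoK4 E →
      K * (occS E P t0).card ≤ Fintype.card V ^ (P.k * t0) → n0 ≤ Fintype.card V →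
      κ * (cpS E 6 m).card ≤ Fintype.card V ^ 6 := by
  intro κ
  obtain ⟨T, hT0, hkT, hT⟩ := ram_occ P t0 m tr hc
  set D := T ^ 6 with hD
  set M := (6 * T) ^ (P.k * t0) with hM
  refine ⟨2 * M * κ ^ D + 1, 2 * (6 * T) ^ 2 * κ ^ D + 1, fun V _ E hE hK hO hn => ?_⟩
  by_contra hneg
  rw [not_le] at hneg
  set S := cpS E 6 m with hS
  set nn := Fintype.card V with hnn
  have hn0 : 0 < nn := by omega
  have hκ : 0 < κ := by
    rcases Nat.eq_zero_or_pos κ with e | e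
    · rw [e, Nat.zero_mul] at hneg
      exact absurd hneg (Nat.not_lt_zero _)
    · exact e
  have hnr : (0 : ℝ) < (nn : ℝ) := by exact_mod_cast hn0
  have hκr : (0 : ℝ) < (κ : ℝ) := by exact_mod_cast hκ
  have b1 := bl_card (V := V) (n := (nn : ℝ)) (by rw [hnn]) hnr hT0 6 S
  have hδ : (1 : ℝ) / κ ≤ (S.card : ℝ) / (nn : ℝ) ^ 6 := by
    rw [div_le_div_iff₀ hκr (by positivity), one_mul]
    have h1 : ((nn ^ 6 : ℕ) : ℝ) ≤ ((κ * S.card : ℕ) : ℝ) := by exact_mod_cast hneg.le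
    push_cast at h1
    linarith [mul_comm (κ : ℝ) S.card]
  have b2 : (nn : ℝ) ^ (6 * T) * (1 / κ) ^ D ≤ ((Bl 6 T S).card : ℝ) := by
    refine le_trans ?_ b1
    refine mul_le_mul_of_nonneg_left ?_ (by positivity)
    exact pow_le_pow_left₀ (by positivity) hδ _
  have b3 : ((Bl 6 T S).card : ℝ) ≤ (6 * T) ^ 2 * (nn : ℝ) ^ (6 * T - 1) +
      M * ((occS E P t0).card * (nn : ℝ) ^ (6 * T - P.k * t0)) := by
    have h1 := cover hT (E := E) hE hK
    have h2 : (((Bl 6 T S).card : ℕ) : ℝ) ≤ (((6 * T) ^ 2 * nn ^ (6 * T - 1) +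
      M * ((occS E P t0).card * nn ^ (6 * T - P.k * t0)) : ℕ) : ℝ) := by exact_mod_cast h1
    push_cast at h2
    exact h2
  -- the two terms
  have e1 : (nn : ℝ) ^ (6 * T - 1) = (nn : ℝ) ^ (6 * T) / nn := by
    rw [eq_div_iff hnr.ne', ← pow_succ]
    congr 1
    omega
  have hκD : (0 : ℝ) < (κ : ℝ) ^ D := by positivity
  have t1 : (6 * T : ℝ) ^ 2 * (nn : ℝ) ^ (6 * T - 1) <
      (nn : ℝ) ^ (6 * T) * ((1 / κ) ^ D / 2) := by
    rw [e1, one_div, inv_pow]
    have h1 : ((2 * (6 * T) ^ 2 * κ ^ D + 1 : ℕ) : ℝ) ≤ (nn : ℝ) := by exact_mod_cast hn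
    push_cast at h1
    have h2 : (2 : ℝ) * (6 * T) ^ 2 * κ ^ D < nn := by linarith
    have h3 : (6 * T : ℝ) ^ 2 / nn < ((κ : ℝ) ^ D)⁻¹ / 2 := by
      rw [div_lt_iff₀ hnr]
      have h4 : ((κ : ℝ) ^ D)⁻¹ / 2 * (2 * (6 * T) ^ 2 * κ ^ D) = (6 * T) ^ 2 := by
        field_simp
      calc (6 * T : ℝ) ^ 2 = ((κ : ℝ) ^ D)⁻¹ / 2 * (2 * (6 * T) ^ 2 * κ ^ D) := h4.symm
        _ < ((κ : ℝ) ^ D)⁻¹ / 2 * nn := mul_lt_mul_of_pos_left h2 (by positivity)
    calc (6 * T : ℝ) ^ 2 * ((nn : ℝ) ^ (6 * T) / nn) = (nn : ℝ) ^ (6 * T) *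
          ((6 * T : ℝ) ^ 2 / nn) := by ring
      _ < _ := mul_lt_mul_of_pos_left h3 (by positivity)
  have t2 : (M : ℝ) * ((occS E P t0).card * (nn : ℝ) ^ (6 * T - P.k * t0)) ≤
      (nn : ℝ) ^ (6 * T) * ((1 / κ) ^ D / 2) := by
    rw [one_div, inv_pow]
    rcases Nat.eq_zero_or_pos (occS E P t0).card with e0 | e0
    · rw [e0]
      simp only [Nat.cast_zero, zero_mul, mul_zero]
      positivity
    · have h1 : (((2 * M * κ ^ D + 1) * (occS E P t0).card : ℕ) : ℝ) ≤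
          ((nn ^ (P.k * t0) : ℕ) : ℝ) := by exact_mod_cast hO
      push_cast at h1
      have h2 : (2 : ℝ) * M * κ ^ D * (occS E P t0).card ≤ (nn : ℝ) ^ (P.k * t0) := by
        have h3 : (0 : ℝ) ≤ ((occS E P t0).card : ℝ) := Nat.cast_nonneg _
        nlinarith
      have h3 : (nn : ℝ) ^ (6 * T) = (nn : ℝ) ^ (P.k * t0) * (nn : ℝ) ^ (6 * T - P.k * t0) := by
        rw [← pow_add]
        congr 1
        omega
      rw [h3]
      have h4 : (M : ℝ) * (occS E P t0).card ≤ (nn : ℝ) ^ (P.k * t0) * (((κ : ℝ) ^ D)⁻¹ / 2) := by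
        have h5 : (M : ℝ) * (occS E P t0).card =
            (2 * M * κ ^ D * (occS E P t0).card) * (((κ : ℝ) ^ D)⁻¹ / 2) := by
          field_simp
        rw [h5]
        exact mul_le_mul_of_nonneg_right h2 (by positivity)
      calc (M : ℝ) * ((occS E P t0).card * (nn : ℝ) ^ (6 * T - P.k * t0)) =
            ((M : ℝ) * (occS E P t0).card) * (nn : ℝ) ^ (6 * T - P.k * t0) := by ring
        _ ≤ ((nn : ℝ) ^ (P.k * t0) * (((κ : ℝ) ^ D)⁻¹ / 2)) * (nn : ℝ) ^ (6 * T - P.k * t0) :=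
            mul_le_mul_of_nonneg_right h4 (by positivity)
        _ = _ := by ring
  have b4 : (nn : ℝ) ^ (6 * T) * (1 / κ) ^ D < (nn : ℝ) ^ (6 * T) * (1 / κ) ^ D := by
    calc (nn : ℝ) ^ (6 * T) * (1 / κ) ^ D ≤ _ := b2
      _ ≤ _ := b3
      _ < (nn : ℝ) ^ (6 * T) * ((1 / κ) ^ D / 2) + (nn : ℝ) ^ (6 * T) * ((1 / κ) ^ D / 2) :=
          add_lt_add_of_lt_of_le t1 t2
      _ = _ := by ring
  exact lt_irrefl _ b4

end Pool.Agent.Y47.BU
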