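import Pool.Agent.Y47.BU.OTur

/-! Five families of order-size pairs which do not occur in Turán's construction. -/

set_option autoImplicit false
set_option maxRecDepth 100000

namespace Pool.Agent.Y47.BU

/-- five families of pairs -/
def Line (k m : ℕ) : Prop :=
  (5 ≤ k ∧ (m + 5 = 2 * k ∨ m + 6 = 2 * k)) ∨ (6 ≤ k ∧ m + 12 = 3 * k) ∨
    (7 ≤ k ∧ (m + 14 = 4 * k ∨ m + 18 = 5 * k))

theorem nz {x y z k w : ℤ} (hx : 1 ≤ x) (hy : 1 ≤ y) (hz : 1 ≤ z) (hk : x + y + z = k)
    (h : (5 ≤ k ∧ (w = 4 * k - 10 ∨ w = 4 * k - 12)) ∨ (6 ≤ k ∧ w = 6 * k - 24) ∨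
      (7 ≤ k ∧ (w = 8 * k - 28 ∨ w = 10 * k - 36))) : F2 x y z ≠ w := by
  have hb := big hx hy hz
  rw [hk] at hb
  have p1 : 0 ≤ (x - 1) * (y - 1) * x :=
    mul_nonneg (mul_nonneg (by linarith) (by linarith)) (by linarith)
  have p2 : 0 ≤ (y - 1) * (z - 1) * y :=
    mul_nonneg (mul_nonneg (by linarith) (by linarith)) (by linarith)
  have p3 : 0 ≤ (z - 1) * (x - 1) * z :=
    mul_nonneg (mul_nonneg (by linarith) (by linarith)) (by linarith)
  rcases h with ⟨h5, h | h⟩ | ⟨h6, h⟩ | ⟨h7, h | h⟩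
  · have := mul_nonneg (show (0 : ℤ) ≤ k - 5 by linarith) (show (0 : ℤ) ≤ k by linarith)
    intro e; nlinarith
  · have := mul_nonneg (show (0 : ℤ) ≤ k - 5 by linarith) (show (0 : ℤ) ≤ k by linarith)
    intro e; nlinarith
  · have := mul_nonneg (show (0 : ℤ) ≤ k - 6 by linarith) (show (0 : ℤ) ≤ k by linarith)
    intro e; nlinarith
  · have := mul_nonneg (show (0 : ℤ) ≤ k - 7 by linarith) (show (0 : ℤ) ≤ k by linarith)
    intro e; nlinarith
  · by_cases h9 : 9 ≤ k
    · have := mul_nonneg (show (0 : ℤ) ≤ k - 9 by linarith) (show (0 : ℤ) ≤ k by linarith)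
      intro e; nlinarith
    · have hx' : x ≤ 6 := by omega
      have hy' : y ≤ 6 := by omega
      have hz' : z ≤ 6 := by omega
      have hk' : k = 7 ∨ k = 8 := by omega
      subst h
      have hz2 : z = k - x - y := by linarith
      subst hz2
      clear hb p1 p2 p3 hk
      rcases hk' with rfl | rfl
      · interval_cases x <;> interval_cases y <;> first | omega | (unfold F2; norm_num)
      · interval_cases x <;> interval_cases y <;> first | omega | (unfold F2; norm_num)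

theorem gz {a b k w : ℤ} (ha : 0 ≤ a) (hb : 0 ≤ b) (hk : a + b = k)
    (h : (5 ≤ k ∧ (w = 4 * k - 10 ∨ w = 4 * k - 12)) ∨ (6 ≤ k ∧ w = 6 * k - 24) ∨
      (7 ≤ k ∧ (w = 8 * k - 28 ∨ w = 10 * k - 36))) : a * (a - 1) * b ≠ w := by
  by_cases ha8 : a ≤ 7
  · interval_cases a <;> omega
  · have ha' : 8 ≤ a := by omega
    rcases eq_or_lt_of_le hb with hb0 | hb0
    · rw [← hb0]
      intro e
      omega
    · have hb1 : 1 ≤ b := by omega
      have q1 : 0 ≤ (b - 1) * (a * (a - 1) - 10) := mul_nonneg (by linarith) (by nlinarith)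
      have q2 : 0 ≤ (a - 8) * (a - 3) := mul_nonneg (by linarith) (by linarith)
      intro e
      have e2 : a * (a - 1) * b = (b - 1) * (a * (a - 1) - 10) + a * (a - 1) + 10 * b - 10 := by
        ring
      rcases h with ⟨h5, h | h⟩ | ⟨h6, h⟩ | ⟨h7, h | h⟩ <;> nlinarith

/-- the pairs do not occur in Turán's construction -/
theorem line_F2 {k m : ℕ} (h : Line k m) (x y z : ℕ) (hk : x + y + z = k) :
    F2 x y z ≠ 2 * m := by
  have h' : (5 ≤ (k : ℤ) ∧ ((2 * m : ℤ) = 4 * k - 10 ∨ (2 * m : ℤ) = 4 * k - 12)) ∨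
      (6 ≤ (k : ℤ) ∧ (2 * m : ℤ) = 6 * k - 24) ∨
      (7 ≤ (k : ℤ) ∧ ((2 * m : ℤ) = 8 * k - 28 ∨ (2 * m : ℤ) = 10 * k - 36)) := by
    unfold Line at h
    omega
  have hk' : (x : ℤ) + y + z = k := by exact_mod_cast hk
  rcases Nat.eq_zero_or_pos x with hx | hx
  · subst hx
    have e : F2 ((0 : ℕ) : ℤ) y z = (y : ℤ) * (y - 1) * z := by unfold F2; push_cast; ring
    rw [e]
    refine gz (Int.natCast_nonneg y) (Int.natCast_nonneg z) ?_ h'
    push_cast at hk'
    linarith
  · rcases Nat.eq_zero_or_pos y with hy | hy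
    · subst hy
      have e : F2 x ((0 : ℕ) : ℤ) z = (z : ℤ) * (z - 1) * x := by unfold F2; push_cast; ring
      rw [e]
      refine gz (Int.natCast_nonneg z) (Int.natCast_nonneg x) ?_ h'
      push_cast at hk'
      linarith
    · rcases Nat.eq_zero_or_pos z with hz | hz
      · subst hz
        have e : F2 x y ((0 : ℕ) : ℤ) = (x : ℤ) * (x - 1) * y := by unfold F2; push_cast; ring
        rw [e]
        refine gz (Int.natCast_nonneg x) (Int.natCast_nonneg y) ?_ h'
        push_cast at hk'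
        linarith
      · exact nz (by exact_mod_cast hx) (by exact_mod_cast hy) (by exact_mod_cast hz) hk' h'

end Pool.Agent.Y47.BU
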