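import Pool.Agent.Y47.BU.Spl

/-! The numbers of edges spanned in Turán's construction. -/

set_option autoImplicit false
set_option maxRecDepth 100000
open Finset
open scoped Classical

namespace Pool.Agent.Y47.BU
open Pool.Agent.H122R2.N6 Pool.Agent.H37R3.Cop
open Pool.Agent.TH773 Pool.Agent.TH773.ST

def sT (a b : Fin 3) (L : List (Fin 3)) : ℕ := (L.map fun c => Rf a b c).sum

def pT (a : Fin 3) : List (Fin 3) → ℕ
  | [] => 0
  | b :: L => sT a b L + pT a L

def spT : List (Fin 3) → ℕ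
  | [] => 0
  | a :: L => pT a L + spT L

theorem Rf_bit : ∀ a b c : Fin 3, Rf a b c = 0 ∨ Rf a b c = 1 := by decide

section
variable {n : ℕ} {g : Fin n → Fin 3}

theorem tri_turan {x y z : Fin n} (h1 : x ≠ y) (h2 : x ≠ z) (h3 : y ≠ z) :
    tri (Turan34.turan g) x y z = Rf (g x) (g y) (g z) := by
  rcases Rf_bit (g x) (g y) (g z) with h | h
  · rw [h]
    refine tri_zero fun hm => ?_
    rw [mem_turan h1 h2 h3, h] at hm
    exact absurd hm (by norm_num)
  · rw [h]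
    exact tri_mem.mpr ((mem_turan h1 h2 h3).mpr h)

theorem sg_T {x a : Fin n} {L : List (Fin n)} (hxa : x ≠ a) (hx : x ∉ L) (ha : a ∉ L) :
    sg (tri (Turan34.turan g)) x a L = sT (g x) (g a) (L.map g) := by
  unfold sg sT
  rw [List.map_map]
  congr 1
  refine List.map_congr_left fun b hb => ?_
  exact tri_turan hxa (fun e => hx (by rw [e]; exact hb)) (fun e => ha (by rw [e]; exact hb))

theorem pr_T {x : Fin n} : ∀ {L : List (Fin n)}, L.Nodup → x ∉ L →
    pr (tri (Turan34.turan g)) x L = pT (g x) (L.map g)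
  | [], _, _ => rfl
  | a :: L, hL, hx => by
    have hL' := List.nodup_cons.mp hL
    have hx' : x ∉ L := fun h => hx (List.mem_cons_of_mem _ h)
    change sg (tri (Turan34.turan g)) x a L + pr (tri (Turan34.turan g)) x L =
      sT (g x) (g a) (L.map g) + pT (g x) (L.map g)
    rw [sg_T (fun e => hx (by rw [e]; exact List.mem_cons_self)) hx' hL'.1, pr_T hL'.2 hx']

theorem spl_T : ∀ {L : List (Fin n)}, L.Nodup →
    spl (tri (Turan34.turan g)) L = spT (L.map g)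
  | [], _ => rfl
  | a :: L, hL => by
    have hL' := List.nodup_cons.mp hL
    change pr (tri (Turan34.turan g)) a L + spl (tri (Turan34.turan g)) L =
      pT (g a) (L.map g) + spT (L.map g)
    rw [pr_T hL'.2 hL'.1, spl_T hL'.2]

end

theorem f3 (c : Fin 3) : c = 0 ∨ c = 1 ∨ c = 2 := by
  fin_cases c <;> simp

theorem sT_eq (a b : Fin 3) (L : List (Fin 3)) :
    sT a b L = Rf a b 0 * L.count 0 + Rf a b 1 * L.count 1 + Rf a b 2 * L.count 2 := by
  induction L with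
  | nil => simp [sT]
  | cons c L ih =>
    have e : sT a b (c :: L) = Rf a b c + sT a b L := by simp [sT]
    rw [e, ih]
    rcases f3 c with rfl | rfl | rfl <;> simp [List.count_cons] <;> ring

theorem Rf_tab : Rf 0 0 0 = 0 ∧ Rf 0 0 1 = 1 ∧ Rf 0 0 2 = 0 ∧ Rf 0 1 0 = 1 ∧ Rf 0 1 1 = 0 ∧
    Rf 0 1 2 = 1 ∧ Rf 0 2 0 = 0 ∧ Rf 0 2 1 = 1 ∧ Rf 0 2 2 = 1 ∧ Rf 1 0 0 = 1 ∧ Rf 1 0 1 = 0 ∧
    Rf 1 0 2 = 1 ∧ Rf 1 1 0 = 0 ∧ Rf 1 1 1 = 0 ∧ Rf 1 1 2 = 1 ∧ Rf 1 2 0 = 1 ∧ Rf 1 2 1 = 1 ∧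
    Rf 1 2 2 = 0 ∧ Rf 2 0 0 = 0 ∧ Rf 2 0 1 = 1 ∧ Rf 2 0 2 = 1 ∧ Rf 2 1 0 = 1 ∧ Rf 2 1 1 = 1 ∧
    Rf 2 1 2 = 0 ∧ Rf 2 2 0 = 1 ∧ Rf 2 2 1 = 0 ∧ Rf 2 2 2 = 0 := by decide

theorem pT0 (L : List (Fin 3)) : 2 * (pT 0 L : ℤ) = 2 * (L.count 1 : ℤ) * L.count 2 +
    2 * (L.count 0 : ℤ) * L.count 1 + (L.count 2 : ℤ) ^ 2 - L.count 2 := by
  obtain ⟨r0, r1, r2, r3, r4, r5, r6, r7, r8, -⟩ := Rf_tab
  induction L with
  | nil => simp [pT]
  | cons c L ih =>
    have e : pT 0 (c :: L) = sT 0 c L + pT 0 L := rfl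
    rw [e, sT_eq]
    push_cast
    rw [mul_add, ih]
    rcases f3 c with rfl | rfl | rfl <;>
      simp [List.count_cons, r0, r1, r2, r3, r4, r5, r6, r7, r8] <;> ring

theorem pT1 (L : List (Fin 3)) : 2 * (pT 1 L : ℤ) = 2 * (L.count 2 : ℤ) * L.count 0 +
    2 * (L.count 1 : ℤ) * L.count 2 + (L.count 0 : ℤ) ^ 2 - L.count 0 := by
  obtain ⟨-, -, -, -, -, -, -, -, -, r0, r1, r2, r3, r4, r5, r6, r7, r8, -⟩ := Rf_tab
  induction L with
  | nil => simp [pT]
  | cons c L ih =>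
    have e : pT 1 (c :: L) = sT 1 c L + pT 1 L := rfl
    rw [e, sT_eq]
    push_cast
    rw [mul_add, ih]
    rcases f3 c with rfl | rfl | rfl <;>
      simp [List.count_cons, r0, r1, r2, r3, r4, r5, r6, r7, r8] <;> ring

theorem pT2 (L : List (Fin 3)) : 2 * (pT 2 L : ℤ) = 2 * (L.count 0 : ℤ) * L.count 1 +
    2 * (L.count 2 : ℤ) * L.count 0 + (L.count 1 : ℤ) ^ 2 - L.count 1 := by
  obtain ⟨-, -, -, -, -, -, -, -, -, -, -, -, -, -, -, -, -, -, r0, r1, r2, r3, r4, r5, r6, r7,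
    r8⟩ := Rf_tab
  induction L with
  | nil => simp [pT]
  | cons c L ih =>
    have e : pT 2 (c :: L) = sT 2 c L + pT 2 L := rfl
    rw [e, sT_eq]
    push_cast
    rw [mul_add, ih]
    rcases f3 c with rfl | rfl | rfl <;>
      simp [List.count_cons, r0, r1, r2, r3, r4, r5, r6, r7, r8] <;> ring

/-- twice the number of edges of Turán's construction for classes of `x`, `y`, `z` vertices -/
def F2 (x y z : ℤ) : ℤ :=
  2 * x * y * z + x * (x - 1) * y + y * (y - 1) * z + z * (z - 1) * x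

theorem spT_eq (L : List (Fin 3)) :
    2 * (spT L : ℤ) = F2 (L.count 0) (L.count 1) (L.count 2) := by
  unfold F2
  induction L with
  | nil => simp [spT]
  | cons c L ih =>
    have e : spT (c :: L) = pT c L + spT L := rfl
    rw [e]
    push_cast
    rw [mul_add, ih]
    rcases f3 c with rfl | rfl | rfl
    · rw [pT0]
      simp [List.count_cons]
      ring
    · rw [pT1]
      simp [List.count_cons]
      ring
    · rw [pT2]
      simp [List.count_cons]
      ring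

theorem count3 (L : List (Fin 3)) : L.count 0 + L.count 1 + L.count 2 = L.length := by
  induction L with
  | nil => rfl
  | cons c L ih =>
    rw [List.length_cons, ← ih]
    rcases f3 c with rfl | rfl | rfl <;> simp [List.count_cons] <;> omega

/-- no `k` vertices of Turán's construction span exactly `m` edges -/
theorem spans_T {k m : ℕ} (h : ∀ x y z : ℕ, x + y + z = k → F2 x y z ≠ 2 * m) {n : ℕ}
    (g : Fin n → Fin 3) : Turan34.spans (Turan34.turan g) k m = 0 := by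
  unfold Turan34.spans
  rw [card_eq_zero, filter_eq_empty_iff]
  intro S hS hm
  have hSk := (mem_powersetCard.mp hS).2
  have h3 : ∀ e ∈ Turan34.turan g, e.card = 3 := by
    intro e he
    unfold Turan34.turan at he
    exact (mem_powersetCard.mp (mem_filter.mp he).1).2
  have h1 := span0 h3 (L := S.toList) S.nodup_toList
  rw [S.toList_toFinset] at h1
  rw [hm, spl_T S.nodup_toList] at h1
  have h2 := spT_eq (S.toList.map g)
  rw [← h1] at h2
  refine h _ _ _ ?_ h2.symm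
  rw [count3, List.length_map, length_toList, hSk]

/-- nonempty classes -/
theorem big {x y z : ℤ} (hx : 1 ≤ x) (hy : 1 ≤ y) (hz : 1 ≤ z) :
    (x + y + z - 1) * (x + y + z - 2) + (x - 1) * (y - 1) * x + (y - 1) * (z - 1) * y +
      (z - 1) * (x - 1) * z ≤ F2 x y z := by
  obtain ⟨a, rfl⟩ : ∃ a, x = a + 1 := ⟨x - 1, by ring⟩
  obtain ⟨b, rfl⟩ : ∃ b, y = b + 1 := ⟨y - 1, by ring⟩
  obtain ⟨c, rfl⟩ : ∃ c, z = c + 1 := ⟨z - 1, by ring⟩
  have ha : 0 ≤ a := by linarith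
  have hb : 0 ≤ b := by linarith
  have hc : 0 ≤ c := by linarith
  unfold F2
  have h1 : 0 ≤ a * b * c := mul_nonneg (mul_nonneg ha hb) hc
  nlinarith

end Pool.Agent.Y47.BU
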