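import Pool.Agent.Y47.BU.Link
import Pool.Agent.TH773.CL.Fam

/-! The number of edges spanned by the vertices of a list. -/

set_option autoImplicit false
set_option maxRecDepth 100000
open Finset
open scoped Classical

namespace Pool.Agent.Y47.BU
open Pool.Agent.H122R2.N6 Pool.Agent.H37R3.Pen Pool.Agent.H37R3.Cop
open Pool.Agent.TH773

section
variable {V : Type} (E : V → V → V → ℕ)

/-- the edges with two given vertices and one of the list -/
def sg (x a : V) (L : List V) : ℕ := (L.map fun b => E x a b).sum

/-- the edges with a given vertex and two of the list -/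
def pr (x : V) : List V → ℕ
  | [] => 0
  | a :: L => sg E x a L + pr x L

/-- the edges with three vertices of the list -/
def spl : List V → ℕ
  | [] => 0
  | x :: L => pr E x L + spl L

end

section
variable {n : ℕ} {H : Finset (Finset (Fin n))}

theorem tri_zero {x y z : Fin n} (h : ({x, y, z} : Finset (Fin n)) ∉ H) : tri H x y z = 0 := by
  rcases (tri_sy H).b x y z with h1 | h1
  · exact h1
  · exact absurd (tri_mem.mp h1) h

theorem span2 (h3 : ∀ e ∈ H, e.card = 3) {x a : Fin n} {L : List (Fin n)} (hL : L.Nodup)
    (hxa : x ≠ a) (hx : x ∉ L) (ha : a ∉ L) :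
    (H.filter fun e => (x ∈ e ∧ a ∈ e) ∧ e ⊆ insert x (insert a L.toFinset)).card =
      sg (tri H) x a L := by
  unfold sg
  rw [← List.sum_toFinset _ hL]
  have e1 : ∑ b ∈ L.toFinset, tri H x a b =
      (L.toFinset.filter fun b => ({x, a, b} : Finset (Fin n)) ∈ H).card := by
    rw [card_filter]
    refine sum_congr rfl fun b _ => ?_
    by_cases h : ({x, a, b} : Finset (Fin n)) ∈ H
    · rw [if_pos h, tri_mem.mpr h]
    · rw [if_neg h, tri_zero h]
  rw [e1]
  symm
  refine card_bij (fun b _ => ({x, a, b} : Finset (Fin n))) ?_ ?_ ?_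
  · intro b hb
    obtain ⟨h1, h2⟩ := mem_filter.mp hb
    refine mem_filter.mpr ⟨h2, ⟨by simp, by simp⟩, ?_⟩
    intro z hz
    simp only [mem_insert, mem_singleton] at hz ⊢
    rcases hz with rfl | rfl | rfl
    · exact Or.inl rfl
    · exact Or.inr (Or.inl rfl)
    · exact Or.inr (Or.inr h1)
  · intro b hb b' hb' h
    have h1 := (mem_filter.mp hb).1
    have hbx : b ≠ x := fun e => hx (by rw [← e]; exact List.mem_toFinset.mp h1)
    have hba : b ≠ a := fun e => ha (by rw [← e]; exact List.mem_toFinset.mp h1)
    have h2 : b ∈ ({x, a, b'} : Finset (Fin n)) := by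
      rw [← h]; simp
    simp only [mem_insert, mem_singleton] at h2
    rcases h2 with h2 | h2 | h2
    · exact absurd h2 hbx
    · exact absurd h2 hba
    · exact h2
  · intro e he
    obtain ⟨heH, ⟨hxe, hae⟩, hs⟩ := mem_filter.mp he
    have h1 : ((e.erase x).erase a).card = 1 := by
      rw [card_erase_of_mem (mem_erase.mpr ⟨hxa.symm, hae⟩), card_erase_of_mem hxe, h3 e heH]
    obtain ⟨b, hb⟩ := card_eq_one.mp h1
    have hb1 : b ∈ (e.erase x).erase a := by rw [hb]; exact mem_singleton_self b
    have hb2 := mem_erase.mp hb1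
    have hb3 := mem_erase.mp hb2.2
    have he2 : e = {x, a, b} := by
      ext z
      simp only [mem_insert, mem_singleton]
      constructor
      · intro hz
        by_cases h1 : z = x
        · exact Or.inl h1
        · by_cases h2 : z = a
          · exact Or.inr (Or.inl h2)
          · right; right
            have h4 : z ∈ (e.erase x).erase a := mem_erase.mpr ⟨h2, mem_erase.mpr ⟨h1, hz⟩⟩
            rw [hb] at h4
            exact mem_singleton.mp h4
      · rintro (rfl | rfl | rfl)
        · exact hxe
        · exact hae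
        · exact hb3.2
    refine ⟨b, mem_filter.mpr ⟨?_, by rw [← he2]; exact heH⟩, he2.symm⟩
    have h5 := hs hb3.2
    simp only [mem_insert] at h5
    rcases h5 with h5 | h5 | h5
    · exact absurd h5 hb3.1
    · exact absurd h5 hb2.1
    · exact h5

theorem span1 (h3 : ∀ e ∈ H, e.card = 3) {x : Fin n} {L : List (Fin n)} (hL : L.Nodup)
    (hx : x ∉ L) : (H.filter fun e => x ∈ e ∧ e ⊆ insert x L.toFinset).card = pr (tri H) x L := by
  induction L with
  | nil =>
    unfold pr
    rw [card_eq_zero, filter_eq_empty_iff]
    rintro e he ⟨-, h1⟩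
    have h2 := card_le_card h1
    rw [h3 e he] at h2
    simp at h2
  | cons a L ih =>
    have ha := (List.nodup_cons.mp hL).1
    have hL' := (List.nodup_cons.mp hL).2
    have hxa : x ≠ a := fun e => hx (by rw [e]; exact List.mem_cons_self)
    have hx' : x ∉ L := fun h => hx (List.mem_cons_of_mem _ h)
    have e1 : (H.filter fun e => x ∈ e ∧ e ⊆ insert x (a :: L).toFinset) =
        (H.filter fun e => (x ∈ e ∧ a ∈ e) ∧ e ⊆ insert x (insert a L.toFinset)) ∪
        (H.filter fun e => x ∈ e ∧ e ⊆ insert x L.toFinset) := by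
      ext e
      simp only [mem_filter, mem_union, List.toFinset_cons]
      constructor
      · rintro ⟨h1, h2, h4⟩
        by_cases hae : a ∈ e
        · exact Or.inl ⟨h1, ⟨h2, hae⟩, h4⟩
        · refine Or.inr ⟨h1, h2, fun z hz => ?_⟩
          have h5 := h4 hz
          simp only [mem_insert] at h5 ⊢
          rcases h5 with h5 | h5 | h5
          · exact Or.inl h5
          · exact absurd (h5 ▸ hz) hae
          · exact Or.inr h5
      · rintro (⟨h1, h2, h4⟩ | ⟨h1, h2, h4⟩)
        · exact ⟨h1, h2.1, h4⟩
        · refine ⟨h1, h2, fun z hz => ?_⟩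
          have h5 := h4 hz
          simp only [mem_insert] at h5 ⊢
          rcases h5 with h5 | h5
          · exact Or.inl h5
          · exact Or.inr (Or.inr h5)
    have hd : Disjoint (H.filter fun e => (x ∈ e ∧ a ∈ e) ∧ e ⊆ insert x (insert a L.toFinset))
        (H.filter fun e => x ∈ e ∧ e ⊆ insert x L.toFinset) := by
      rw [Finset.disjoint_left]
      intro e h1 h2
      have h4 := (mem_filter.mp h1).2.1.2
      have h5 := (mem_filter.mp h2).2.2 h4
      simp only [mem_insert, List.mem_toFinset] at h5
      rcases h5 with h5 | h5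
      · exact hxa h5.symm
      · exact ha h5
    rw [e1, card_union_of_disjoint hd, span2 h3 hL' hxa hx' ha, ih hL' hx']
    rfl

/-- the number of edges spanned by the vertices of a list -/
theorem span0 (h3 : ∀ e ∈ H, e.card = 3) {L : List (Fin n)} (hL : L.Nodup) :
    (H.filter fun e => e ⊆ L.toFinset).card = spl (tri H) L := by
  induction L with
  | nil =>
    unfold spl
    rw [card_eq_zero, filter_eq_empty_iff]
    intro e he h1
    have h2 := card_le_card h1
    rw [h3 e he] at h2
    simp at h2
  | cons x L ih =>
    have hx := (List.nodup_cons.mp hL).1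
    have hL' := (List.nodup_cons.mp hL).2
    have e1 : (H.filter fun e => e ⊆ (x :: L).toFinset) =
        (H.filter fun e => x ∈ e ∧ e ⊆ insert x L.toFinset) ∪
        (H.filter fun e => e ⊆ L.toFinset) := by
      ext e
      simp only [mem_filter, mem_union, List.toFinset_cons]
      constructor
      · rintro ⟨h1, h2⟩
        by_cases hxe : x ∈ e
        · exact Or.inl ⟨h1, hxe, h2⟩
        · refine Or.inr ⟨h1, fun z hz => ?_⟩
          have h5 := h2 hz
          simp only [mem_insert] at h5
          rcases h5 with h5 | h5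
          · exact absurd (h5 ▸ hz) hxe
          · exact h5
      · rintro (⟨h1, h2, h4⟩ | ⟨h1, h2⟩)
        · exact ⟨h1, h4⟩
        · exact ⟨h1, h2.trans (subset_insert _ _)⟩
    have hd : Disjoint (H.filter fun e => x ∈ e ∧ e ⊆ insert x L.toFinset)
        (H.filter fun e => e ⊆ L.toFinset) := by
      rw [Finset.disjoint_left]
      intro e h1 h2
      exact hx (List.mem_toFinset.mp ((mem_filter.mp h2).2 (mem_filter.mp h1).2.1))
    rw [e1, card_union_of_disjoint hd, span1 h3 hL' hx, ih hL']
    rfl

end

section
variable {V : Type} [Fintype V]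

/-- injective tuples which span `m` edges -/
noncomputable def gS (E : V → V → V → ℕ) (k m : ℕ) : Finset (Fin k → V) :=
  univ.filter fun x => Function.Injective x ∧ spl E (List.ofFn x) = m

theorem mem_gS {E : V → V → V → ℕ} {k m : ℕ} {x : Fin k → V} :
    x ∈ gS E k m ↔ Function.Injective x ∧ spl E (List.ofFn x) = m := by
  unfold gS
  rw [mem_filter]
  exact ⟨fun h => h.2, fun h => ⟨mem_univ _, h⟩⟩

end

theorem gS_le {n k : ℕ} {H : Finset (Finset (Fin n))} (h3 : ∀ e ∈ H, e.card = 3) (m : ℕ) :
    (gS (tri H) k m).card ≤ k ^ k * Turan34.spans H k m := by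
  unfold Turan34.spans
  refine (card_le_mul_card_image (f := fun x : Fin k → Fin n => univ.image x)
    (gS (tri H) k m) (k ^ k) ?_).trans ?_
  · intro S hS
    obtain ⟨x, hx, rfl⟩ := mem_image.mp hS
    have hxi := (mem_gS.mp hx).1
    have h1 : ((gS (tri H) k m).filter fun y => univ.image y = univ.image x).card ≤
        (Fintype.piFinset fun _ : Fin k => univ.image x).card := by
      refine card_le_card fun y hy => ?_
      rw [Fintype.mem_piFinset]
      intro i
      rw [← (mem_filter.mp hy).2]
      exact mem_image_of_mem _ (mem_univ i)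
    refine h1.trans (le_of_eq ?_)
    rw [Fintype.card_piFinset, prod_const, card_image_of_injective _ hxi, card_univ,
      Fintype.card_fin]
  · refine Nat.mul_le_mul_left _ (card_le_card ?_)
    intro S hS
    obtain ⟨x, hx, rfl⟩ := mem_image.mp hS
    obtain ⟨hxi, hxs⟩ := mem_gS.mp hx
    refine mem_filter.mpr ⟨mem_powersetCard.mpr ⟨subset_univ _, ?_⟩, ?_⟩
    · rw [card_image_of_injective _ hxi, card_univ, Fintype.card_fin]
    · rw [← hxs, ← span0 h3 (List.nodup_ofFn.mpr hxi)]
      congr 1
      ext e
      simp only [mem_filter]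
      have e1 : (List.ofFn x).toFinset = univ.image x := by
        ext z
        simp [List.mem_ofFn]
      rw [e1]

end Pool.Agent.Y47.BU
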