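import Pool.Agent.Y47.BU.Neg2
import Pool.Agent.Y47.BU.Spl

/-! Decision trees for order-size pairs: the leaves describe many vertices of an independent class
and a few others. -/

set_option autoImplicit false
set_option maxRecDepth 100000
open Finset
open scoped Classical

namespace Pool.Agent.Y47.BU
open Pool.Agent.H122R2.N6 Pool.Agent.H37R3.Pen Pool.Agent.H37R3.Cop
open Pool.Agent.TH773.CL (tx)
open Pool.Agent.TH773.CM (s3 s3_213 s3_132 s3_sorted u3 CpK cpS mem_cpS)

section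
variable (m : ℕ) (env : List (ℕ × ℕ))

def okS (a b : ℕ) (L : List ℕ) : Bool := L.all fun c => Nat.ble (tv m env a b (c / 8)) 1
def sgC (a b : ℕ) (L : List ℕ) : ℕ := (L.map fun c => tv m env a b (c / 8)).sum

def okP (a : ℕ) : List ℕ → Bool
  | [] => true
  | b :: L => okS m env a (b / 8) L && okP a L

def prC (a : ℕ) : List ℕ → ℕ
  | [] => 0
  | b :: L => sgC m env a (b / 8) L + prC a L

def okT : List ℕ → Bool
  | [] => true
  | a :: L => okP m env (a / 8) L && okT L

def spC : List ℕ → ℕ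
  | [] => 0
  | a :: L => prC m env (a / 8) L + spC L

end

def ndB : List ℕ → Bool
  | [] => true
  | a :: L => (L.all fun b => !Nat.beq a b) && ndB L

def digs (p s : ℕ) : List ℕ := (List.range s).map fun i => p / 64 ^ (i + 1) % 64

/-- many vertices of an independent class and a few others: `u k - b` edges for `k` vertices -/
def leafS (u b m : ℕ) (env : List (ℕ × ℕ)) (p : ℕ) : Bool :=
  Nat.blt (p % 64 / 8) 6 &&
  ((digs p (p % 8)).all fun c => Nat.blt (c / 8) 6 && !Nat.beq (c / 8) (p % 64 / 8) &&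
    Nat.beq (tv m env (p % 64 / 8) (p % 64 / 8) (c / 8)) 0) &&
  ndB (digs p (p % 8)) && okP m env (p % 64 / 8) (digs p (p % 8)) &&
  okT m env (digs p (p % 8)) &&
  Nat.beq (prC m env (p % 64 / 8) (digs p (p % 8))) u &&
  Nat.beq (spC m env (digs p (p % 8)) + b) (u * (p % 8))

/-- the check of a tree -/
def ckS (u b m s0 : ℕ) : List (ℕ × ℕ) → Tr → Bool
  | env, .k p => leafK m env p
  | env, .f p => Nat.ble (p % 8) s0 && leafS u b m env p
  | env, .n v x y => ckS u b m s0 ((v, 0) :: env) x && ckS u b m s0 ((v, 1) :: env) y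

theorem ndB_nodup : ∀ {L : List ℕ}, ndB L = true → L.Nodup
  | [], _ => List.nodup_nil
  | a :: L, h => by
    have h' : ((L.all fun b => !Nat.beq a b) && ndB L) = true := h
    rw [Bool.and_eq_true, List.all_eq_true] at h'
    refine List.nodup_cons.mpr ⟨fun hm => ?_, ndB_nodup h'.2⟩
    have := h'.1 a hm
    simp at this

section
variable {V : Type} {E : V → V → V → ℕ} {m t : ℕ} {c : ℕ → ℕ → ℕ} {env : List (ℕ × ℕ)}
  {y : Fin 6 → Fin t → V}

/-- the vertices by numbers -/
def yy (y : Fin 6 → Fin t → V) (ht : 0 < t) (p a : ℕ) : V :=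
  y ⟨p % 6, Nat.mod_lt _ (by norm_num)⟩ ⟨a % t, Nat.mod_lt _ ht⟩

theorem yy_eq (ht : 0 < t) {p a : ℕ} (hp : p < 6) (ha : a < t) :
    yy y ht p a = y ⟨p, hp⟩ ⟨a, ha⟩ := by
  unfold yy
  have e1 : (⟨p % 6, Nat.mod_lt _ (by norm_num)⟩ : Fin 6) = ⟨p, hp⟩ :=
    Fin.ext (Nat.mod_eq_of_lt hp)
  have e2 : (⟨a % t, Nat.mod_lt _ ht⟩ : Fin t) = ⟨a, ha⟩ := Fin.ext (Nat.mod_eq_of_lt ha)
  rw [e1, e2]

theorem tvy (hE : Sy E) (h : Hom E m c t y) (hA : Agree c env) (ht : 0 < t)
    {p q r a b d : ℕ} (hp : p < 6) (hq : q < 6) (hr : r < 6) (ha : a < t) (hb : b < t)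
    (hd : d < t) (h1 : p = q → a ≠ b) (h2 : p = r → a ≠ d) (h3 : q = r → b ≠ d)
    (hv : tv m env p q r ≤ 1) :
    E (yy y ht p a) (yy y ht q b) (yy y ht r d) = tv m env p q r := by
  rw [yy_eq ht hp ha, yy_eq ht hq hb, yy_eq ht hr hd]
  refine tv_sound hE h hA ⟨p, hp⟩ ⟨q, hq⟩ ⟨r, hr⟩ ⟨a, ha⟩ ⟨b, hb⟩ ⟨d, hd⟩ ?_ ?_ ?_ hv rfl
  · intro e1 e2
    exact h1 (Fin.mk.inj_iff.mp e1) (Fin.mk.inj_iff.mp e2)
  · intro e1 e2
    exact h2 (Fin.mk.inj_iff.mp e1) (Fin.mk.inj_iff.mp e2)
  · intro e1 e2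
    exact h3 (Fin.mk.inj_iff.mp e1) (Fin.mk.inj_iff.mp e2)

theorem sg_code (hE : Sy E) (h : Hom E m c t y) (hA : Agree c env) (ht : 0 < t) (h8 : 8 ≤ t)
    {A a0 : ℕ} (hA6 : A < 6) (ha0 : a0 < t) {b : ℕ} (hb : b / 8 < 6) {L : List ℕ}
    (hL : ∀ q ∈ L, q / 8 < 6) (hab : A = b / 8 → a0 ≠ b % 8)
    (hAL : ∀ q ∈ L, A = q / 8 → a0 ≠ q % 8) (hbL : b ∉ L) (hok : okS m env A (b / 8) L = true) :
    sg E (yy y ht A a0) (yy y ht (b / 8) (b % 8)) (L.map fun q => yy y ht (q / 8) (q % 8)) =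
      sgC m env A (b / 8) L := by
  unfold sg sgC
  rw [List.map_map]
  congr 1
  refine List.map_congr_left fun q hq => ?_
  unfold okS at hok
  rw [List.all_eq_true] at hok
  refine tvy hE h hA ht hA6 hb (hL q hq) ha0 (by omega) (by omega) hab (hAL q hq) ?_
    (Nat.le_of_ble_eq_true (hok q hq))
  intro e1 e2
  exact hbL (by rw [show b = q by omega]; exact hq)

theorem pr_code (hE : Sy E) (h : Hom E m c t y) (hA : Agree c env) (ht : 0 < t) (h8 : 8 ≤ t)
    {A a0 : ℕ} (hA6 : A < 6) (ha0 : a0 < t) : ∀ {L : List ℕ},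
    (∀ q ∈ L, q / 8 < 6) → (∀ q ∈ L, A = q / 8 → a0 ≠ q % 8) → L.Nodup → okP m env A L = true →
    pr E (yy y ht A a0) (L.map fun q => yy y ht (q / 8) (q % 8)) = prC m env A L
  | [], _, _, _, _ => rfl
  | b :: L, hL, hAL, hnd, hok => by
    have hok' : (okS m env A (b / 8) L && okP m env A L) = true := hok
    rw [Bool.and_eq_true] at hok'
    have hnd' := List.nodup_cons.mp hnd
    change sg E (yy y ht A a0) (yy y ht (b / 8) (b % 8)) (L.map fun q => yy y ht (q / 8) (q % 8)) +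
      pr E (yy y ht A a0) (L.map fun q => yy y ht (q / 8) (q % 8)) =
      sgC m env A (b / 8) L + prC m env A L
    rw [sg_code hE h hA ht h8 hA6 ha0 (hL b List.mem_cons_self)
      (fun q hq => hL q (List.mem_cons_of_mem _ hq)) (hAL b List.mem_cons_self)
      (fun q hq => hAL q (List.mem_cons_of_mem _ hq)) hnd'.1 hok'.1,
      pr_code hE h hA ht h8 hA6 ha0 (fun q hq => hL q (List.mem_cons_of_mem _ hq))
      (fun q hq => hAL q (List.mem_cons_of_mem _ hq)) hnd'.2 hok'.2]

theorem spl_code (hE : Sy E) (h : Hom E m c t y) (hA : Agree c env) (ht : 0 < t) (h8 : 8 ≤ t) :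
    ∀ {L : List ℕ}, (∀ q ∈ L, q / 8 < 6) → L.Nodup → okT m env L = true →
    spl E (L.map fun q => yy y ht (q / 8) (q % 8)) = spC m env L
  | [], _, _, _ => rfl
  | a :: L, hL, hnd, hok => by
    have hok' : (okP m env (a / 8) L && okT m env L) = true := hok
    rw [Bool.and_eq_true] at hok'
    have hnd' := List.nodup_cons.mp hnd
    change pr E (yy y ht (a / 8) (a % 8)) (L.map fun q => yy y ht (q / 8) (q % 8)) +
      spl E (L.map fun q => yy y ht (q / 8) (q % 8)) = prC m env (a / 8) L + spC m env L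
    rw [pr_code hE h hA ht h8 (hL a List.mem_cons_self) (by omega)
      (fun q hq => hL q (List.mem_cons_of_mem _ hq))
      (fun q hq e1 e2 => hnd'.1 (by rw [show a = q by omega]; exact hq)) hnd'.2 hok'.1,
      spl_code hE h hA ht h8 (fun q hq => hL q (List.mem_cons_of_mem _ hq)) hnd'.2 hok'.2]

theorem prA (hE : Sy E) (h : Hom E m c t y) (hA : Agree c env) (ht : 0 < t) (h8 : 8 ≤ t)
    {A a0 : ℕ} (hA6 : A < 6) (ha0 : a0 < t) {L : List ℕ} (hL : ∀ q ∈ L, q / 8 < 6)
    (hAL : ∀ q ∈ L, A ≠ q / 8) (hz : ∀ q ∈ L, tv m env A A (q / 8) = 0) (hnd : L.Nodup)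
    (hok : okP m env A L = true) : ∀ {I : List ℕ}, (∀ i ∈ I, i < t) → I.Nodup → a0 ∉ I →
    pr E (yy y ht A a0) (I.map (fun i => yy y ht A i) ++ L.map fun q => yy y ht (q / 8) (q % 8)) =
      prC m env A L
  | [], _, _, _ => pr_code hE h hA ht h8 hA6 ha0 hL (fun q hq e _ => hAL q hq e) hnd hok
  | a :: I, hI, hnI, hnot => by
    have hnI' := List.nodup_cons.mp hnI
    have haI : a < t := hI a List.mem_cons_self
    have h0a : a0 ≠ a := fun e => hnot (by rw [e]; exact List.mem_cons_self)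
    change sg E (yy y ht A a0) (yy y ht A a)
        (I.map (fun i => yy y ht A i) ++ L.map fun q => yy y ht (q / 8) (q % 8)) +
      pr E (yy y ht A a0)
        (I.map (fun i => yy y ht A i) ++ L.map fun q => yy y ht (q / 8) (q % 8)) = prC m env A L
    rw [prA hE h hA ht h8 hA6 ha0 hL hAL hz hnd hok
      (fun i hi => hI i (List.mem_cons_of_mem _ hi)) hnI'.2
      (fun hm => hnot (List.mem_cons_of_mem _ hm))]
    have e0 : sg E (yy y ht A a0) (yy y ht A a)
        (I.map (fun i => yy y ht A i) ++ L.map fun q => yy y ht (q / 8) (q % 8)) = 0 := by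
      unfold sg
      rw [List.sum_eq_zero_iff]
      intro w hw
      obtain ⟨b, hb, rfl⟩ := List.mem_map.mp hw
      rcases List.mem_append.mp hb with hb | hb
      · obtain ⟨i, hi, rfl⟩ := List.mem_map.mp hb
        have hit := hI i (List.mem_cons_of_mem _ hi)
        rw [yy_eq ht hA6 ha0, yy_eq ht hA6 haI, yy_eq ht hA6 hit]
        refine h.ind _ _ _ _ ?_ ?_ ?_
        · exact fun e => h0a (Fin.mk.inj_iff.mp e)
        · intro e
          rw [Fin.mk.injEq] at e
          exact hnot (by rw [e]; exact List.mem_cons_of_mem _ hi)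
        · intro e
          rw [Fin.mk.injEq] at e
          exact hnI'.1 (by rw [e]; exact hi)
      · obtain ⟨q, hq, rfl⟩ := List.mem_map.mp hb
        have e1 := tvy hE h hA ht (y := y) (a := a0) (b := a) (d := q % 8) hA6 hA6 (hL q hq) ha0
          haI (by omega) (fun _ => h0a) (fun e => absurd e (hAL q hq))
          (fun e => absurd e (hAL q hq)) (by rw [hz q hq]; exact Nat.zero_le _)
        rw [e1, hz q hq]
    rw [e0, Nat.zero_add]

theorem splA (hE : Sy E) (h : Hom E m c t y) (hA : Agree c env) (ht : 0 < t) (h8 : 8 ≤ t)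
    {A : ℕ} (hA6 : A < 6) {L : List ℕ} (hL : ∀ q ∈ L, q / 8 < 6)
    (hAL : ∀ q ∈ L, A ≠ q / 8) (hz : ∀ q ∈ L, tv m env A A (q / 8) = 0) (hnd : L.Nodup)
    (hok : okP m env A L = true) (hokT : okT m env L = true) : ∀ {I : List ℕ},
    (∀ i ∈ I, i < t) → I.Nodup →
    spl E (I.map (fun i => yy y ht A i) ++ L.map fun q => yy y ht (q / 8) (q % 8)) =
      prC m env A L * I.length + spC m env L
  | [], _, _ => by
    rw [List.length_nil, Nat.mul_zero, Nat.zero_add]
    exact spl_code hE h hA ht h8 hL hnd hokT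
  | a :: I, hI, hnI => by
    have hnI' := List.nodup_cons.mp hnI
    change pr E (yy y ht A a)
        (I.map (fun i => yy y ht A i) ++ L.map fun q => yy y ht (q / 8) (q % 8)) +
      spl E (I.map (fun i => yy y ht A i) ++ L.map fun q => yy y ht (q / 8) (q % 8)) = _
    rw [prA hE h hA ht h8 hA6 (hI a List.mem_cons_self) hL hAL hz hnd hok
      (fun i hi => hI i (List.mem_cons_of_mem _ hi)) hnI'.2 hnI'.1,
      splA hE h hA ht h8 hA6 hL hAL hz hnd hok hokT
      (fun i hi => hI i (List.mem_cons_of_mem _ hi)) hnI'.2, List.length_cons]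
    ring

theorem ofl {α β : Type} (L : List α) (f : α → β) {k : ℕ} (h : L.length = k) :
    List.ofFn (fun i : Fin k => f (L.get (i.cast h.symm))) = L.map f := by
  subst h
  apply List.ext_getElem
  · simp
  · intro i h1 h2
    simp

theorem leafS_sound (hE : Sy E) (h : Hom E m c t y) (hA : Agree c env) (h8 : 8 ≤ t)
    {u b k p : ℕ} (hk : p % 8 ≤ k) (hkt : k ≤ t) (hp : leafS u b m env p = true) :
    ∃ e : Fin k → Fin 6 × Fin t, Function.Injective e ∧
      spl E (List.ofFn fun i => y (e i).1 (e i).2) = u * k - b := by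
  have ht : 0 < t := by omega
  obtain ⟨A, hAd⟩ : ∃ A, A = p % 64 / 8 := ⟨_, rfl⟩
  obtain ⟨s, hs⟩ : ∃ s, s = p % 8 := ⟨_, rfl⟩
  obtain ⟨C, hC⟩ : ∃ C, C = digs p s := ⟨_, rfl⟩
  unfold leafS at hp
  rw [← hs, ← hAd, ← hC] at hp
  rw [← hs] at hk
  simp only [Bool.and_eq_true] at hp
  obtain ⟨⟨⟨⟨⟨⟨g1, g2⟩, g3⟩, g4⟩, g5⟩, g6⟩, g7⟩ := hp
  have hA6 : A < 6 := Nat.le_of_ble_eq_true g1
  rw [List.all_eq_true] at g2
  have q1 : ∀ q ∈ C, q / 8 < 6 := by
    intro q hq
    have := g2 q hq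
    rw [Bool.and_eq_true, Bool.and_eq_true] at this
    exact Nat.le_of_ble_eq_true this.1.1
  have q2 : ∀ q ∈ C, A ≠ q / 8 := by
    intro q hq e
    have := g2 q hq
    rw [Bool.and_eq_true, Bool.and_eq_true, ← e] at this
    simp at this
  have q3 : ∀ q ∈ C, tv m env A A (q / 8) = 0 := by
    intro q hq
    have := g2 q hq
    rw [Bool.and_eq_true] at this
    exact Nat.eq_of_beq_eq_true this.2
  have hnd := ndB_nodup g3
  have hu := Nat.eq_of_beq_eq_true g6
  have hw := Nat.eq_of_beq_eq_true g7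
  have hCl : C.length = s := by rw [hC]; simp [digs]
  let I := List.range (k - s)
  let II : List (ℕ × ℕ) := I.map (fun i => (A, i)) ++ C.map fun q => (q / 8, q % 8)
  have hlen : II.length = k := by
    simp only [II, I, List.length_append, List.length_map, List.length_range, hCl]
    omega
  have hnII : II.Nodup := by
    refine List.nodup_append.mpr ⟨?_, ?_, ?_⟩
    · exact List.Nodup.map (fun i j e => (Prod.mk.inj e).2) List.nodup_range
    · refine List.Nodup.map_on ?_ hnd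
      intro i _ j _ e
      have e1 := (Prod.mk.inj e).1
      have e2 := (Prod.mk.inj e).2
      omega
    · intro a ha b hb e
      obtain ⟨i, -, rfl⟩ := List.mem_map.mp ha
      obtain ⟨q, hq, rfl⟩ := List.mem_map.mp hb
      exact q2 q hq (Prod.mk.inj e).1
  have hII : ∀ q ∈ II, q.1 < 6 ∧ q.2 < t := by
    intro q hq
    rcases List.mem_append.mp hq with hq | hq
    · obtain ⟨i, hi, rfl⟩ := List.mem_map.mp hq
      have := List.mem_range.mp hi
      exact ⟨hA6, by simp only; omega⟩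
    · obtain ⟨c', hc', rfl⟩ := List.mem_map.mp hq
      exact ⟨q1 c' hc', by simp only; omega⟩
  refine ⟨fun i => (⟨(II.get (i.cast hlen.symm)).1 % 6, Nat.mod_lt _ (by norm_num)⟩,
    ⟨(II.get (i.cast hlen.symm)).2 % t, Nat.mod_lt _ ht⟩), ?_, ?_⟩
  · intro i j e
    have e1 := Fin.mk.inj_iff.mp (Prod.mk.inj e).1
    have e2 := Fin.mk.inj_iff.mp (Prod.mk.inj e).2
    have m1 := hII _ (List.get_mem II (i.cast hlen.symm))
    have m2 := hII _ (List.get_mem II (j.cast hlen.symm))
    rw [Nat.mod_eq_of_lt m1.1, Nat.mod_eq_of_lt m2.1] at e1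
    rw [Nat.mod_eq_of_lt m1.2, Nat.mod_eq_of_lt m2.2] at e2
    have e3 := List.nodup_iff_injective_get.mp hnII (Prod.ext e1 e2)
    exact Fin.ext (by have := congrArg Fin.val e3; simpa using this)
  · have e1 := ofl II (fun q => yy y ht q.1 q.2) hlen
    have e2 : (List.ofFn fun i : Fin k => yy y ht (II.get (i.cast hlen.symm)).1
        (II.get (i.cast hlen.symm)).2) = II.map (fun q => yy y ht q.1 q.2) := e1
    change spl E (List.ofFn fun i : Fin k => yy y ht (II.get (i.cast hlen.symm)).1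
        (II.get (i.cast hlen.symm)).2) = _
    rw [e2]
    have e3 : II.map (fun q => yy y ht q.1 q.2) = I.map (fun i => yy y ht A i) ++
        C.map fun q => yy y ht (q / 8) (q % 8) := by
      simp only [II, List.map_append, List.map_map]
      rfl
    rw [e3, splA hE h hA ht h8 hA6 q1 q2 q3 hnd g4 g5
      (fun i hi => by have := List.mem_range.mp hi; omega) List.nodup_range, hu]
    have e4 : I.length = k - s := List.length_range
    rw [e4]
    have e5 : u * k = u * (k - s) + u * s := by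
      rw [← Nat.mul_add]; congr 1; omega
    omega

theorem ckS_sound (hE : Sy E) (hK : NoK4 E) (h : Hom E m c t y)
    (hc : ∀ i j, c i j = 0 ∨ c i j = 1) (h8 : 8 ≤ t) {u b s0 k : ℕ} (hk : s0 ≤ k) (hkt : k ≤ t) :
    ∀ (tr : Tr) (env : List (ℕ × ℕ)), Agree c env → ckS u b m s0 env tr = true →
    ∃ e : Fin k → Fin 6 × Fin t, Function.Injective e ∧
      spl E (List.ofFn fun i => y (e i).1 (e i).2) = u * k - b
  | .k p, env, hA, hp => (leafK_sound hE hK h hA (by omega) hp).elim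
  | .f p, env, hA, hp => by
    have hp' : (Nat.ble (p % 8) s0 && leafS u b m env p) = true := hp
    rw [Bool.and_eq_true] at hp'
    exact leafS_sound hE h hA h8 ((Nat.le_of_ble_eq_true hp'.1).trans hk) hkt hp'.2
  | .n v x z, env, hA, hp => by
    have hp' : (ckS u b m s0 ((v, 0) :: env) x && ckS u b m s0 ((v, 1) :: env) z) = true := hp
    rw [Bool.and_eq_true] at hp'
    rcases hc (v / 6) (v % 6) with e | e
    · exact ckS_sound hE hK h hc h8 hk hkt x _ (hA.cons e) hp'.1
    · exact ckS_sound hE hK h hc h8 hk hkt z _ (hA.cons e) hp'.2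

end
/-- listed vertices: `q` edges for `k` vertices -/
def digX (p s : ℕ) : List ℕ := (List.range s).map fun i => p / 64 ^ i % 64

def leafX (k q m : ℕ) (env : List (ℕ × ℕ)) (p : ℕ) : Bool :=
  ((digX p k).all fun c => Nat.blt (c / 8) 6) && ndB (digX p k) && okT m env (digX p k) &&
  Nat.beq (spC m env (digX p k)) q

/-- the check of a tree, listed vertices -/
def ckX (k q m : ℕ) : List (ℕ × ℕ) → Tr → Bool
  | env, .k p => leafK m env p
  | env, .f p => leafX k q m env p
  | env, .n v x y => ckX k q m ((v, 0) :: env) x && ckX k q m ((v, 1) :: env) y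

section
variable {V : Type} {E : V → V → V → ℕ} {m t : ℕ} {c : ℕ → ℕ → ℕ} {env : List (ℕ × ℕ)}
  {y : Fin 6 → Fin t → V}

theorem leafX_sound (hE : Sy E) (h : Hom E m c t y) (hA : Agree c env) (h8 : 8 ≤ t)
    {k q p : ℕ} (hp : leafX k q m env p = true) :
    ∃ e : Fin k → Fin 6 × Fin t, Function.Injective e ∧
      spl E (List.ofFn fun i => y (e i).1 (e i).2) = q := by
  have ht : 0 < t := by omega
  obtain ⟨C, hC⟩ : ∃ C, C = digX p k := ⟨_, rfl⟩
  unfold leafX at hp
  rw [← hC] at hp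
  simp only [Bool.and_eq_true] at hp
  obtain ⟨⟨⟨g2, g3⟩, g5⟩, g7⟩ := hp
  rw [List.all_eq_true] at g2
  have q1 : ∀ q ∈ C, q / 8 < 6 := fun q hq => Nat.le_of_ble_eq_true (g2 q hq)
  have hnd := ndB_nodup g3
  have hw := Nat.eq_of_beq_eq_true g7
  have hCl : C.length = k := by rw [hC]; simp [digX]
  let II : List (ℕ × ℕ) := C.map fun q => (q / 8, q % 8)
  have hlen : II.length = k := by
    simp only [II, List.length_map, hCl]
  have hnII : II.Nodup := by
    refine List.Nodup.map_on ?_ hnd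
    intro i _ j _ e
    have e1 := (Prod.mk.inj e).1
    have e2 := (Prod.mk.inj e).2
    omega
  have hII : ∀ q ∈ II, q.1 < 6 ∧ q.2 < t := by
    intro q hq
    obtain ⟨c', hc', rfl⟩ := List.mem_map.mp hq
    exact ⟨q1 c' hc', by simp only; omega⟩
  refine ⟨fun i => (⟨(II.get (i.cast hlen.symm)).1 % 6, Nat.mod_lt _ (by norm_num)⟩,
    ⟨(II.get (i.cast hlen.symm)).2 % t, Nat.mod_lt _ ht⟩), ?_, ?_⟩
  · intro i j e
    have e1 := Fin.mk.inj_iff.mp (Prod.mk.inj e).1
    have e2 := Fin.mk.inj_iff.mp (Prod.mk.inj e).2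
    have m1 := hII _ (List.get_mem II (i.cast hlen.symm))
    have m2 := hII _ (List.get_mem II (j.cast hlen.symm))
    rw [Nat.mod_eq_of_lt m1.1, Nat.mod_eq_of_lt m2.1] at e1
    rw [Nat.mod_eq_of_lt m1.2, Nat.mod_eq_of_lt m2.2] at e2
    have e3 := List.nodup_iff_injective_get.mp hnII (Prod.ext e1 e2)
    exact Fin.ext (by have := congrArg Fin.val e3; simpa using this)
  · have e1 := ofl II (fun q => yy y ht q.1 q.2) hlen
    have e2 : (List.ofFn fun i : Fin k => yy y ht (II.get (i.cast hlen.symm)).1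
        (II.get (i.cast hlen.symm)).2) = II.map (fun q => yy y ht q.1 q.2) := e1
    change spl E (List.ofFn fun i : Fin k => yy y ht (II.get (i.cast hlen.symm)).1
        (II.get (i.cast hlen.symm)).2) = _
    rw [e2]
    have e3 : II.map (fun q => yy y ht q.1 q.2) = C.map fun q => yy y ht (q / 8) (q % 8) := by
      simp only [II, List.map_map]
      rfl
    rw [e3, spl_code hE h hA ht h8 q1 hnd g5, hw]

theorem ckX_sound (hE : Sy E) (hK : NoK4 E) (h : Hom E m c t y)
    (hc : ∀ i j, c i j = 0 ∨ c i j = 1) (h8 : 8 ≤ t) {k q : ℕ} :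
    ∀ (tr : Tr) (env : List (ℕ × ℕ)), Agree c env → ckX k q m env tr = true →
    ∃ e : Fin k → Fin 6 × Fin t, Function.Injective e ∧
      spl E (List.ofFn fun i => y (e i).1 (e i).2) = q
  | .k p, env, hA, hp => (leafK_sound hE hK h hA (by omega) hp).elim
  | .f p, env, hA, hp => leafX_sound hE h hA h8 hp
  | .n v x z, env, hA, hp => by
    have hp' : (ckX k q m ((v, 0) :: env) x && ckX k q m ((v, 1) :: env) z) = true := hp
    rw [Bool.and_eq_true] at hp'
    rcases hc (v / 6) (v % 6) with e | e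
    · exact ckX_sound hE hK h hc h8 x _ (hA.cons e) hp'.1
    · exact ckX_sound hE hK h hc h8 z _ (hA.cons e) hp'.2

end

end Pool.Agent.Y47.BU
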