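import Pool.Agent.Y47.BU.Tree

/-! Soundness of the check of a tree. -/

set_option autoImplicit false
set_option maxRecDepth 100000
open Finset
open scoped Classical

namespace Pool.Agent.Y47.BU
open Pool.Agent.H122R2.N6 Pool.Agent.H37R3.Pen Pool.Agent.H37R3.Cop
open Pool.Agent.TH773.CL (tx)
open Pool.Agent.TH773.CM (s3 s3_213 s3_132 s3_sorted u3 CpK)

section
variable {V : Type} {E : V → V → V → ℕ} {m t : ℕ} {c : ℕ → ℕ → ℕ} {env : List (ℕ × ℕ)}
  {y : Fin 6 → Fin t → V}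

theorem leafK_sound (hE : Sy E) (hK : NoK4 E) (h : Hom E m c t y) (hA : Agree c env) (ht : 2 ≤ t)
    {p : ℕ} (hp : leafK m env p = true) : False := by
  unfold leafK at hp
  rw [Bool.and_eq_true, Bool.and_eq_true, Bool.and_eq_true, Bool.and_eq_true] at hp
  obtain ⟨⟨⟨⟨h0, h1⟩, h2⟩, h3⟩, h4⟩ := hp
  have g : ∀ i, i < 4 → dK p i / 8 < 6 ∧ dK p i % 8 < 2 ∧ ∀ j, j < i → dK p i ≠ dK p j := by
    intro i hi
    have a1 := nall_true h0 i hi
    rw [Bool.and_eq_true, Bool.and_eq_true] at a1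
    refine ⟨Nat.le_of_ble_eq_true a1.1.1, Nat.le_of_ble_eq_true a1.1.2, fun j hj e => ?_⟩
    have a2 := nall_true a1.2 j hj
    rw [e] at a2
    simp at a2
  have g0 := g 0 (by norm_num)
  have g1 := g 1 (by norm_num)
  have g2 := g 2 (by norm_num)
  have g3 := g 3 (by norm_num)
  have key : ∀ i j l (hi : i < 4) (hj : j < 4) (hl : l < 4), i < j → j < l →
      Nat.beq (tv m env (dK p i / 8) (dK p j / 8) (dK p l / 8)) 1 = true →
      E (y ⟨dK p i / 8, (g i hi).1⟩ ⟨dK p i % 8, lt_of_lt_of_le (g i hi).2.1 ht⟩)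
        (y ⟨dK p j / 8, (g j hj).1⟩ ⟨dK p j % 8, lt_of_lt_of_le (g j hj).2.1 ht⟩)
        (y ⟨dK p l / 8, (g l hl).1⟩ ⟨dK p l % 8, lt_of_lt_of_le (g l hl).2.1 ht⟩) = 1 := by
    intro i j l hi hj hl hij hjl hb
    refine tv_sound hE h hA _ _ _ _ _ _ ?_ ?_ ?_ (le_refl 1) (Nat.eq_of_beq_eq_true hb)
    · intro e1 e2
      have e1' := Fin.mk.inj_iff.mp e1
      have e2' := Fin.mk.inj_iff.mp e2
      exact (g j hj).2.2 i hij (by omega)
    · intro e1 e2
      have e1' := Fin.mk.inj_iff.mp e1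
      have e2' := Fin.mk.inj_iff.mp e2
      exact (g l hl).2.2 i (hij.trans hjl) (by omega)
    · intro e1 e2
      have e1' := Fin.mk.inj_iff.mp e1
      have e2' := Fin.mk.inj_iff.mp e2
      exact (g l hl).2.2 j hjl (by omega)
  have k1 := key 0 1 2 (by norm_num) (by norm_num) (by norm_num) (by norm_num) (by norm_num) h1
  have k2 := key 0 1 3 (by norm_num) (by norm_num) (by norm_num) (by norm_num) (by norm_num) h2
  have k3 := key 0 2 3 (by norm_num) (by norm_num) (by norm_num) (by norm_num) (by norm_num) h3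
  have k4 := key 1 2 3 (by norm_num) (by norm_num) (by norm_num) (by norm_num) (by norm_num) h4
  have h5 := hK (y ⟨dK p 0 / 8, g0.1⟩ ⟨dK p 0 % 8, lt_of_lt_of_le g0.2.1 ht⟩)
    (y ⟨dK p 1 / 8, g1.1⟩ ⟨dK p 1 % 8, lt_of_lt_of_le g1.2.1 ht⟩)
    (y ⟨dK p 2 / 8, g2.1⟩ ⟨dK p 2 % 8, lt_of_lt_of_le g2.2.1 ht⟩)
    (y ⟨dK p 3 / 8, g3.1⟩ ⟨dK p 3 % 8, lt_of_lt_of_le g3.2.1 ht⟩)
  rw [k1, k2, k3, k4] at h5
  exact absurd h5 (by decide)

/-- the position of the copy `a` of the base vertex `i` -/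
def pos {k t0 t : ℕ} (hk : k * t0 ≤ t) (i : Fin k) (a : Fin t0) : Fin t :=
  ⟨i.val * t0 + a.val, by
    have h1 : (i.val + 1) * t0 ≤ k * t0 := Nat.mul_le_mul_right _ i.isLt
    have h2 := a.isLt
    have h3 : (i.val + 1) * t0 = i.val * t0 + t0 := by ring
    omega⟩

theorem pos_inj {k t0 t : ℕ} (hk : k * t0 ≤ t) {i j : Fin k} {a b : Fin t0}
    (h : pos hk i a = pos hk j b) : i = j ∧ a = b := by
  have h1 : i.val * t0 + a.val = j.val * t0 + b.val := Fin.mk.inj_iff.mp h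
  have ha := a.isLt
  have hb := b.isLt
  have ht : 0 < t0 := by omega
  have h2 : (i.val * t0 + a.val) / t0 = (j.val * t0 + b.val) / t0 := by rw [h1]
  rw [add_comm, Nat.add_mul_div_right _ _ ht, Nat.div_eq_of_lt ha, add_comm (j.val * t0),
    Nat.add_mul_div_right _ _ ht, Nat.div_eq_of_lt hb] at h2
  have h3 : i = j := Fin.ext (by omega)
  subst h3
  exact ⟨rfl, Fin.ext (by omega)⟩

theorem leafF_sound (hE : Sy E) {P : Pt} {t0 : ℕ} (h : Hom E m c t y) (hA : Agree c env)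
    (ht : P.k * t0 ≤ t) {p : ℕ} (hp : leafF P m env p = true) :
    ∃ e : Fin P.k × Fin t0 → Fin 6 × Fin t, Function.Injective e ∧
      Occ E P t0 fun q => y (e q).1 (e q).2 := by
  unfold leafF at hp
  rw [Bool.and_eq_true, Bool.and_eq_true] at hp
  obtain ⟨⟨h0, h1⟩, h2⟩ := hp
  rw [List.all_eq_true] at h1 h2
  have g : ∀ i, i < P.k → dF p i < 6 := fun i hi => Nat.le_of_ble_eq_true (nall_true h0 i hi)
  let e : Fin P.k × Fin t0 → Fin 6 × Fin t := fun q =>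
    (⟨dF p q.1.val, g q.1.val q.1.isLt⟩, pos ht q.1 q.2)
  have he : Function.Injective e := by
    rintro ⟨i, a⟩ ⟨j, b⟩ hh
    obtain ⟨e1, e2⟩ := pos_inj ht (Prod.mk.inj hh).2
    exact Prod.ext e1 e2
  have hne : ∀ (i j : Fin P.k) (a b : Fin t0), (i, a) ≠ (j, b) → pos ht i a ≠ pos ht j b := by
    intro i j a b hab hh
    obtain ⟨e1, e2⟩ := pos_inj ht hh
    exact hab (Prod.ext e1 e2)
  refine ⟨e, he, ?_, ?_, ?_, ?_⟩
  · intro q q' hq
    obtain ⟨a1, a2⟩ := h.inj _ _ _ _ hq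
    exact he (Prod.ext a1 a2)
  · intro x hx k1 k2 k3 a b d
    have a1 := h1 x hx
    rw [Bool.and_eq_true, Bool.and_eq_true, Bool.and_eq_true, Bool.and_eq_true] at a1
    obtain ⟨⟨⟨⟨b1, b2⟩, b3⟩, b4⟩, b5⟩ := a1
    have b1' : x.1 < x.2.1 := Nat.le_of_ble_eq_true b1
    have b2' : x.2.1 < x.2.2.1 := Nat.le_of_ble_eq_true b2
    refine tv_sound hE h hA _ _ _ _ _ _ ?_ ?_ ?_ (Nat.le_of_ble_eq_true b4)
      (Nat.eq_of_beq_eq_true b5)
    · exact fun _ => hne _ _ _ _ fun hh => b1'.ne (Fin.mk.inj_iff.mp (Prod.mk.inj hh).1)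
    · exact fun _ => hne _ _ _ _ fun hh =>
        (b1'.trans b2').ne (Fin.mk.inj_iff.mp (Prod.mk.inj hh).1)
    · exact fun _ => hne _ _ _ _ fun hh => b2'.ne (Fin.mk.inj_iff.mp (Prod.mk.inj hh).1)
  · intro x hx k1 k2 a b d hab
    have a1 := h2 x hx
    rw [Bool.and_eq_true, Bool.and_eq_true, Bool.and_eq_true, Bool.and_eq_true] at a1
    obtain ⟨⟨⟨⟨b1, b2⟩, b3⟩, b4⟩, b5⟩ := a1
    have b1' : x.1 ≠ x.2.1 := by
      intro hh
      rw [hh] at b1
      simp at b1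
    refine tv_sound hE h hA _ _ _ _ _ _ ?_ ?_ ?_ (Nat.le_of_ble_eq_true b4)
      (Nat.eq_of_beq_eq_true b5)
    · exact fun _ => hne _ _ _ _ fun hh => hab (Prod.mk.inj hh).2
    · exact fun _ => hne _ _ _ _ fun hh => b1' (Fin.mk.inj_iff.mp (Prod.mk.inj hh).1)
    · exact fun _ => hne _ _ _ _ fun hh => b1' (Fin.mk.inj_iff.mp (Prod.mk.inj hh).1)
  · intro i a b d hab had hbd
    refine h.ind _ _ _ _ ?_ ?_ ?_
    · exact hne _ _ _ _ fun hh => hab (Prod.mk.inj hh).2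
    · exact hne _ _ _ _ fun hh => had (Prod.mk.inj hh).2
    · exact hne _ _ _ _ fun hh => hbd (Prod.mk.inj hh).2

theorem chk_sound (hE : Sy E) (hK : NoK4 E) {P : Pt} {t0 : ℕ} (h : Hom E m c t y)
    (hc : ∀ i j, c i j = 0 ∨ c i j = 1) (ht2 : 2 ≤ t) (ht : P.k * t0 ≤ t) :
    ∀ (tr : Tr) (env : List (ℕ × ℕ)), Agree c env → chk P m env tr = true →
    ∃ e : Fin P.k × Fin t0 → Fin 6 × Fin t, Function.Injective e ∧
      Occ E P t0 fun q => y (e q).1 (e q).2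
  | .k p, env, hA, hp => (leafK_sound hE hK h hA ht2 hp).elim
  | .f p, env, hA, hp => leafF_sound hE h hA ht hp
  | .n v a b, env, hA, hp => by
    have hp' : (chk P m ((v, 0) :: env) a && chk P m ((v, 1) :: env) b) = true := hp
    rw [Bool.and_eq_true] at hp'
    rcases hc (v / 6) (v % 6) with e | e
    · exact chk_sound hE hK h hc ht2 ht a _ (hA.cons e) hp'.1
    · exact chk_sound hE hK h hc ht2 ht b _ (hA.cons e) hp'.2

end
end Pool.Agent.Y47.BU
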