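import Pool.Agent.TH773.CM.Eng

/-! Decision trees for the homogeneous blow-ups of a six-vertex pattern. -/

set_option autoImplicit false
set_option maxRecDepth 100000
open Finset
open scoped Classical

namespace Pool.Agent.Y47.BU
open Pool.Agent.H122R2.N6 Pool.Agent.H37R3.Pen Pool.Agent.H37R3.Cop
open Pool.Agent.TH773.CL (tx)
open Pool.Agent.TH773.CM (s3 s3_213 s3_132 s3_sorted u3 CpK)

/-- a pattern: `k` base vertices, values of triples of different base vertices, and values of the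
triples with two copies of a base vertex `u` and a copy of another base vertex `w` -/
structure Pt where
  k : ℕ
  T : List (ℕ × ℕ × ℕ × ℕ)
  R : List (ℕ × ℕ × ℕ)

section
variable {V : Type} (E : V → V → V → ℕ)

/-- a blow-up of the pattern with `t` copies of the vertices -/
structure Occ (P : Pt) (t : ℕ) (w : Fin P.k × Fin t → V) : Prop where
  inj : Function.Injective w
  tri : ∀ x ∈ P.T, ∀ (h1 : x.1 < P.k) (h2 : x.2.1 < P.k) (h3 : x.2.2.1 < P.k), ∀ a b d : Fin t,
    E (w (⟨x.1, h1⟩, a)) (w (⟨x.2.1, h2⟩, b)) (w (⟨x.2.2.1, h3⟩, d)) = x.2.2.2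
  par : ∀ x ∈ P.R, ∀ (h1 : x.1 < P.k) (h2 : x.2.1 < P.k), ∀ a b d : Fin t, a ≠ b →
    E (w (⟨x.1, h1⟩, a)) (w (⟨x.1, h1⟩, b)) (w (⟨x.2.1, h2⟩, d)) = x.2.2
  ind : ∀ (i : Fin P.k) (a b d : Fin t), a ≠ b → a ≠ d → b ≠ d →
    E (w (i, a)) (w (i, b)) (w (i, d)) = 0

/-- a homogeneous blow-up of the six-vertex pattern `m` -/
structure Hom (m : ℕ) (c : ℕ → ℕ → ℕ) (t : ℕ) (y : Fin 6 → Fin t → V) : Prop where
  inj : ∀ i a j b, y i a = y j b → i = j ∧ a = b
  tri : ∀ i j l : Fin 6, i < j → j < l → ∀ a b d, E (y i a) (y j b) (y l d) = bt m (tx i j l)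
  par : ∀ i j : Fin 6, i ≠ j → ∀ a b, a ≠ b → ∀ d, E (y i a) (y i b) (y j d) = c i j
  ind : ∀ i, ∀ a b d, a ≠ b → a ≠ d → b ≠ d → E (y i a) (y i b) (y i d) = 0

end

theorem beq_t {x z : ℕ} (e : x = z) : Nat.beq x z = true := by
  subst e
  exact Nat.beq_refl x

theorem beq_f {x z : ℕ} (e : x ≠ z) : Nat.beq x z = false := by
  cases h2 : Nat.beq x z
  · rfl
  · exact absurd (Nat.eq_of_beq_eq_true h2) e

/-- value of a variable, `2` if it is not decided -/
def look : List (ℕ × ℕ) → ℕ → ℕ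
  | [], _ => 2
  | (v, b) :: l, u => bif Nat.beq v u then b else look l u

/-- value of a triple of vertices in the parts `p`, `q`, `r` -/
def tv (m : ℕ) (env : List (ℕ × ℕ)) (p q r : ℕ) : ℕ :=
  bif Nat.beq p q then (bif Nat.beq q r then 0 else look env (6 * p + r))
  else bif Nat.beq q r then look env (6 * q + p)
  else bif Nat.beq p r then look env (6 * p + q)
  else u3 m (s3 p q r)

inductive Tr where
  | k (p : ℕ) : Tr
  | f (p : ℕ) : Tr
  | n (v : ℕ) (a b : Tr) : Tr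

def dK (p i : ℕ) : ℕ := p / 64 ^ i % 64
def dF (p i : ℕ) : ℕ := p / 8 ^ i % 8

/-- four vertices spanning four edges -/
def leafK (m : ℕ) (env : List (ℕ × ℕ)) (p : ℕ) : Bool :=
  (nall 4 fun i => Nat.blt (dK p i / 8) 6 && Nat.blt (dK p i % 8) 2 &&
    nall i fun j => !Nat.beq (dK p i) (dK p j)) &&
  Nat.beq (tv m env (dK p 0 / 8) (dK p 1 / 8) (dK p 2 / 8)) 1 &&
  Nat.beq (tv m env (dK p 0 / 8) (dK p 1 / 8) (dK p 3 / 8)) 1 &&
  Nat.beq (tv m env (dK p 0 / 8) (dK p 2 / 8) (dK p 3 / 8)) 1 &&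
  Nat.beq (tv m env (dK p 1 / 8) (dK p 2 / 8) (dK p 3 / 8)) 1

/-- a blow-up of the pattern `P` -/
def leafF (P : Pt) (m : ℕ) (env : List (ℕ × ℕ)) (p : ℕ) : Bool :=
  (nall P.k fun i => Nat.blt (dF p i) 6) &&
  (P.T.all fun x => Nat.blt x.1 x.2.1 && Nat.blt x.2.1 x.2.2.1 && Nat.blt x.2.2.1 P.k &&
    Nat.ble x.2.2.2 1 && Nat.beq (tv m env (dF p x.1) (dF p x.2.1) (dF p x.2.2.1)) x.2.2.2) &&
  (P.R.all fun x => !Nat.beq x.1 x.2.1 && Nat.blt x.1 P.k && Nat.blt x.2.1 P.k &&
    Nat.ble x.2.2 1 && Nat.beq (tv m env (dF p x.1) (dF p x.1) (dF p x.2.1)) x.2.2)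

/-- the check of a tree -/
def chk (P : Pt) (m : ℕ) : List (ℕ × ℕ) → Tr → Bool
  | env, .k p => leafK m env p
  | env, .f p => leafF P m env p
  | env, .n v a b => chk P m ((v, 0) :: env) a && chk P m ((v, 1) :: env) b

/-- the decided variables have the values given by `c` -/
def Agree (c : ℕ → ℕ → ℕ) (env : List (ℕ × ℕ)) : Prop :=
  ∀ i j, i < 6 → j < 6 → look env (6 * i + j) = 2 ∨ look env (6 * i + j) = c i j

theorem Agree.cons {c : ℕ → ℕ → ℕ} {env : List (ℕ × ℕ)} (h : Agree c env) {v b : ℕ}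
    (hb : c (v / 6) (v % 6) = b) : Agree c ((v, b) :: env) := by
  intro i j hi hj
  change (bif Nat.beq v (6 * i + j) then b else look env (6 * i + j)) = 2 ∨
    (bif Nat.beq v (6 * i + j) then b else look env (6 * i + j)) = c i j
  by_cases e : v = 6 * i + j
  · right
    have h1 : Nat.beq v (6 * i + j) = true := beq_t e
    rw [h1]
    change b = c i j
    have h2 : v / 6 = i := by omega
    have h3 : v % 6 = j := by omega
    rw [← hb, h2, h3]
  · have h1 : Nat.beq v (6 * i + j) = false := beq_f e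
    rw [h1]
    exact h i j hi hj

section
variable {V : Type} {E : V → V → V → ℕ} {m t : ℕ} {c : ℕ → ℕ → ℕ} {env : List (ℕ × ℕ)}
  {y : Fin 6 → Fin t → V}

theorem Hom.full (hE : Sy E) (h : Hom E m c t y) (i j l : Fin 6) (hij : i ≠ j) (hil : i ≠ l)
    (hjl : j ≠ l) (a b d : Fin t) : E (y i a) (y j b) (y l d) = u3 m (s3 i j l) := by
  rcases lt_or_gt_of_ne hij with h1 | h1 <;> rcases lt_or_gt_of_ne hil with h2 | h2 <;>
    rcases lt_or_gt_of_ne hjl with h3 | h3
  · rw [s3_sorted h1 h3]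
    exact h.tri i j l h1 h3 a b d
  · rw [← hE.h132, h.tri i l j h2 h3, ← s3_132, s3_sorted h2 h3]
    rfl
  · exact absurd (h1.trans h3) (not_lt.mpr h2.le)
  · rw [← hE.h312, h.tri l i j h2 h1, ← s3_132, ← s3_213, s3_sorted h2 h1]
    rfl
  · rw [← hE.h213, h.tri j i l h1 h2, ← s3_213, s3_sorted h1 h2]
    rfl
  · exact absurd (h1.trans h2) (not_lt.mpr h3.le)
  · rw [← hE.h231, h.tri j l i h3 h2, ← s3_213, ← s3_132, s3_sorted h3 h2]
    rfl
  · rw [hE.h213 (y j b) (y i a) (y l d), hE.h132 (y j b) (y l d) (y i a),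
      hE.h213 (y l d) (y j b) (y i a), h.tri l j i h3 h1, ← s3_213, ← s3_132, ← s3_213,
      s3_sorted h3 h1]
    rfl

theorem tv_sound (hE : Sy E) (h : Hom E m c t y) (hA : Agree c env) (p q r : Fin 6)
    (a b d : Fin t) (h1 : p = q → a ≠ b) (h2 : p = r → a ≠ d) (h3 : q = r → b ≠ d) {v : ℕ}
    (hv : v ≤ 1) (hh : tv m env p q r = v) : E (y p a) (y q b) (y r d) = v := by
  have ag : ∀ i j : Fin 6, look env (6 * i.val + j.val) = v → c i j = v := by
    intro i j e
    rcases hA i j i.isLt j.isLt with e2 | e2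
    · omega
    · rw [← e2]; exact e
  unfold tv at hh
  by_cases hpq : p = q
  · rw [beq_t (congrArg Fin.val hpq)] at hh
    by_cases hqr : q = r
    · rw [beq_t (congrArg Fin.val hqr)] at hh
      have e0 : (0 : ℕ) = v := hh
      subst hpq
      subst hqr
      rw [← e0]
      exact h.ind p a b d (h1 rfl) (h2 rfl) (h3 rfl)
    · rw [beq_f (fun e => hqr (Fin.ext e))] at hh
      have e0 : look env (6 * p.val + r.val) = v := hh
      subst hpq
      rw [h.par p r hqr a b (h1 rfl) d]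
      exact ag _ _ e0
  · rw [beq_f (fun e => hpq (Fin.ext e))] at hh
    by_cases hqr : q = r
    · rw [beq_t (congrArg Fin.val hqr)] at hh
      have e0 : look env (6 * q.val + p.val) = v := hh
      subst hqr
      rw [← hE.h231, h.par q p (fun e => hpq e.symm) b d (h3 rfl) a]
      exact ag _ _ e0
    · rw [beq_f (fun e => hqr (Fin.ext e))] at hh
      by_cases hpr : p = r
      · rw [beq_t (congrArg Fin.val hpr)] at hh
        have e0 : look env (6 * p.val + q.val) = v := hh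
        subst hpr
        rw [← hE.h132, h.par p q hpq a d (h2 rfl) b]
        exact ag _ _ e0
      · rw [beq_f (fun e => hpr (Fin.ext e))] at hh
        have e0 : u3 m (s3 p q r) = v := hh
        rw [h.full hE p q r hpq hpr hqr]
        exact e0

end
end Pool.Agent.Y47.BU
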