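import Pool.Agent.Y47.BU.GCnt

/-! Homogeneous structures with three classes in homogeneous blow-ups. -/

set_option autoImplicit false
set_option maxRecDepth 100000
open Finset
open scoped Classical

namespace Pool.Agent.Y47.BU
open Pool.Agent.H122R2.N6 Pool.Agent.H37R3.Pen Pool.Agent.H37R3.Cop
open Pool.Agent.TH773.CL (tx)
open Pool.Agent.TH773.CM (s3 s3_213 s3_132 s3_sorted u3 CpK cpS mem_cpS)

/-- two vertices of the class `a` and one of the class `b`, type `τ` -/
def arcN (τ a b : ℕ) : ℕ :=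
  bif (Nat.beq a 0 && Nat.beq b 1 && Nat.ble 1 τ) || (Nat.beq a 1 && Nat.beq b 2 && Nat.ble 2 τ)
  then 1 else 0

/-- the value of a triple with classes `a`, `b`, `d`, type `τ` -/
def patN (τ a b d : ℕ) : ℕ :=
  bif Nat.beq a b then (bif Nat.beq b d then 0 else arcN τ a d)
  else bif Nat.beq b d then arcN τ b a
  else bif Nat.beq a d then arcN τ a b else 1

def clU (p s : ℕ) : ℕ := p / 8 ^ (s + 1) % 8

def leafU (m : ℕ) (env : List (ℕ × ℕ)) (p : ℕ) : Bool :=
  Nat.blt (p % 8) 3 && (nall 3 fun s => Nat.blt (clU p s) 6) &&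
  (nall 3 fun s => nall s fun r => !Nat.beq (clU p s) (clU p r)) &&
  nall 3 fun a => nall 3 fun b => nall 3 fun d =>
    Nat.beq (tv m env (clU p a) (clU p b) (clU p d)) (patN (p % 8) a b d)

/-- the check of a tree -/
def ckU (m : ℕ) : List (ℕ × ℕ) → Tr → Bool
  | env, .k p => leafK m env p
  | env, .f p => leafU m env p
  | env, .n v x y => ckU m ((v, 0) :: env) x && ckU m ((v, 1) :: env) y

/-- a homogeneous structure with three classes of one of the three types -/
def IsU (t : ℕ) (V : Type) (E : V → V → V → ℕ) (z : Fin 3 × Fin t → V) : Prop :=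
  ∃ τ < 3, ∀ u v w : Fin 3 × Fin t, u ≠ v → u ≠ w → v ≠ w →
    E (z u) (z v) (z w) = patN τ u.1 v.1 w.1

theorem arcN_le (τ a b : ℕ) : arcN τ a b ≤ 1 := by
  unfold arcN
  cases (Nat.beq a 0 && Nat.beq b 1 && Nat.ble 1 τ) || (Nat.beq a 1 && Nat.beq b 2 && Nat.ble 2 τ)
  · exact Nat.zero_le _
  · exact le_refl _

theorem patN_le (τ a b d : ℕ) : patN τ a b d ≤ 1 := by
  unfold patN
  cases Nat.beq a b
  · cases Nat.beq b d
    · cases Nat.beq a d
      · exact le_refl _
      · exact arcN_le _ _ _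
    · exact arcN_le _ _ _
  · cases Nat.beq b d
    · exact arcN_le _ _ _
    · exact Nat.zero_le _

section
variable {V : Type} {E : V → V → V → ℕ} {m t : ℕ} {c : ℕ → ℕ → ℕ} {y : Fin 6 → Fin t → V}

theorem leafU_sound (hE : Sy E) (h : Hom E m c t y) {env : List (ℕ × ℕ)} (hA : Agree c env)
    {p : ℕ} (hp : leafU m env p = true) : ∃ τ < 3, ∃ cl : Fin 3 → Fin 6, Function.Injective cl ∧
      ∀ u v w : Fin 3 × Fin t, u ≠ v → u ≠ w → v ≠ w →
        E (y (cl u.1) u.2) (y (cl v.1) v.2) (y (cl w.1) w.2) = patN τ u.1 v.1 w.1 := by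
  unfold leafU at hp
  rw [Bool.and_eq_true, Bool.and_eq_true, Bool.and_eq_true] at hp
  obtain ⟨⟨⟨h1, h2⟩, h3⟩, h4⟩ := hp
  have g2 : ∀ s < 3, clU p s < 6 := fun s hs => Nat.le_of_ble_eq_true (nall_true h2 s hs)
  have g3 : ∀ s < 3, ∀ r < s, clU p s ≠ clU p r := by
    intro s hs r hr e
    have := nall_true (nall_true h3 s hs) r hr
    rw [e] at this
    simp at this
  have g4 : ∀ a < 3, ∀ b < 3, ∀ d < 3, tv m env (clU p a) (clU p b) (clU p d) =
      patN (p % 8) a b d := fun a ha b hb d hd =>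
    Nat.eq_of_beq_eq_true (nall_true (nall_true (nall_true h4 a ha) b hb) d hd)
  have ginj : ∀ s < 3, ∀ r < 3, clU p s = clU p r → s = r := by
    intro s hs r hr e
    rcases lt_trichotomy s r with h | h | h
    · exact absurd e.symm (g3 r hr s h)
    · exact h
    · exact absurd e (g3 s hs r h)
  refine ⟨p % 8, Nat.le_of_ble_eq_true h1, fun s => ⟨clU p s, g2 s s.isLt⟩, ?_, ?_⟩
  · intro s r e
    exact Fin.ext (ginj s s.isLt r r.isLt (congrArg Fin.val e))
  · intro u v w h1 h2 h3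
    refine tv_sound hE h hA _ _ _ _ _ _ ?_ ?_ ?_ (patN_le _ _ _ _)
      (g4 _ u.1.isLt _ v.1.isLt _ w.1.isLt)
    · intro e1 e2
      exact h1 (Prod.ext (Fin.ext (ginj _ u.1.isLt _ v.1.isLt (congrArg Fin.val e1))) e2)
    · intro e1 e2
      exact h2 (Prod.ext (Fin.ext (ginj _ u.1.isLt _ w.1.isLt (congrArg Fin.val e1))) e2)
    · intro e1 e2
      exact h3 (Prod.ext (Fin.ext (ginj _ v.1.isLt _ w.1.isLt (congrArg Fin.val e1))) e2)

theorem ckU_sound (hE : Sy E) (hK : NoK4 E) (h : Hom E m c t y)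
    (hc : ∀ i j, c i j = 0 ∨ c i j = 1) (h8 : 8 ≤ t) :
    ∀ (tr : Tr) (env : List (ℕ × ℕ)), Agree c env → ckU m env tr = true →
    ∃ τ < 3, ∃ cl : Fin 3 → Fin 6, Function.Injective cl ∧
      ∀ u v w : Fin 3 × Fin t, u ≠ v → u ≠ w → v ≠ w →
        E (y (cl u.1) u.2) (y (cl v.1) v.2) (y (cl w.1) w.2) = patN τ u.1 v.1 w.1
  | .k p, env, hA, hp => (leafK_sound hE hK h hA (by omega) hp).elim
  | .f p, env, hA, hp => leafU_sound hE h hA hp
  | .n v x z, env, hA, hp => by
    have hp' : (ckU m ((v, 0) :: env) x && ckU m ((v, 1) :: env) z) = true := hp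
    rw [Bool.and_eq_true] at hp'
    rcases hc (v / 6) (v % 6) with e | e
    · exact ckU_sound hE hK h hc h8 x _ (hA.cons e) hp'.1
    · exact ckU_sound hE hK h hc h8 z _ (hA.cons e) hp'.2

end

theorem ramU {m : ℕ} (t : ℕ) (tr : Tr) (hc : ckU m [] tr = true) : RamG (IsU t) m := by
  refine ramG (max t 8) (le_max_right _ _) ?_ ?_
  · rw [Fintype.card_prod, Fintype.card_fin, Fintype.card_fin]
    have := le_max_left t 8
    omega
  · intro V E c y hE hK hH hc01
    obtain ⟨τ, hτ, cl, hcl, hz⟩ := ckU_sound hE hK hH hc01 (le_max_right _ _) tr []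
      (fun _ _ _ _ => Or.inl rfl) hc
    refine ⟨fun u => (cl u.1, Fin.castLE (le_max_left _ _) u.2), ?_, τ, hτ, ?_⟩
    · intro u v e
      have e1 := (Prod.mk.inj e).1
      have e2 := (Prod.mk.inj e).2
      exact Prod.ext (hcl e1) (Fin.castLE_injective _ e2)
    · intro u v w h1 h2 h3
      have key : ∀ u v : Fin 3 × Fin t, u ≠ v →
          ((u.1, Fin.castLE (le_max_left t 8) u.2) : Fin 3 × Fin (max t 8)) ≠
            (v.1, Fin.castLE (le_max_left t 8) v.2) := by
        intro u v h e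
        exact h (Prod.ext (Prod.mk.inj e).1 (Fin.castLE_injective _ (Prod.mk.inj e).2))
      exact hz _ _ _ (key u v h1) (key u w h2) (key v w h3)

end Pool.Agent.Y47.BU
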